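import Pool.Agent.Helper31.NR.Defs

/-!
# Block NR-PART (helper31): the partite construction of Nesetril and Rodl over a base `X`

(helper31 proves this file.)
-/

set_option autoImplicit false

namespace Pool.Agent.Helper31.NR

/-- `x` and `y` are joined by a tuple whose entries are exactly `x` and `y`. -/
def Adj {S : Type} {ar : S → ℕ} {V : Type} (I : Str ar V) (x y : V) : Prop :=
  ∃ (s : S) (t : Fin (ar s) → V), I s t ∧ Set.range t = {x, y}

section step

variable {S : Type} {ar : S → ℕ} {X : Type} {a b : ℕ}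

/-- A finite structure over `X`. -/
private structure Sys31 {S : Type} (ar : S → ℕ) (X : Type) where
  V : Type
  fin : Finite V
  pr : V → X
  I : Str ar V

private def Em31 (P Q : Sys31 ar X) (φ : P.V → Q.V) : Prop :=
  (∀ v, Q.pr (φ v) = P.pr v) ∧ pull φ Q.I = P.I ∧ Function.Injective φ

private def Small31 (P : Sys31 ar X) (EE : Set (Fin a → X)) (GG : Set (Fin b → X)) : Prop :=
  ∀ Z : Set P.V, (∀ x ∈ Z, ∀ y ∈ Z, x ≠ y → Adj P.I x y) →
    (∃ e ∈ EE, P.pr '' Z ⊆ Set.range e) ∨ ∃ g ∈ GG, P.pr '' Z ⊆ Set.range g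

private def Tr31 (P : Sys31 ar X) : Prop :=
  ∀ (s : S) (t : Fin (ar s) → P.V), P.I s t → Function.Injective (fun i => P.pr (t i))

section constr

variable (A : Str ar (Fin a)) (d : Fin a → X) (Q : Sys31 ar X) (ι : Type)

/-- The copies of `A` over `d`. -/
private abbrev Cp31 : Type := {e : Fin a → Q.V // (∀ i, Q.pr (e i) = d i) ∧ pull e Q.I = A}

/-- The power. -/
private abbrev W31 : Type := {w : Fin a × (ι → Q.V) // ∀ j, Q.pr (w.2 j) = d w.1}

/-- The lines. -/
private abbrev L31 : Type := {l : ι → Option (Cp31 A d Q) // ∃ j, l j = none}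

/-- The points outside. -/
private abbrev O31 : Type := {v : Q.V // ∀ i, Q.pr v ≠ d i}

private def IW31 : Str ar (W31 d Q ι) := fun s t =>
  (A s (fun i => (t i).1.1) ∧ ∀ j, Q.I s (fun i => (t i).1.2 j)) ∨
    (¬ A s (fun i => (t i).1.1) ∧ ∃ j, Q.I s (fun i => (t i).1.2 j))

variable {A d Q ι}

private def fW31 (l : L31 A d Q ι) (v : Q.V) (i : Fin a) (hi : Q.pr v = d i) : W31 d Q ι :=
  ⟨(i, fun j => (l.1 j).elim v (fun σ => σ.1 i)), by
    intro j
    cases h : l.1 j with
    | none => simpa [h] using hi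
    | some σ => simpa [h] using σ.2.1 i⟩

open Classical in
private noncomputable def f31 (l : L31 A d Q ι) (v : Q.V) : W31 d Q ι ⊕ L31 A d Q ι × O31 d Q :=
  if h : ∃ i, Q.pr v = d i then Sum.inl (fW31 l v h.choose h.choose_spec)
  else Sum.inr (l, ⟨v, fun i hi => h ⟨i, hi⟩⟩)

private lemma f31_in (hd : Function.Injective d) (l : L31 A d Q ι) (v : Q.V) (i : Fin a)
    (hi : Q.pr v = d i) : f31 l v = Sum.inl (fW31 l v i hi) := by
  have h : ∃ i, Q.pr v = d i := ⟨i, hi⟩
  unfold f31
  rw [dif_pos h]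
  have h2 : h.choose = i := hd (h.choose_spec.symm.trans hi)
  congr 1
  have : ∀ (i' : Fin a) (h' : Q.pr v = d i'), i' = i → fW31 l v i' h' = fW31 l v i hi := by
    rintro i' h' rfl; rfl
  exact this _ _ h2

private lemma f31_out (l : L31 A d Q ι) (v : Q.V) (h : ¬ ∃ i, Q.pr v = d i) :
    f31 l v = Sum.inr (l, ⟨v, fun i hi => h ⟨i, hi⟩⟩) := by
  unfold f31
  rw [dif_neg h]

private lemma f31_inj (hd : Function.Injective d) (l : L31 A d Q ι) : Function.Injective (f31 l) := by
  intro v v' h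
  by_cases hv : ∃ i, Q.pr v = d i
  · obtain ⟨i, hi⟩ := hv
    by_cases hv' : ∃ i, Q.pr v' = d i
    · obtain ⟨i', hi'⟩ := hv'
      rw [f31_in hd l v i hi, f31_in hd l v' i' hi'] at h
      have h1 := Sum.inl_injective h
      obtain ⟨j, hj⟩ := l.2
      have h2 := congrArg (fun w => w.1.2 j) h1
      simpa [fW31, hj] using h2
    · rw [f31_in hd l v i hi, f31_out l v' hv'] at h
      exact absurd h (by simp)
  · by_cases hv' : ∃ i, Q.pr v' = d i
    · obtain ⟨i', hi'⟩ := hv'
      rw [f31_in hd l v' i' hi', f31_out l v hv] at h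
      exact absurd h (by simp)
    · rw [f31_out l v hv, f31_out l v' hv'] at h
      have h1 := Sum.inr_injective h
      have h2 := congrArg (fun w => w.2.1) h1
      exact h2

private lemma IW31_iff (l : L31 A d Q ι) (s : S) (u : Fin (ar s) → Q.V) (p : Fin (ar s) → Fin a)
    (hp : ∀ i, Q.pr (u i) = d (p i)) :
    IW31 A d Q ι s (fun i => fW31 l (u i) (p i) (hp i)) ↔ Q.I s u := by
  obtain ⟨j0, hj0⟩ := l.2
  have h0 : (fun i => (fW31 l (u i) (p i) (hp i)).1.2 j0) = u := by
    funext i; simp [fW31, hj0]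
  have h1 : ∀ j σ, l.1 j = some σ →
      (Q.I s (fun i => (fW31 l (u i) (p i) (hp i)).1.2 j) ↔ A s p) := by
    intro j σ hj
    have : (fun i => (fW31 l (u i) (p i) (hp i)).1.2 j) = fun i => σ.1 (p i) := by
      funext i; simp [fW31, hj]
    rw [this]
    have h2 := congrFun (congrFun σ.2.2 s) p
    unfold pull at h2
    rw [h2]
  have h3 : ∀ j, l.1 j = none → (fun i => (fW31 l (u i) (p i) (hp i)).1.2 j) = u := by
    intro j hj
    funext i; simp [fW31, hj]
  unfold IW31
  have hp2 : (fun i => (fW31 l (u i) (p i) (hp i)).1.1) = p := rfl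
  rw [hp2]
  constructor
  · rintro (⟨hA, h⟩ | ⟨hA, j, hj⟩)
    · have := h j0
      rwa [h0] at this
    · cases hl : l.1 j with
      | none => rwa [h3 j hl] at hj
      | some σ => exact absurd ((h1 j σ hl).1 hj) hA
  · intro h
    by_cases hA : A s p
    · left
      refine ⟨hA, fun j => ?_⟩
      cases hl : l.1 j with
      | none => rwa [h3 j hl]
      | some σ => exact (h1 j σ hl).2 hA
    · right
      refine ⟨hA, j0, ?_⟩
      rwa [h0]

variable (A d Q ι) in
/-- The new structure. -/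
private noncomputable def I31 : Str ar (W31 d Q ι ⊕ L31 A d Q ι × O31 d Q) := fun s t =>
  (∃ w : Fin (ar s) → W31 d Q ι, (∀ i, t i = Sum.inl (w i)) ∧ IW31 A d Q ι s w) ∨
    ∃ (l : L31 A d Q ι) (u : Fin (ar s) → Q.V), (∀ i, t i = f31 l (u i)) ∧ Q.I s u

variable (d Q ι A) in
private def pr31 : W31 d Q ι ⊕ L31 A d Q ι × O31 d Q → X
  | Sum.inl w => d w.1.1
  | Sum.inr p => Q.pr p.2.1

private lemma pr31_f (hd : Function.Injective d) (l : L31 A d Q ι) (v : Q.V) :
    pr31 A d Q ι (f31 l v) = Q.pr v := by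
  by_cases hv : ∃ i, Q.pr v = d i
  · obtain ⟨i, hi⟩ := hv
    rw [f31_in hd l v i hi]
    exact hi.symm
  · rw [f31_out l v hv]; rfl

private lemma f31_inl (hd : Function.Injective d) (l : L31 A d Q ι) (v : Q.V) (w : W31 d Q ι)
    (h : f31 l v = Sum.inl w) : ∃ (i : Fin a) (hi : Q.pr v = d i), w = fW31 l v i hi := by
  by_cases hv : ∃ i, Q.pr v = d i
  · obtain ⟨i, hi⟩ := hv
    rw [f31_in hd l v i hi] at h
    exact ⟨i, hi, (Sum.inl_injective h).symm⟩
  · rw [f31_out l v hv] at h
    exact absurd h (by simp)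

private lemma pull31 (hd : Function.Injective d) (l : L31 A d Q ι) :
    pull (f31 l) (I31 A d Q ι) = Q.I := by
  funext s u
  apply propext
  unfold pull
  constructor
  · rintro (⟨w, hw, hIW⟩ | ⟨l', u', hu', hQ⟩)
    · have h1 : ∀ i, ∃ (p : Fin a) (hp : Q.pr (u i) = d p), w i = fW31 l (u i) p hp :=
        fun i => f31_inl hd l (u i) (w i) (hw i)
      choose p hp hwp using h1
      have h2 : w = fun i => fW31 l (u i) (p i) (hp i) := funext hwp
      rw [h2] at hIW
      exact (IW31_iff l s u p hp).1 hIW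
    · by_cases hall : ∀ i, ∃ p : Fin a, Q.pr (u i) = d p
      · choose p hp using hall
        have hp' : ∀ i, Q.pr (u' i) = d (p i) := by
          intro i
          rw [← pr31_f hd l' (u' i), ← hu' i, pr31_f hd l (u i)]
          exact hp i
        have h3 := (IW31_iff l' s u' p hp').2 hQ
        have h4 : (fun i => fW31 l' (u' i) (p i) (hp' i)) = fun i => fW31 l (u i) (p i) (hp i) := by
          funext i
          have h5 : f31 l (u i) = f31 l' (u' i) := hu' i
          rw [f31_in hd l (u i) (p i) (hp i), f31_in hd l' (u' i) (p i) (hp' i)] at h5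
          exact (Sum.inl_injective h5).symm
        rw [h4] at h3
        exact (IW31_iff l s u p hp).1 h3
      · push Not at hall
        obtain ⟨i, hi⟩ := hall
        have h5 : f31 l (u i) = f31 l' (u' i) := hu' i
        have hi1 : ¬ ∃ p, Q.pr (u i) = d p := by rintro ⟨p, hp⟩; exact hi p hp
        have hi2 : ¬ ∃ p, Q.pr (u' i) = d p := by
          rintro ⟨p, hp⟩
          apply hi p
          rw [← hp, ← pr31_f hd l' (u' i), ← h5, pr31_f hd l (u i)]
        rw [f31_out l (u i) hi1, f31_out l' (u' i) hi2] at h5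
        have h6 : l = l' := congrArg Prod.fst (Sum.inr_injective h5)
        subst h6
        have h7 : u = u' := funext fun i => f31_inj hd l (hu' i)
        rwa [h7]
  · intro h
    exact Or.inr ⟨l, u, fun _ => rfl, h⟩

end constr

private lemma step31 (A : Str ar (Fin a)) (d : Fin a → X) (hd : Function.Injective d) (EE : Set (Fin a → X))
    (GG : Set (Fin b → X)) (hdE : d ∈ EE) (κ : Type) [Finite κ] (Q : Sys31 ar X) :
    ∃ Q' : Sys31 ar X, (∀ c : (Fin a → Q'.V) → κ, ∃ φ : Q.V → Q'.V, Em31 Q Q' φ ∧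
      ∀ e e' : Fin a → Q.V, (∀ i, Q.pr (e i) = d i) → pull e Q.I = A → (∀ i, Q.pr (e' i) = d i) →
        pull e' Q.I = A → c (fun i => φ (e i)) = c (fun i => φ (e' i))) ∧
      (Small31 Q EE GG → Small31 Q' EE GG) ∧
      ((∀ s t, A s t → Function.Injective t) → Tr31 Q → Tr31 Q') := by
  classical
  have := Q.fin
  rcases isEmpty_or_nonempty (Cp31 A d Q) with hem | hne
  · refine ⟨Q, fun c => ⟨id, ⟨fun _ => rfl, rfl, Function.injective_id⟩, ?_⟩, id, fun _ => id⟩
    intro e e' he hA _ _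
    exact (hem.false ⟨e, he, hA⟩).elim
  obtain ⟨ι, hιf, hι⟩ := Combinatorics.Line.exists_mono_in_high_dimension (Cp31 A d Q) κ
  refine ⟨⟨W31 d Q ι ⊕ L31 A d Q ι × O31 d Q, inferInstance, pr31 A d Q ι, I31 A d Q ι⟩, ?_, ?_, ?_⟩
  · intro c
    let D : (ι → Cp31 A d Q) → κ := fun w =>
      c (fun i => Sum.inl ⟨(i, fun j => (w j).1 i), fun j => (w j).2.1 i⟩)
    obtain ⟨l, k, hk⟩ := hι D
    refine ⟨f31 ⟨l.idxFun, l.proper⟩, ⟨pr31_f hd _, pull31 hd _, f31_inj hd _⟩, ?_⟩
    have key : ∀ e : Fin a → Q.V, (∀ i, Q.pr (e i) = d i) → pull e Q.I = A →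
        c (fun i => f31 ⟨l.idxFun, l.proper⟩ (e i)) = k := by
      intro e he hA
      rw [← hk ⟨e, he, hA⟩]
      change _ = c _
      congr 1
      funext i
      rw [f31_in hd _ (e i) i (he i)]
      congr 1
      apply Subtype.ext
      refine Prod.ext rfl ?_
      funext j
      change (l.idxFun j).elim (e i) (fun σ => σ.1 i) = ((l.idxFun j).getD ⟨e, he, hA⟩).1 i
      cases l.idxFun j <;> rfl
    intro e e' he hA he' hA'
    rw [key e he hA, key e' he' hA']
  · intro hS Z hZ
    by_cases hout : ∃ p : L31 A d Q ι × O31 d Q, Sum.inr p ∈ Z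
    · obtain ⟨⟨l, v0⟩, hp⟩ := hout
      have hv0 : f31 l v0.1 = Sum.inr (l, v0) := by
        rw [f31_out l v0.1 (by rintro ⟨i, hi⟩; exact v0.2 i hi)]
      have hrange : ∀ z ∈ Z, ∃ v, z = f31 l v := by
        intro z hz
        by_cases hzz : z = Sum.inr (l, v0)
        · exact ⟨v0.1, hzz.trans hv0.symm⟩
        · obtain ⟨s, t, ht, hr⟩ := hZ z hz _ hp hzz
          have hz0 : (Sum.inr (l, v0) : W31 d Q ι ⊕ L31 A d Q ι × O31 d Q) ∈ Set.range t := by
            rw [hr]; simp
          have hz1 : z ∈ Set.range t := by rw [hr]; simp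
          obtain ⟨i0, hi0⟩ := hz0
          obtain ⟨i1, hi1⟩ := hz1
          rcases ht with ⟨w, hw, _⟩ | ⟨l', u, hu, _⟩
          · rw [hw i0] at hi0
            exact absurd hi0 (by simp)
          · rw [hu i0] at hi0
            have hl : l' = l := by
              by_cases hv : ∃ i, Q.pr (u i0) = d i
              · obtain ⟨i, hi⟩ := hv
                rw [f31_in hd l' (u i0) i hi] at hi0
                exact absurd hi0 (by simp)
              · rw [f31_out l' (u i0) hv] at hi0
                exact congrArg Prod.fst (Sum.inr_injective hi0)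
            subst hl
            exact ⟨u i1, by rw [← hi1, hu i1]⟩
      have hQ := hS {v | f31 l v ∈ Z} (by
        intro x hx y hy hxy
        obtain ⟨s, t, ht, hr⟩ := hZ _ hx _ hy (fun h => hxy (f31_inj hd l h))
        have ht2 : ∀ i, t i = f31 l (if t i = f31 l x then x else y) := by
          intro i
          split_ifs with h
          · exact h
          · have : t i ∈ ({f31 l x, f31 l y} : Set _) := by rw [← hr]; exact ⟨i, rfl⟩
            rcases this with h' | h'
            · exact absurd h' h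
            · exact h'
        refine ⟨s, fun i => if t i = f31 l x then x else y, ?_, ?_⟩
        · have h3 := congrFun (congrFun (pull31 hd l) s) (fun i => if t i = f31 l x then x else y)
          rw [← h3]
          unfold pull
          have h4 : (fun i => f31 l (if t i = f31 l x then x else y)) = t := by
            funext i; exact (ht2 i).symm
          rw [h4]
          exact ht
        · ext v
          constructor
          · rintro ⟨i, rfl⟩
            simp only
            split_ifs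
            · simp
            · simp
          · rintro (rfl | rfl)
            · have : f31 l v ∈ Set.range t := by rw [hr]; simp
              obtain ⟨i, hi⟩ := this
              exact ⟨i, by simp [hi]⟩
            · have : f31 l v ∈ Set.range t := by rw [hr]; simp
              obtain ⟨i, hi⟩ := this
              refine ⟨i, ?_⟩
              simp only
              rw [if_neg]
              rw [hi]
              intro h
              exact hxy (f31_inj hd l h).symm)
      have himg : ∀ T : Set X, Q.pr '' {v | f31 l v ∈ Z} ⊆ T → pr31 A d Q ι '' Z ⊆ T := by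
        rintro T hT _ ⟨z, hz, rfl⟩
        obtain ⟨v, rfl⟩ := hrange z hz
        rw [pr31_f hd]
        exact hT ⟨v, hz, rfl⟩
      rcases hQ with ⟨e, he, hsub⟩ | ⟨g, hg, hsub⟩
      · exact Or.inl ⟨e, he, himg _ hsub⟩
      · exact Or.inr ⟨g, hg, himg _ hsub⟩
    · left
      refine ⟨d, hdE, ?_⟩
      rintro _ ⟨z, hz, rfl⟩
      rcases z with w | p
      · exact ⟨w.1.1, rfl⟩
      · exact absurd ⟨p, hz⟩ hout
  · intro hA hT s t ht
    rcases ht with ⟨w, hw, hIW⟩ | ⟨l, u, hu, hQ⟩
    · have h1 : (fun i => pr31 A d Q ι (t i)) = fun i => d (w i).1.1 := by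
        funext i; rw [hw i]; rfl
      change Function.Injective (fun i => pr31 A d Q ι (t i))
      rw [h1]
      rcases hIW with ⟨h2, _⟩ | ⟨_, j, hj⟩
      · exact hd.comp (hA s _ h2)
      · have h3 := hT s _ hj
        have h4 : (fun i => Q.pr ((w i).1.2 j)) = fun i => d (w i).1.1 := by
          funext i; exact (w i).2 j
        rwa [h4] at h3
    · have h1 : (fun i => pr31 A d Q ι (t i)) = fun i => Q.pr (u i) := by
        funext i; rw [hu i, pr31_f hd]
      change Function.Injective (fun i => pr31 A d Q ι (t i))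
      rw [h1]
      exact hT s u hQ

private lemma iter31 (A : Str ar (Fin a)) (EE : Set (Fin a → X)) (GG : Set (Fin b → X)) (κ : Type) [Finite κ]
    (hE : ∀ e ∈ EE, Function.Injective e) (P0 : Sys31 ar X) (D : Set (Fin a → X)) (hD : D.Finite) (hDE : D ⊆ EE) :
    ∃ P : Sys31 ar X, (∀ c : (Fin a → P.V) → κ, ∃ φ : P0.V → P.V, Em31 P0 P φ ∧
      ∀ e e' : Fin a → P0.V, (fun i => P0.pr (e i)) ∈ D → (∀ i, P0.pr (e' i) = P0.pr (e i)) →
        pull e P0.I = A → pull e' P0.I = A → c (fun i => φ (e i)) = c (fun i => φ (e' i))) ∧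
      (Small31 P0 EE GG → Small31 P EE GG) ∧
      ((∀ s t, A s t → Function.Injective t) → Tr31 P0 → Tr31 P) := by
  induction D, hD using Set.Finite.induction_on with
  | empty =>
    refine ⟨P0, fun c => ⟨id, ⟨fun _ => rfl, rfl, Function.injective_id⟩, ?_⟩, id, fun _ => id⟩
    intro e e' he
    exact absurd he (by simp)
  | @insert d D _ _ ih =>
    obtain ⟨P, hP, hPs, hPt⟩ := ih (fun e he => hDE (Set.mem_insert_of_mem _ he))
    have hdE : d ∈ EE := hDE (Set.mem_insert _ _)
    obtain ⟨P', hP', hPs', hPt'⟩ := step31 A d (hE d hdE) EE GG hdE κ P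
    refine ⟨P', ?_, fun h => hPs' (hPs h), fun hA h => hPt' hA (hPt hA h)⟩
    intro c
    obtain ⟨φ1, ⟨hφ1a, hφ1b, hφ1c⟩, hφ1⟩ := hP' c
    obtain ⟨φ0, ⟨hφ0a, hφ0b, hφ0c⟩, hφ0⟩ := hP (fun e => c (fun i => φ1 (e i)))
    refine ⟨fun v => φ1 (φ0 v), ⟨fun v => by rw [hφ1a, hφ0a], ?_, hφ1c.comp hφ0c⟩, ?_⟩
    · rw [← hφ0b, ← hφ1b]; rfl
    · intro e e' he hee hA hA'
      have hpull : ∀ e : Fin a → P0.V, pull e P0.I = A → pull (fun i => φ0 (e i)) P.I = A := by
        intro e hA
        rw [← hA, ← hφ0b]; rfl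
      rcases he with he | he
      · have he2 : ∀ i, P0.pr (e i) = d i := fun i => congrFun he i
        refine hφ1 (fun i => φ0 (e i)) (fun i => φ0 (e' i)) ?_ (hpull e hA) ?_ (hpull e' hA')
        · intro i; rw [hφ0a, he2]
        · intro i; rw [hφ0a, hee, he2]
      · exact hφ0 e e' he hee hA hA'

end step

/-- The general partite theorem.  `P = (V, pr, I)` is a structure over the base `X`. -/
theorem partite {S : Type} {ar : S → ℕ} {X : Type} [Finite X] {a b : ℕ} (A : Str ar (Fin a)) (B : Str ar (Fin b))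
    (H : Set (Fin a → Fin b)) (EE : Set (Fin a → X)) (GG : Set (Fin b → X)) (κ : Type) [Finite κ] [Nonempty κ]
    (hH : ∀ h ∈ H, Function.Injective h ∧ pull h B = A)
    (hE : ∀ e ∈ EE, Function.Injective e) (hG : ∀ g ∈ GG, Function.Injective g)
    (hc : ∀ g ∈ GG, ∀ h ∈ H, g ∘ h ∈ EE)
    (hR : ∀ c : (Fin a → X) → κ, ∃ g ∈ GG, ∀ h ∈ H, ∀ h' ∈ H, c (g ∘ h) = c (g ∘ h')) :
    ∃ (V : Type) (_ : Finite V) (pr : V → X) (I : Str ar V),
      (∀ c : (Fin a → V) → κ, ∃ f : Fin b → V, pr ∘ f ∈ GG ∧ pull f I = B ∧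
        ∀ h ∈ H, ∀ h' ∈ H, c (f ∘ h) = c (f ∘ h')) ∧
      (∀ Z : Set V, (∀ x ∈ Z, ∀ y ∈ Z, x ≠ y → Adj I x y) →
        (∃ e ∈ EE, pr '' Z ⊆ Set.range e) ∨ ∃ g ∈ GG, pr '' Z ⊆ Set.range g) ∧
      ((∀ s t, A s t → Function.Injective t) → (∀ s t, B s t → Function.Injective t) →
        ∀ (s : S) (t : Fin (ar s) → V), I s t → Function.Injective (pr ∘ t)) := by
  classical
  -- a member of `GG`
  obtain ⟨g0, hg0, _⟩ := hR (fun _ => Classical.arbitrary κ)
  -- the initial structure: disjoint copies of `B`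
  let P0 : Sys31 ar X :=
    ⟨GG × Fin b, inferInstance, fun v => v.1.1 v.2,
      fun s t => ∃ (g : GG) (u : Fin (ar s) → Fin b), (∀ i, t i = (g, u i)) ∧ B s u⟩
  have hcopy : ∀ g : GG, pull (fun i : Fin b => ((g, i) : GG × Fin b)) P0.I = B := by
    intro g
    funext s u
    apply propext
    constructor
    · rintro ⟨g', u', hu, hB⟩
      have : u = u' := by
        funext i
        exact congrArg Prod.snd (hu i)
      rwa [this]
    · intro h
      exact ⟨g, u, fun _ => rfl, h⟩
  have hS0 : Small31 P0 EE GG := by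
    intro Z hZ
    right
    rcases Z.eq_empty_or_nonempty with rfl | ⟨z0, hz0⟩
    · exact ⟨g0, hg0, by simp⟩
    · refine ⟨z0.1.1, z0.1.2, ?_⟩
      rintro _ ⟨z, hz, rfl⟩
      have hfst : z.1 = z0.1 := by
        by_cases h : z = z0
        · rw [h]
        · obtain ⟨s, t, ⟨g, u, hu, _⟩, hr⟩ := hZ z hz z0 hz0 h
          have h1 : z ∈ Set.range t := by rw [hr]; simp
          have h2 : z0 ∈ Set.range t := by rw [hr]; simp
          obtain ⟨i1, h1⟩ := h1
          obtain ⟨i2, h2⟩ := h2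
          rw [← h1, ← h2, hu i1, hu i2]
      exact ⟨z.2, by change z0.1.1 z.2 = z.1.1 z.2; rw [hfst]⟩
  have hT0 : (∀ s t, B s t → Function.Injective t) → Tr31 P0 := by
    rintro hB s t ⟨g, u, hu, hBu⟩
    have h1 : (fun i => P0.pr (t i)) = fun i => g.1 (u i) := by
      funext i; rw [hu i]
    rw [h1]
    exact (hG g.1 g.2).comp (hB s u hBu)
  obtain ⟨P, hP, hPs, hPt⟩ := iter31 A EE GG κ hE P0 EE (Set.toFinite EE) subset_rfl
  refine ⟨P.V, P.fin, P.pr, P.I, ?_, hPs hS0, fun hA hB => hPt hA (hT0 hB)⟩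
  intro c
  obtain ⟨φ, ⟨hφa, hφb, hφc⟩, hφ⟩ := hP c
  -- the colouring of the base
  let cb : (Fin a → X) → κ := fun x =>
    if h : ∃ e : Fin a → P0.V, (∀ i, P0.pr (e i) = x i) ∧ pull e P0.I = A then c (fun i => φ (h.choose i))
    else Classical.arbitrary κ
  obtain ⟨g, hg, hgc⟩ := hR cb
  have key : ∀ h ∈ H, cb (g ∘ h) = c (fun i => φ ((⟨g, hg⟩ : GG), h i)) := by
    intro h hh
    have hA : pull (fun i => (((⟨g, hg⟩ : GG), h i) : GG × Fin b)) P0.I = A := by
      rw [← (hH h hh).2, ← hcopy ⟨g, hg⟩]; rfl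
    have hex : ∃ e : Fin a → P0.V, (∀ i, P0.pr (e i) = (g ∘ h) i) ∧ pull e P0.I = A :=
      ⟨fun i => (⟨g, hg⟩, h i), fun _ => rfl, hA⟩
    have h1 : cb (g ∘ h) = c (fun i => φ (hex.choose i)) := dif_pos hex
    rw [h1]
    refine hφ _ _ ?_ ?_ hex.choose_spec.2 hA
    · have : (fun i => P0.pr (hex.choose i)) = g ∘ h := funext hex.choose_spec.1
      rw [this]
      exact hc g hg h hh
    · intro i
      exact (hex.choose_spec.1 i).symm
  refine ⟨fun i => φ ((⟨g, hg⟩ : GG), i), ?_, ?_, ?_⟩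
  · have : P.pr ∘ (fun i => φ ((⟨g, hg⟩ : GG), i)) = g := by
      funext i
      exact hφa _
    rw [this]
    exact hg
  · rw [← hcopy ⟨g, hg⟩, ← hφb]; rfl
  · intro h hh h' hh'
    have h1 := key h hh
    have h2 := key h' hh'
    have h3 := hgc h hh h' hh'
    rw [h1, h2] at h3
    exact h3

end Pool.Agent.Helper31.NR
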