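import Pool.Agent.Helper31.NR.Ram
import Pool.Agent.Helper31.NR.Part

/-!
# Block NR-ORD: a completable ordered class is Ramsey (colourings of increasing maps)

PROOF.
Step 1.  `p` from `ramsey_sets a b κ`.  Apply `partite` to the signature of `K`, with `X = Fin p`, `A`, `B`,
`H = {h | StrictMono h ∧ pull h B = A}`, `EE = {e | StrictMono e}`, `GG = {g | StrictMono g}`.  This gives `V1, pr1, I1`.
Step 2.  Apply `partite` to the signature with one binary symbol (`S = Unit`, `ar = fun _ => 2`), with the base `X = V1`, the complete graphs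
`A2 = fun _ t => t 0 ≠ t 1` on `Fin a`, `B2 = fun _ t => t 0 ≠ t 1` on `Fin b`, the same `H`,
`EE = {e | StrictMono (pr1 ∘ e) ∧ pull e I1 = A}`, `GG = {g | StrictMono (pr1 ∘ g) ∧ pull g I1 = B}` (the hypothesis `hR` is the
conclusion of step 1).  This gives `V2, pr2, I2`.  A tuple of `A2` or `B2` is injective, so `I2 () t` implies that `pr2 ∘ t` is injective.
Let `E v w` iff `I2 () ![v, w] ∧ I2 () ![w, v]` (symmetric; `E v w → pr2 v ≠ pr2 w`).
Step 3.  Let `c = Nat.card V2` and choose a bijection `u : Fin c ≃ V2` such that `k < l` implies `pr1 (pr2 (u k)) ≤ pr1 (pr2 (u l))`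
(sort `V2` by `pr1 ∘ pr2`; e.g. `Fintype.equivFin` and a lexicographic linear order, or `Tuple.sort`).
Let `E' k l = E (u k) (u l)` and `J s t = I1 s (pr2 ∘ u ∘ t)` on `Fin c`.
Let `f : Fin m → Fin c` be strictly monotone with `Clq E' f`.  The set `Z = range (u ∘ f)` is a clique of `I2`, so `pr2 '' Z` is contained in
the range of some `e ∈ EE` or `g ∈ GG`, say `e` (the case `g` is the same with `B`).  So `pr2 ∘ u ∘ f = e ∘ w` for some
`w : Fin m → Fin a`; `w` is injective because `pr2` is injective on `Z`; it is strictly monotone because `pr1 ∘ e` is strictly monotone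
and `pr1 ∘ pr2 ∘ u ∘ f` is monotone.  Hence `pull f J = pull w (pull e I1) = pull w A ∈ K` by `OHered`.
By `Completable` there is `C ∈ K` on `Fin c` with `pull f C = pull f J` for all these `f`.
Step 4.  Let `χ` be a colouring of the maps `Fin a → Fin c`.  Apply the conclusion of step 2 to `e ↦ χ (u.symm ∘ e)`: there is
`f2 : Fin b → V2` with `pr2 ∘ f2 ∈ GG`, `pull f2 I2 = B2` (so the range of `f2` is a clique of `E`).  `f = u.symm ∘ f2` is strictly monotone (`pr1 ∘ pr2 ∘ f2` is strictly
monotone), and `pull f C = pull f J = pull (pr2 ∘ f2) I1 = B`.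
-/

set_option autoImplicit false

namespace Pool.Agent.Helper31.NR

private theorem pull_comp' {S : Type} {ar : S → ℕ} {U V W : Type} (g : V → W) (h : U → V) (I : Str ar W) :
    pull (g ∘ h) I = pull h (pull g I) := rfl

/-- the complete graph on `V`, as a structure with one binary symbol -/
private def cplt (V : Type) : Str (fun _ : Unit => 2) V := fun _ t => t 0 ≠ t 1

private theorem cplt_inj {V : Type} (s : Unit) (t : Fin ((fun _ : Unit => 2) s) → V) (h : cplt V s t) :
    Function.Injective t := by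
  have h' : t 0 ≠ t 1 := h
  intro i j hij
  have key : ∀ i j : Fin 2, (t i = t j) → i = j := by
    intro i j hij
    fin_cases i <;> fin_cases j
    · rfl
    · exact absurd hij h'
    · exact absurd hij.symm h'
    · rfl
  exact key i j hij

private theorem comp_pair {V W : Type} (f : V → W) (x y : V) :
    (fun k : Fin 2 => f ((![x, y] : Fin 2 → V) k)) = ![f x, f y] := by
  funext k
  fin_cases k <;> rfl

theorem ramsey_ordered {S : Type} {ar : S → ℕ} (K : Cls ar) (hK : OHered K) (hC : Completable K) {a b : ℕ}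
    (A : Str ar (Fin a)) (B : Str ar (Fin b)) (hA : K a A) (hB : K b B) (κ : Type) [Finite κ] [Nonempty κ] :
    ∃ (c : ℕ) (C : Str ar (Fin c)), K c C ∧ ∀ χ : (Fin a → Fin c) → κ,
      ∃ f : Fin b → Fin c, StrictMono f ∧ pull f C = B ∧
        ∀ h h' : Fin a → Fin b, StrictMono h → StrictMono h' → pull h B = A → pull h' B = A →
          χ (f ∘ h) = χ (f ∘ h') := by
  -- step 1
  obtain ⟨p, hp⟩ := ramsey_sets a b κ
  obtain ⟨V1, _, pr1, I1, P1, P2, -⟩ := partite A B {h : Fin a → Fin b | StrictMono h ∧ pull h B = A}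
    {e : Fin a → Fin p | StrictMono e} {g : Fin b → Fin p | StrictMono g} κ
    (fun h hh => ⟨hh.1.injective, hh.2⟩) (fun e he => StrictMono.injective he)
    (fun g hg => StrictMono.injective hg) (fun g hg h hh => StrictMono.comp hg hh.1)
    (fun c => by
      obtain ⟨g, hg, hg'⟩ := hp c
      exact ⟨g, hg, fun h hh h' hh' => hg' h h' hh.1 hh'.1⟩)
  -- step 2
  obtain ⟨V2, _, pr2, I2, Q1, Q2, Q3⟩ := partite (cplt (Fin a)) (cplt (Fin b))
    {h : Fin a → Fin b | StrictMono h ∧ pull h B = A}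
    {e : Fin a → V1 | StrictMono (pr1 ∘ e) ∧ pull e I1 = A}
    {g : Fin b → V1 | StrictMono (pr1 ∘ g) ∧ pull g I1 = B} κ
    (fun h hh => ⟨hh.1.injective, by
      funext s t
      exact propext (not_congr hh.1.injective.eq_iff)⟩)
    (fun e he => Function.Injective.of_comp he.1.injective)
    (fun g hg => Function.Injective.of_comp hg.1.injective)
    (fun g hg h hh => ⟨hg.1.comp hh.1, by rw [pull_comp', hg.2, hh.2]⟩)
    (fun c => by
      obtain ⟨f, hf1, hf2, hf3⟩ := P1 c
      exact ⟨f, ⟨hf1, hf2⟩, hf3⟩)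
  have Q3' := Q3 cplt_inj cplt_inj
  let E : V2 → V2 → Prop := fun v w => I2 () ![v, w] ∧ I2 () ![w, v]
  have hEne : ∀ v w, E v w → pr2 v ≠ pr2 w := by
    intro v w h h2
    have h3 := Q3' () ![v, w] h.1
    have h4 : (0 : Fin 2) = 1 := h3 h2
    exact absurd h4 (by decide)
  have hEadj : ∀ v w, E v w → Adj I2 v w := by
    intro v w h
    refine ⟨(), ![v, w], h.1, ?_⟩
    ext z
    constructor
    · rintro ⟨k, rfl⟩
      have : ∀ k : Fin 2, (![v, w] : Fin 2 → V2) k ∈ ({v, w} : Set V2) := by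
        intro k
        fin_cases k
        · exact Or.inl rfl
        · exact Or.inr rfl
      exact this k
    · rintro (rfl | rfl)
      · exact ⟨(0 : Fin 2), rfl⟩
      · exact ⟨(1 : Fin 2), rfl⟩
  -- step 3
  let u0 : Fin (Nat.card V2) ≃ V2 := (Finite.equivFin V2).symm
  let key : Fin (Nat.card V2) → Fin p := fun k => pr1 (pr2 (u0 k))
  let u : Fin (Nat.card V2) ≃ V2 := (Tuple.sort key).trans u0
  have hu : ∀ k l, k ≤ l → pr1 (pr2 (u k)) ≤ pr1 (pr2 (u l)) := fun k l hkl =>
    Tuple.monotone_sort key hkl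
  have claim : ∀ (m : ℕ) (f : Fin m → Fin (Nat.card V2)), StrictMono f →
      Clq (fun k l => E (u k) (u l)) f → K m (pull f (pull (pr2 ∘ u) I1)) := by
    intro m f hf hcl
    -- the common argument
    have main : ∀ (q : ℕ) (D : Str ar (Fin q)) (e : Fin q → V1), K q D → StrictMono (pr1 ∘ e) →
        pull e I1 = D → pr2 '' (Set.range (u ∘ f)) ⊆ Set.range e → K m (pull f (pull (pr2 ∘ u) I1)) := by
      intro q D e hD he heD hsub
      have hw : ∀ i, ∃ w, e w = pr2 (u (f i)) := fun i => hsub ⟨u (f i), ⟨i, rfl⟩, rfl⟩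
      choose w hw using hw
      have hmono : StrictMono w := by
        intro i j hij
        have h1 : (pr1 ∘ e) (w i) ≤ (pr1 ∘ e) (w j) := by
          show pr1 (e (w i)) ≤ pr1 (e (w j))
          rw [hw, hw]
          exact hu _ _ (hf hij).le
        have h2 : w i ≤ w j := he.le_iff_le.mp h1
        refine lt_of_le_of_ne h2 fun h3 => ?_
        refine hEne _ _ (hcl i j hij.ne) ?_
        rw [← hw i, ← hw j, h3]
      have hpull : pull f (pull (pr2 ∘ u) I1) = pull w D := by
        rw [← heD, ← pull_comp', ← pull_comp']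
        have : (pr2 ∘ u) ∘ f = e ∘ w := funext fun i => (hw i).symm
        rw [this]
      rw [hpull]
      exact hK m q w D hmono hD
    rcases Q2 (Set.range (u ∘ f)) (by
      rintro _ ⟨i, rfl⟩ _ ⟨j, rfl⟩ hne
      exact hEadj _ _ (hcl i j fun h => hne (by rw [h]))) with ⟨e, he, hsub⟩ | ⟨g, hg, hsub⟩
    · exact main a A e hA he.1 he.2 hsub
    · exact main b B g hB hg.1 hg.2 hsub
  obtain ⟨C, hCK, hCf⟩ := hC (Nat.card V2) (fun k l => E (u k) (u l)) (pull (pr2 ∘ u) I1)
    (fun x y h => ⟨h.2, h.1⟩) claim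
  -- step 4
  refine ⟨Nat.card V2, C, hCK, fun χ => ?_⟩
  obtain ⟨f2, hf2, hf2B, hf2c⟩ := Q1 (fun e => χ (u.symm ∘ e))
  have huf : ∀ i, u (u.symm (f2 i)) = f2 i := fun i => u.apply_symm_apply _
  have hfm : StrictMono (u.symm ∘ f2) := by
    intro i j hij
    by_contra hcon
    have h1 := hu _ _ (not_lt.mp hcon)
    have h2 : pr1 (pr2 (f2 i)) < pr1 (pr2 (f2 j)) := hf2.1 hij
    simp only [Function.comp_apply, huf] at h1
    exact absurd h2 (not_lt.mpr h1)
  have hcl : Clq (fun k l => E (u k) (u l)) (u.symm ∘ f2) := by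
    have key2 : ∀ i j, i ≠ j → I2 () ![f2 i, f2 j] := by
      intro i j hij
      have h1 : pull f2 I2 () ![i, j] := by
        rw [hf2B]
        exact hij
      have h2 : I2 () (fun k : Fin 2 => f2 ((![i, j] : Fin 2 → Fin b) k)) := h1
      rw [comp_pair] at h2
      exact h2
    intro i j hij
    show E (u (u.symm (f2 i))) (u (u.symm (f2 j)))
    rw [huf, huf]
    exact ⟨key2 i j hij, key2 j i hij.symm⟩
  refine ⟨u.symm ∘ f2, hfm, ?_, ?_⟩
  · rw [hCf b _ hfm hcl, ← pull_comp']
    have : (pr2 ∘ u) ∘ (u.symm ∘ f2) = pr2 ∘ f2 := funext fun i => by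
      show pr2 (u (u.symm (f2 i))) = pr2 (f2 i)
      rw [huf]
    rw [this]
    exact hf2.2
  · intro h h' hh hh' hB1 hB2
    exact hf2c h ⟨hh, hB1⟩ h' ⟨hh', hB2⟩

end Pool.Agent.Helper31.NR
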