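import Pool.Agent.Helper31.NR.Defs

/-!
# Block NR-RAM: the finite Ramsey theorem for increasing maps

PROOF.  Induction on `a` for all `b`, `κ` (standard).  One way: prove first, by induction on `a`, the statement for all `b, κ`:
`∃ p`, for every colouring `c` of the increasing maps `Fin a → Fin p` there is an increasing `g : Fin b → Fin p` such that
`c (g ∘ h)` is constant (this is the statement).  `a = 0`: `p = b`, `g = id` (all maps from `Fin 0` are equal).
Step `a → a + 1`: it is convenient to work with finsets of natural numbers: for every infinite/large finite set `W ⊆ ℕ` pick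
`w_0 < w_1 < ...` one after the other (`w_0 = min W`, then apply the induction hypothesis to the colouring
`u ↦ c ({w_0} ∪ u)` of the `a`-subsets of the rest and pass to a homogeneous subset which is still large), so that
the colour of an `(a + 1)`-subset of the picked elements depends only on its minimum; then pigeonhole.  An alternative is to deduce the finite
statement from the infinite Ramsey theorem and compactness, or to use any Ramsey theorem already in the repository
(for example `Pool/Agent/Helper14/FV/PR.lean`, `ramsey`, a product Ramsey theorem for `k`-subsets, if it fits).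
-/

set_option autoImplicit false

namespace Pool.Agent.Helper31.NR

/-- The Ramsey statement for the `a`-subsets of large finite sets of natural numbers. -/
private def PS67 (a : ℕ) (κ : Type) : Prop :=
  ∀ b : ℕ, ∃ p : ℕ, ∀ W : Finset ℕ, p ≤ W.card → ∀ c : Finset ℕ → κ,
    ∃ Y ⊆ W, b ≤ Y.card ∧ ∃ k, ∀ s ⊆ Y, s.card = a → c s = k

/-- A large set on which the colour of an `(a + 1)`-subset depends only on its minimum. -/
private theorem min67 {a : ℕ} {κ : Type} (h : PS67 a κ) [Nonempty κ] (m : ℕ) :
    ∃ p : ℕ, ∀ W : Finset ℕ, p ≤ W.card → ∀ c : Finset ℕ → κ,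
      ∃ V ⊆ W, m ≤ V.card ∧ ∃ d : ℕ → κ, ∀ s ⊆ V, s.card = a + 1 → ∀ x ∈ s, (∀ y ∈ s, x ≤ y) → c s = d x := by
  classical
  induction m with
  | zero =>
    refine ⟨0, fun W _ c => ⟨∅, Finset.empty_subset _, Nat.zero_le _, fun _ => Classical.arbitrary κ, ?_⟩⟩
    intro s hs _ x hx
    exact absurd (hs hx) (Finset.notMem_empty x)
  | succ m ih =>
    obtain ⟨p, hp⟩ := ih
    obtain ⟨q, hq⟩ := h p
    refine ⟨q + 1, fun W hW c => ?_⟩
    have hne : W.Nonempty := Finset.card_pos.1 (by omega)
    set w := W.min' hne with hw
    have hwW : w ∈ W := W.min'_mem hne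
    have hcard : q ≤ (W.erase w).card := by
      rw [Finset.card_erase_of_mem hwW]
      omega
    obtain ⟨Y, hYW, hYc, k, hk⟩ := hq (W.erase w) hcard (fun u => c (insert w u))
    obtain ⟨V, hVY, hVc, d, hd⟩ := hp Y hYc c
    have hVW : V ⊆ W.erase w := hVY.trans hYW
    have hwV : w ∉ V := fun hh => Finset.notMem_erase w W (hVW hh)
    refine ⟨insert w V, ?_, ?_, Function.update d w k, ?_⟩
    · intro x hx
      rcases Finset.mem_insert.1 hx with rfl | hx
      · exact hwW
      · exact Finset.mem_of_mem_erase (hVW hx)
    · rw [Finset.card_insert_of_notMem hwV]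
      omega
    · intro s hs hsc x hx hmin
      by_cases hws : w ∈ s
      · have hxw : x = w := by
          refine le_antisymm (hmin w hws) ?_
          rcases Finset.mem_insert.1 (hs hx) with h1 | h1
          · exact h1.symm.le
          · exact W.min'_le x (Finset.mem_of_mem_erase (hVW h1))
        rw [hxw, Function.update_self]
        have h1 := hk (s.erase w) (fun y hy => ?_) (by rw [Finset.card_erase_of_mem hws, hsc]; rfl)
        · rwa [Finset.insert_erase hws] at h1
        · have h2 := hs (Finset.mem_of_mem_erase hy)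
          rcases Finset.mem_insert.1 h2 with h3 | h3
          · exact absurd h3 (Finset.ne_of_mem_erase hy)
          · exact hVY h3
      · have hsV : s ⊆ V := by
          intro y hy
          rcases Finset.mem_insert.1 (hs hy) with h1 | h1
          · exact absurd (h1 ▸ hy) hws
          · exact h1
        have hxw : x ≠ w := fun h1 => hws (h1 ▸ hx)
        rw [Function.update_of_ne hxw]
        exact hd s hsV hsc x hx hmin

private theorem PS_all67 (κ : Type) [Finite κ] [Nonempty κ] (a : ℕ) : PS67 a κ := by
  classical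
  induction a with
  | zero =>
    intro b
    refine ⟨b, fun W hW c => ⟨W, Finset.Subset.refl _, hW, c ∅, ?_⟩⟩
    intro s _ hs
    rw [Finset.card_eq_zero.1 hs]
  | succ a ih =>
    intro b
    have : Fintype κ := Fintype.ofFinite κ
    obtain ⟨p, hp⟩ := min67 ih (Fintype.card κ * b)
    refine ⟨p, fun W hW c => ?_⟩
    obtain ⟨V, hVW, hVc, d, hd⟩ := hp W hW c
    obtain ⟨k, -, hk⟩ := Finset.exists_le_card_fiber_of_mul_le_card_of_maps_to
      (s := V) (t := (Finset.univ : Finset κ)) (f := d) (n := b) (fun _ _ => Finset.mem_univ _)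
      Finset.univ_nonempty (by rw [Finset.card_univ]; exact hVc)
    refine ⟨V.filter fun x => d x = k, (Finset.filter_subset _ _).trans hVW, hk, k, ?_⟩
    intro s hs hsc
    have hne : s.Nonempty := Finset.card_pos.1 (by omega)
    rw [hd s (hs.trans (Finset.filter_subset _ _)) hsc (s.min' hne) (s.min'_mem hne) (fun y hy => s.min'_le y hy)]
    exact (Finset.mem_filter.1 (hs (s.min'_mem hne))).2

theorem ramsey_sets (a b : ℕ) (κ : Type) [Finite κ] [Nonempty κ] :
    ∃ p : ℕ, ∀ c : (Fin a → Fin p) → κ, ∃ g : Fin b → Fin p, StrictMono g ∧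
      ∀ h h' : Fin a → Fin b, StrictMono h → StrictMono h' → c (g ∘ h) = c (g ∘ h') := by
  classical
  obtain ⟨p, hp⟩ := PS_all67 κ a b
  refine ⟨p, fun c => ?_⟩
  let c' : Finset ℕ → κ := fun s =>
    if hs : s.card = a ∧ ∀ x ∈ s, x < p then
      c (fun i => ⟨s.orderEmbOfFin hs.1 i, hs.2 _ (Finset.orderEmbOfFin_mem s hs.1 i)⟩)
    else Classical.arbitrary κ
  obtain ⟨Y, hYW, hYc, k, hk⟩ := hp (Finset.range p) (by rw [Finset.card_range]) c'
  obtain ⟨Z, hZY, hZc⟩ := Finset.exists_subset_card_eq hYc
  have hZp : ∀ i, Z.orderEmbOfFin hZc i < p := fun i =>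
    Finset.mem_range.1 (hYW (hZY (Finset.orderEmbOfFin_mem Z hZc i)))
  refine ⟨fun i => ⟨Z.orderEmbOfFin hZc i, hZp i⟩, fun i j hij => ?_, ?_⟩
  · exact (Z.orderEmbOfFin hZc).strictMono hij
  · have key : ∀ h : Fin a → Fin b, StrictMono h →
        c ((fun i => (⟨Z.orderEmbOfFin hZc i, hZp i⟩ : Fin p)) ∘ h) = k := by
      intro h hh
      let e : Fin a → ℕ := fun i => Z.orderEmbOfFin hZc (h i)
      have he : StrictMono e := (Z.orderEmbOfFin hZc).strictMono.comp hh
      let s : Finset ℕ := Finset.univ.image e
      have hs1 : s.card = a := by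
        rw [Finset.card_image_of_injective _ he.injective, Finset.card_univ, Fintype.card_fin]
      have hs2 : s ⊆ Y := by
        intro x hx
        obtain ⟨i, -, rfl⟩ := Finset.mem_image.1 hx
        exact hZY (Finset.orderEmbOfFin_mem Z hZc (h i))
      have hs3 : ∀ x ∈ s, x < p := fun x hx => Finset.mem_range.1 (hYW (hs2 hx))
      have h1 : c' s = k := hk s hs2 hs1
      have h2 : e = s.orderEmbOfFin hs1 :=
        Finset.orderEmbOfFin_unique hs1 (fun i => Finset.mem_image_of_mem e (Finset.mem_univ i)) he
      rw [← h1]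
      change _ = dite _ _ _
      rw [dif_pos ⟨hs1, hs3⟩]
      congr 1
      funext i
      apply Fin.ext
      exact congrFun h2 i
    intro h h' hh hh'
    rw [key h hh, key h' hh']

end Pool.Agent.Helper31.NR
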