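import Pool.Agent.Helper31.NR.Defs

/-!
# Block NR-BDD: finitely bounded classes

PROOF.  If `F` is a finite set of bounds, let `N` be the maximum of the sizes `p.1`, `p ∈ F`: if a bound `p ∈ F` embeds into `I` by `f`,
then `p.2 = pull f I` is a substructure of size `≤ N` which is not in `K` (`p.2` embeds into itself by the identity).  Conversely let
`F = {p | p.1 ≤ N ∧ ¬ K p.1 p.2}`, a finite set because `S` and the sets `Fin n` are finite; if `K n I` then no `p ∈ F` embeds into `I` by `Hereditary`;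
if no `p ∈ F` embeds into `I` then all substructures of size `≤ N` are in `K`, so `K n I`.
-/

set_option autoImplicit false

namespace Pool.Agent.Helper31.NR

theorem finBounded_iff {S : Type} {ar : S → ℕ} [Finite S] (K : Cls ar) (hK : Hereditary K) :
    FinBounded K ↔ ∃ N : ℕ, ∀ (n : ℕ) (I : Str ar (Fin n)),
      (∀ m ≤ N, ∀ f : Fin m → Fin n, Function.Injective f → K m (pull f I)) → K n I := by
  constructor
  · rintro ⟨F, hF, h⟩
    refine ⟨hF.toFinset.sup (fun p => p.1), fun n I hI => (h n I).mpr fun p hp hE => ?_⟩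
    obtain ⟨f, hf, hfp⟩ := hE
    have h1 : K p.1 p.2 := by
      rw [← hfp]
      exact hI p.1 (Finset.le_sup (f := fun p : (Σ n : ℕ, Str ar (Fin n)) => p.1)
        (hF.mem_toFinset.mpr hp)) f hf
    exact (h p.1 p.2).mp h1 p hp ⟨id, Function.injective_id, rfl⟩
  · rintro ⟨N, hN⟩
    refine ⟨{p | p.1 ≤ N ∧ ¬ K p.1 p.2}, ?_, fun n I => ⟨fun hI p hp hE => ?_, fun hI => ?_⟩⟩
    · refine (Set.finite_range (fun q : (Σ m : Fin (N + 1), Str ar (Fin (m : ℕ))) =>
        (⟨(q.1 : ℕ), q.2⟩ : Σ n : ℕ, Str ar (Fin n)))).subset ?_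
      rintro ⟨m, J⟩ ⟨hm, -⟩
      exact ⟨⟨⟨m, Nat.lt_succ_of_le hm⟩, J⟩, rfl⟩
    · obtain ⟨f, hf, hfp⟩ := hE
      apply hp.2
      rw [← hfp]
      exact hK p.1 n f I hf hI
    · refine hN n I fun m hm f hf => ?_
      by_contra hc
      exact hI ⟨m, pull f I⟩ ⟨hm, hc⟩ ⟨f, hf, rfl⟩

end Pool.Agent.Helper31.NR
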