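import Pool.Agent.Helper31.NR.Defs

/-!
# Block NR-ORDC: elementary facts on `ordC`

PROOF.
`her_ordC`: let `f : Fin m → Fin n` be injective and `e` the increasing enumeration for `I`.  Let
`e' : Fin m ≃ Fin m` be such that `e.symm ∘ f ∘ e'` is strictly monotone (sort the `m` different values `e.symm (f i)`, e.g. with
`Tuple.sort`, or with `Finset.orderIsoOfFin` of the range).  Then `lt' (pull f I) (e' x) (e' y) ↔ lt' I (f (e' x)) (f (e' y)) ↔ x < y`, and
`pull e' (red (pull f I)) = pull (e.symm ∘ f ∘ e') (pull e (red I))` is in `K` by `OHered`.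
`ordC_nat`: the only bijection `e` of `Fin n` with `e x < e y ↔ x < y` is the identity.
`exists_enum`: a strict linear order on `Fin n` has an increasing enumeration (e.g. `Finset.orderIsoOfFin` or `monoEquivOfFin`
for the linear order with `x ≤ y ↔ x = y ∨ r x y`).
-/

set_option autoImplicit false

namespace Pool.Agent.Helper31.NR

variable {S : Type} {ar : S → ℕ}

theorem exists_enum {n : ℕ} (r : Fin n → Fin n → Prop) (h1 : ∀ x, ¬ r x x) (h2 : ∀ x y, x ≠ y → r x y ∨ r y x)
    (h3 : ∀ x y z, r x y → r y z → r x z) : ∃ e : Fin n ≃ Fin n, ∀ x y, r (e x) (e y) ↔ x < y := by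
  classical
  have hlt : ∀ x, (Finset.univ.filter fun y => r y x).card < n := by
    intro x
    have h : (Finset.univ.filter fun y => r y x) ⊂ Finset.univ := by
      rw [Finset.ssubset_univ_iff]
      intro h
      have hx : x ∈ Finset.univ.filter fun y => r y x := by
        rw [h]
        exact Finset.mem_univ x
      exact h1 x (Finset.mem_filter.1 hx).2
    have := Finset.card_lt_card h
    rwa [Finset.card_univ, Fintype.card_fin] at this
  let rk : Fin n → Fin n := fun x => ⟨(Finset.univ.filter fun y => r y x).card, hlt x⟩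
  have hrk : ∀ x y, r x y → rk x < rk y := by
    intro x y hxy
    change (Finset.univ.filter fun z => r z x).card < (Finset.univ.filter fun z => r z y).card
    apply Finset.card_lt_card
    rw [Finset.ssubset_iff_of_subset]
    · refine ⟨x, ?_, ?_⟩
      · simpa using hxy
      · simpa using h1 x
    · intro z hz
      rw [Finset.mem_filter] at hz ⊢
      exact ⟨hz.1, h3 z x y hz.2 hxy⟩
  have hrk' : ∀ x y, r x y ↔ rk x < rk y := by
    intro x y
    refine ⟨hrk x y, fun hlt' => ?_⟩
    rcases h2 x y (fun h => absurd (h ▸ hlt') (lt_irrefl _)) with h | h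
    · exact h
    · exact absurd (hrk y x h) (not_lt_of_gt hlt')
  have hinj : Function.Injective rk := by
    intro x y hxy
    by_contra hne
    rcases h2 x y hne with h | h
    · exact absurd (hrk x y h) (by rw [hxy]; exact lt_irrefl _)
    · exact absurd (hrk y x h) (by rw [hxy]; exact lt_irrefl _)
  let e := Equiv.ofBijective rk (Finite.injective_iff_bijective.1 hinj)
  have he : ∀ x, rk (e.symm x) = x := fun x => e.apply_symm_apply x
  exact ⟨e.symm, fun x y => by rw [hrk', he, he]⟩

theorem ordC_nat (K : Cls ar) {n : ℕ} (I : Str (arO ar) (Fin n)) (h : ∀ x y, lt' I x y ↔ x < y) :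
    ordC K n I ↔ K n (red I) := by
  constructor
  · rintro ⟨e, he, hK⟩
    have hm : StrictMono e := fun x y hxy => (h _ _).1 ((he x y).2 hxy)
    have hm' : StrictMono e.symm := by
      intro x y hxy
      rw [← he, Equiv.apply_symm_apply, Equiv.apply_symm_apply, h]
      exact hxy
    have hid : ∀ x, e x = x := by
      intro x
      apply le_antisymm
      · have h1 : e x ≤ e.symm (e x) := hm'.le_apply
        rwa [Equiv.symm_apply_apply] at h1
      · exact hm.le_apply
    have h2 : pull e (red I) = red I := by
      funext s t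
      change red I s (fun i => e (t i)) = red I s t
      congr 1
      funext i
      exact hid _
    rwa [h2] at hK
  · intro hK
    exact ⟨Equiv.refl _, fun x y => h x y, hK⟩

private lemma lt'_pull31 {V W : Type} (f : W → V) (I : Str (arO ar) V) (x y : W) :
    lt' (pull f I) x y ↔ lt' I (f x) (f y) := by
  have h : (fun i => f ((![x, y] : Fin 2 → W) i)) = (![f x, f y] : Fin 2 → V) := by
    funext i
    fin_cases i <;> rfl
  exact iff_of_eq (congrArg (fun t : Fin 2 → V => I (Sum.inr ()) t) h)

theorem her_ordC (K : Cls ar) (hK : OHered K) : Hereditary (ordC K) := by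
  rintro m n f I hf ⟨e, he, hKn⟩
  have hlt : ∀ a b, lt' I a b ↔ e.symm a < e.symm b := by
    intro a b
    have := he (e.symm a) (e.symm b)
    rwa [Equiv.apply_symm_apply, Equiv.apply_symm_apply] at this
  obtain ⟨e', he'⟩ := exists_enum (fun x y => lt' I (f x) (f y))
    (fun x hx => lt_irrefl _ ((hlt _ _).1 hx))
    (fun x y hxy => by
      rw [hlt, hlt]
      have : e.symm (f x) ≠ e.symm (f y) := fun h => hxy (hf (e.symm.injective h))
      exact lt_or_gt_of_ne this)
    (fun x y z h1 h2 => by
      rw [hlt] at h1 h2 ⊢
      exact h1.trans h2)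
  refine ⟨e', fun x y => ?_, ?_⟩
  · rw [lt'_pull31]
    exact he' x y
  · have hg : StrictMono fun x => e.symm (f (e' x)) := by
      intro x y hxy
      exact (hlt _ _).1 ((he' x y).2 hxy)
    have h1 := hK m n _ _ hg hKn
    have h2 : pull (fun x => e.symm (f (e' x))) (pull e (red I)) = pull e' (red (pull f I)) := by
      funext s t
      change I (Sum.inl s) (fun i => e (e.symm (f (e' (t i))))) = I (Sum.inl s) (fun i => f (e' (t i)))
      simp only [Equiv.apply_symm_apply]
    rwa [h2] at h1

end Pool.Agent.Helper31.NR
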