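import Pool.Agent.Helper31.NR.Bdd
import Pool.Agent.Helper31.NR.OrdC

/-!
# Block NR-BDDO: `ordC K` is finitely bounded

PROOF.  Use `finBounded_iff` for `ordC K` (`her_ordC`) and the number `max N 3`.  Let `I` be a structure on `Fin n` all of whose substructures of size
`≤ max N 3` are in `ordC K`.  The substructures of size `1, 2, 3` show that `lt' I` is irreflexive, connected, and transitive (on three points it is a
linear order), so there is a bijection `e` with `lt' I (e x) (e y) ↔ x < y` (`exists_enum`).  For `m ≤ N` and a strictly monotone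
`f : Fin m → Fin n` the structure `pull (e ∘ f) I` is in `ordC K`, its order is the natural one, so `red (pull (e ∘ f) I) = pull f (pull e (red I))` is in `K` by `ordC_nat`; hence
`pull e (red I) ∈ K`.
-/

set_option autoImplicit false

namespace Pool.Agent.Helper31.NR

private theorem lt_pull24 {S : Type} {ar : S → ℕ} {V W : Type} (f : W → V) (I : Str (arO ar) V)
    (a b : W) : lt' (pull f I) a b ↔ lt' I (f a) (f b) := by
  have h : (fun i : Fin 2 => f ((![a, b] : Fin 2 → W) i)) = ![f a, f b] := by
    funext i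
    fin_cases i <;> rfl
  exact iff_of_eq (congrArg (I (Sum.inr ())) h)

private theorem lin24 {S : Type} {ar : S → ℕ} {K : Cls ar} {m : ℕ} {J : Str (arO ar) (Fin m)}
    (h : ordC K m J) : (∀ a, ¬ lt' J a a) ∧ (∀ a b, a ≠ b → lt' J a b ∨ lt' J b a) ∧
      ∀ a b c, lt' J a b → lt' J b c → lt' J a c := by
  obtain ⟨e, he, -⟩ := h
  have he' : ∀ a b, lt' J a b ↔ e.symm a < e.symm b := by
    intro a b
    rw [← he, e.apply_symm_apply, e.apply_symm_apply]
  refine ⟨fun a h => lt_irrefl _ ((he' a a).1 h), fun a b hab => ?_, fun a b c h1 h2 => ?_⟩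
  · rw [he', he']
    exact lt_or_gt_of_ne fun h => hab (e.symm.injective h)
  · rw [he'] at h1 h2 ⊢
    exact h1.trans h2

theorem finBounded_ordC {S : Type} {ar : S → ℕ} [Finite S] (K : Cls ar) (hK : OHered K)
    (hN : ∃ N : ℕ, ∀ (n : ℕ) (I : Str ar (Fin n)),
      (∀ m ≤ N, ∀ f : Fin m → Fin n, StrictMono f → K m (pull f I)) → K n I) : FinBounded (ordC K) := by
  rw [finBounded_iff (ordC K) (her_ordC K hK)]
  obtain ⟨N, hN⟩ := hN
  refine ⟨max N 3, fun n I h => ?_⟩
  have hirr : ∀ x, ¬ lt' I x x := by
    intro x hx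
    have h1 := lin24 (h 1 (le_max_of_le_right (by norm_num)) (fun _ => x)
      (Function.injective_of_subsingleton _))
    exact h1.1 0 ((lt_pull24 _ _ _ _).2 hx)
  have htwo : ∀ x y, x ≠ y → (lt' I x y ∨ lt' I y x) ∧ ¬ (lt' I x y ∧ lt' I y x) := by
    intro x y hxy
    have hinj : Function.Injective (![x, y] : Fin 2 → Fin n) := by
      intro i j hij
      fin_cases i <;> fin_cases j
      · rfl
      · exact absurd hij hxy
      · exact absurd hij.symm hxy
      · rfl
    have h1 := lin24 (h 2 (le_max_of_le_right (by norm_num)) ![x, y] hinj)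
    constructor
    · rcases h1.2.1 0 1 (by decide) with h2 | h2
      · exact Or.inl ((lt_pull24 _ _ _ _).1 h2)
      · exact Or.inr ((lt_pull24 _ _ _ _).1 h2)
    · rintro ⟨h2, h3⟩
      exact h1.1 0 (h1.2.2 0 1 0 ((lt_pull24 _ _ _ _).2 h2) ((lt_pull24 _ _ _ _).2 h3))
  have htr : ∀ x y z, lt' I x y → lt' I y z → lt' I x z := by
    intro x y z hxy hyz
    by_cases e1 : x = y
    · rw [e1]
      exact hyz
    by_cases e2 : y = z
    · rw [← e2]
      exact hxy
    by_cases e3 : x = z
    · rw [← e3] at hyz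
      exact absurd ⟨hxy, hyz⟩ (htwo x y e1).2
    have hinj : Function.Injective (![x, y, z] : Fin 3 → Fin n) := by
      intro i j hij
      fin_cases i <;> fin_cases j
      · rfl
      · exact absurd hij e1
      · exact absurd hij e3
      · exact absurd hij.symm e1
      · rfl
      · exact absurd hij e2
      · exact absurd hij.symm e3
      · exact absurd hij.symm e2
      · rfl
    have h1 := lin24 (h 3 (le_max_right _ _) ![x, y, z] hinj)
    exact (lt_pull24 _ _ _ _).1 (h1.2.2 0 1 2 ((lt_pull24 _ _ _ _).2 hxy)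
      ((lt_pull24 _ _ _ _).2 hyz))
  obtain ⟨e, he⟩ := exists_enum (lt' I) hirr (fun x y hxy => (htwo x y hxy).1) htr
  refine ⟨e, he, hN n _ fun m hm f hf => ?_⟩
  have h1 := h m (le_max_of_le_left hm) (fun i => e (f i)) (e.injective.comp hf.injective)
  rw [ordC_nat] at h1
  · exact h1
  · intro x y
    rw [lt_pull24, he, hf.lt_iff_lt]

end Pool.Agent.Helper31.NR
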