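import Pool.Agent.Helper31.NR.Defs

/-!
# Block NR-LIM: Fraisse limits

PROOF.
`IsLimit.ext`: embed `J` into `M` by `j` (`age`).  `j ∘ castSucc` and `f` induce the same structure on `Fin n`, so there is an automorphism `σ` with
`σ (j (castSucc i)) = f i`; `x = σ (j (last n))`.
`isLimit_of_ext`: `age`: for `J ∈ K` on `Fin n` choose the images of `0, 1, ..., n - 1` one after the other by the extension property
(the structures on `Fin 0` are all equal, because the arities are positive; `K` is hereditary).  `hom`: back and forth with finite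
sets of pairs (`PI`), by `Order.idealOfCofinals`.
-/

set_option autoImplicit false

namespace Pool.Agent.Helper31.NR

variable {S : Type} {ar : S → ℕ}

private theorem snoc_inj {M : Type} {n : ℕ} {f : Fin n → M} (hf : Function.Injective f) {x : M}
    (hx : x ∉ Set.range f) : Function.Injective (Fin.snoc f x : Fin (n + 1) → M) := by
  intro a b
  refine Fin.lastCases ?_ (fun i => ?_) a
  · refine Fin.lastCases ?_ (fun j => ?_) b
    · intro _; rfl
    · intro h
      rw [Fin.snoc_last, Fin.snoc_castSucc] at h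
      exact (hx ⟨j, h.symm⟩).elim
  · refine Fin.lastCases ?_ (fun j => ?_) b
    · intro h
      rw [Fin.snoc_last, Fin.snoc_castSucc] at h
      exact (hx ⟨i, h⟩).elim
    · intro h
      rw [Fin.snoc_castSucc, Fin.snoc_castSucc] at h
      rw [hf h]

theorem IsLimit.ext {K : Cls ar} {M : Type} {I : Str ar M} (h : IsLimit K M I) {n : ℕ} (f : Fin n → M)
    (hf : Function.Injective f) (J : Str ar (Fin (n + 1))) (hJ : K (n + 1) J)
    (hfJ : pull Fin.castSucc J = pull f I) :
    ∃ x : M, x ∉ Set.range f ∧ pull (Fin.snoc f x : Fin (n + 1) → M) I = J := by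
  obtain ⟨j, hj, hjJ⟩ := (h.age (n + 1) J).1 hJ
  have h1 : pull (fun i : Fin n => j (Fin.castSucc i)) I = pull f I := by
    rw [← hfJ, ← hjJ]
    rfl
  obtain ⟨σ, hσ, hσf⟩ := h.hom n (fun i => j (Fin.castSucc i)) f
    (fun a b hab => Fin.castSucc_injective n (hj hab)) hf h1
  refine ⟨σ (j (Fin.last n)), ?_, ?_⟩
  · rintro ⟨i, hi⟩
    rw [← hσf i] at hi
    exact (Fin.castSucc_lt_last i).ne (hj (σ.injective hi))
  · have h2 : (Fin.snoc f (σ (j (Fin.last n))) : Fin (n + 1) → M) = fun i => σ (j i) := by
      funext i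
      refine Fin.lastCases ?_ (fun i => ?_) i
      · rw [Fin.snoc_last]
      · rw [Fin.snoc_castSucc, hσf i]
    rw [h2]
    rw [← hjJ]
    have h3 : pull (fun i => σ (j i)) I = pull j (pull (⇑σ) I) := rfl
    rw [h3, hσ]

/-- A set of pairs which is a partial isomorphism. -/
private def PI {M : Type} (I : Str ar M) (R : Set (M × M)) : Prop :=
  (∀ a ∈ R, ∀ b ∈ R, (a.1 = b.1 ↔ a.2 = b.2)) ∧
  ∀ (s : S) (t : Fin (ar s) → M × M), (∀ i, t i ∈ R) → (I s (fun i => (t i).1) ↔ I s (fun i => (t i).2))

private theorem PI_swap {M : Type} {I : Str ar M} {R : Set (M × M)} (h : PI I R) : PI I (Prod.swap ⁻¹' R) := by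
  refine ⟨fun a ha b hb => (h.1 _ ha _ hb).symm, fun s t ht => ?_⟩
  exact (h.2 s (fun i => (t i).swap) ht).symm

private theorem extend_fst {K : Cls ar} {M : Type} {I : Str ar M}
    (hage : ∀ (n : ℕ) (f : Fin n → M), Function.Injective f → K n (pull f I))
    (hext : ∀ (n : ℕ) (f : Fin n → M) (J : Str ar (Fin (n + 1))), Function.Injective f → K (n + 1) J →
      pull Fin.castSucc J = pull f I → ∃ x : M, x ∉ Set.range f ∧ pull (Fin.snoc f x : Fin (n + 1) → M) I = J)
    (R : Finset (M × M)) (hR : PI I (↑R : Set (M × M))) (m : M) :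
    ∃ R' : Finset (M × M), R ⊆ R' ∧ PI I (↑R' : Set (M × M)) ∧ ∃ b, (m, b) ∈ R' := by
  classical
  by_cases h : ∃ b, (m, b) ∈ R
  · exact ⟨R, Finset.Subset.refl _, hR, h⟩
  · let e : Fin R.card ≃ R := R.equivFin.symm
    let f : Fin R.card → M := fun i => (e i).1.1
    let g : Fin R.card → M := fun i => (e i).1.2
    have hf : Function.Injective f := by
      intro a b hab
      have h1 := (hR.1 _ (e a).2 _ (e b).2).1 hab
      apply e.injective
      exact Subtype.ext (Prod.ext hab h1)
    have hg : Function.Injective g := by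
      intro a b hab
      have h1 := (hR.1 _ (e a).2 _ (e b).2).2 hab
      apply e.injective
      exact Subtype.ext (Prod.ext h1 hab)
    have hm : m ∉ Set.range f := by
      rintro ⟨i, hi⟩
      apply h
      refine ⟨(e i).1.2, ?_⟩
      have := (e i).2
      rw [← hi]
      exact this
    have hfg : pull f I = pull g I := by
      funext s t
      exact propext (hR.2 s (fun i => (e (t i)).1) (fun i => (e (t i)).2))
    obtain ⟨x, hx, hxJ⟩ := hext R.card g (pull (Fin.snoc f m : Fin (R.card + 1) → M) I) hg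
      (hage _ _ (snoc_inj hf hm)) (by
        rw [← hfg]
        have h2 : (fun i : Fin R.card => (Fin.snoc f m : Fin (R.card + 1) → M) (Fin.castSucc i)) = f := by
          funext i
          rw [Fin.snoc_castSucc]
        calc pull Fin.castSucc (pull (Fin.snoc f m : Fin (R.card + 1) → M) I)
            = pull (fun i : Fin R.card => (Fin.snoc f m : Fin (R.card + 1) → M) (Fin.castSucc i)) I := rfl
          _ = pull f I := by rw [h2])
    refine ⟨insert (m, x) R, Finset.subset_insert _ _, ?_, x, Finset.mem_insert_self _ _⟩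
    have key : ∀ a ∈ insert (m, x) R, ∃ u : Fin (R.card + 1), (Fin.snoc f m : Fin (R.card + 1) → M) u = a.1 ∧
        (Fin.snoc g x : Fin (R.card + 1) → M) u = a.2 := by
      intro a ha
      rw [Finset.mem_insert] at ha
      rcases ha with ha | ha
      · refine ⟨Fin.last _, ?_, ?_⟩
        · rw [Fin.snoc_last, ha]
        · rw [Fin.snoc_last, ha]
      · refine ⟨Fin.castSucc (e.symm ⟨a, ha⟩), ?_, ?_⟩
        · rw [Fin.snoc_castSucc]
          show (e (e.symm ⟨a, ha⟩)).1.1 = a.1
          rw [Equiv.apply_symm_apply]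
        · rw [Fin.snoc_castSucc]
          show (e (e.symm ⟨a, ha⟩)).1.2 = a.2
          rw [Equiv.apply_symm_apply]
    constructor
    · intro a ha b hb
      obtain ⟨u, hu1, hu2⟩ := key a (by exact_mod_cast ha)
      obtain ⟨v, hv1, hv2⟩ := key b (by exact_mod_cast hb)
      rw [← hu1, ← hu2, ← hv1, ← hv2, (snoc_inj hf hm).eq_iff, (snoc_inj hg hx).eq_iff]
    · intro s t ht
      choose u hu1 hu2 using fun i => key (t i) (by exact_mod_cast ht i)
      have h1 : (fun i => (t i).1) = fun i => (Fin.snoc f m : Fin (R.card + 1) → M) (u i) := by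
        funext i; rw [hu1]
      have h2 : (fun i => (t i).2) = fun i => (Fin.snoc g x : Fin (R.card + 1) → M) (u i) := by
        funext i; rw [hu2]
      rw [h1, h2]
      have h3 := congrFun (congrFun hxJ s) u
      exact (iff_of_eq h3).symm

theorem isLimit_of_ext (har : ∀ s, 0 < ar s) (K : Cls ar) (hK : Hereditary K) (M : Type) [Countable M]
    (I : Str ar M) (hage : ∀ (n : ℕ) (f : Fin n → M), Function.Injective f → K n (pull f I))
    (hext : ∀ (n : ℕ) (f : Fin n → M) (J : Str ar (Fin (n + 1))), Function.Injective f → K (n + 1) J →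
      pull Fin.castSucc J = pull f I → ∃ x : M, x ∉ Set.range f ∧ pull (Fin.snoc f x : Fin (n + 1) → M) I = J) :
    IsLimit K M I := by
  classical
  refine ⟨inferInstance, ?_, ?_⟩
  · intro n J
    constructor
    · revert J
      induction n with
      | zero =>
        intro J _
        refine ⟨Fin.elim0, fun a => a.elim0, ?_⟩
        funext s t
        exact (t ⟨0, har s⟩).elim0
      | succ n ih =>
        intro J hJ
        obtain ⟨f, hf, hfJ⟩ := ih (pull Fin.castSucc J) (hK n (n + 1) _ J (Fin.castSucc_injective n) hJ)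
        obtain ⟨x, hx, hxJ⟩ := hext n f J hf hJ hfJ.symm
        exact ⟨_, snoc_inj hf hx, hxJ⟩
    · rintro ⟨f, hf, rfl⟩
      exact hage n f hf
  · intro n f g hf hg hfg
    let P := {R : Finset (M × M) // PI I (↑R : Set (M × M))}
    have hp0 : PI I (↑(Finset.univ.image (fun i => (f i, g i))) : Set (M × M)) := by
      have key : ∀ a ∈ (↑(Finset.univ.image (fun i => (f i, g i))) : Set (M × M)), ∃ u : Fin n, f u = a.1 ∧ g u = a.2 := by
        intro a ha
        rw [Finset.mem_coe, Finset.mem_image] at ha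
        obtain ⟨u, _, hu⟩ := ha
        exact ⟨u, by rw [← hu], by rw [← hu]⟩
      constructor
      · intro a ha b hb
        obtain ⟨u, hu1, hu2⟩ := key a ha
        obtain ⟨v, hv1, hv2⟩ := key b hb
        rw [← hu1, ← hu2, ← hv1, ← hv2, hf.eq_iff, hg.eq_iff]
      · intro s t ht
        choose u hu1 hu2 using fun i => key (t i) (ht i)
        have h1 : (fun i => (t i).1) = fun i => f (u i) := by funext i; rw [hu1]
        have h2 : (fun i => (t i).2) = fun i => g (u i) := by funext i; rw [hu2]
        rw [h1, h2]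
        exact iff_of_eq (congrFun (congrFun hfg s) u)
    let p0 : P := ⟨Finset.univ.image (fun i => (f i, g i)), hp0⟩
    haveI : Encodable M := Encodable.ofCountable M
    let D : M ⊕ M → Order.Cofinal P := fun z => match z with
      | Sum.inl m => ⟨{R : P | ∃ b, (m, b) ∈ R.1}, fun R => by
          obtain ⟨R', h1, h2, h3⟩ := extend_fst hage hext R.1 R.2 m
          exact ⟨⟨R', h2⟩, h3, h1⟩⟩
      | Sum.inr m => ⟨{R : P | ∃ a, (a, m) ∈ R.1}, fun R => by
          have hs : PI I (↑(R.1.image Prod.swap) : Set (M × M)) := by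
            have h0 := PI_swap R.2
            have h1 : (↑(R.1.image Prod.swap) : Set (M × M)) = Prod.swap ⁻¹' (↑R.1 : Set (M × M)) := by
              rw [Finset.coe_image, Set.image_swap_eq_preimage_swap]
            rw [h1]
            exact h0
          obtain ⟨R', h1, h2, b, h3⟩ := extend_fst hage hext (R.1.image Prod.swap) hs m
          have hs' : PI I (↑(R'.image Prod.swap) : Set (M × M)) := by
            have h0 := PI_swap h2
            have h1 : (↑(R'.image Prod.swap) : Set (M × M)) = Prod.swap ⁻¹' (↑R' : Set (M × M)) := by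
              rw [Finset.coe_image, Set.image_swap_eq_preimage_swap]
            rw [h1]
            exact h0
          refine ⟨⟨R'.image Prod.swap, hs'⟩, ⟨b, ?_⟩, ?_⟩
          · exact Finset.mem_image.2 ⟨(m, b), h3, rfl⟩
          · show R.1 ⊆ R'.image Prod.swap
            intro a ha
            refine Finset.mem_image.2 ⟨a.swap, h1 (Finset.mem_image.2 ⟨a, ha, rfl⟩), ?_⟩
            exact Prod.swap_swap a⟩
    let J := Order.idealOfCofinals p0 D
    have hp0J : p0 ∈ J := Order.mem_idealOfCofinals p0 D
    let U : Set (M × M) := {a | ∃ R ∈ J, a ∈ R.1}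
    have hcom : ∀ (k : ℕ) (T : Fin k → P), (∀ i, T i ∈ J) → ∃ R ∈ J, ∀ i, T i ≤ R := by
      intro k
      induction k with
      | zero => intro T _; exact ⟨p0, hp0J, fun i => i.elim0⟩
      | succ k ih =>
        intro T hT
        obtain ⟨R, hR, hRT⟩ := ih (fun i => T (Fin.castSucc i)) (fun i => hT _)
        obtain ⟨R', hR', h1, h2⟩ := J.directed R hR (T (Fin.last k)) (hT _)
        refine ⟨R', hR', fun i => ?_⟩
        refine Fin.lastCases ?_ (fun i => ?_) i
        · exact h2
        · exact le_trans (hRT i) h1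
    have hU : PI I U := by
      constructor
      · rintro a ⟨Ra, hRa, ha⟩ b ⟨Rb, hRb, hb⟩
        obtain ⟨R, hR, h1, h2⟩ := J.directed Ra hRa Rb hRb
        exact R.2.1 a (h1 ha) b (h2 hb)
      · intro s t ht
        choose T hT htT using ht
        obtain ⟨R, hR, hRT⟩ := hcom _ T hT
        exact R.2.2 s t (fun i => hRT i (htT i))
    have hdom : ∀ m : M, ∃ b, (m, b) ∈ U := by
      intro m
      obtain ⟨R, hR1, hR2⟩ := Order.cofinal_meets_idealOfCofinals p0 D (Sum.inl m)
      obtain ⟨b, hb⟩ := hR1
      exact ⟨b, R, hR2, hb⟩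
    have hran : ∀ m : M, ∃ a, (a, m) ∈ U := by
      intro m
      obtain ⟨R, hR1, hR2⟩ := Order.cofinal_meets_idealOfCofinals p0 D (Sum.inr m)
      obtain ⟨b, hb⟩ := hR1
      exact ⟨b, R, hR2, hb⟩
    choose F hF using hdom
    choose G hG using hran
    refine ⟨⟨F, G, fun m => ?_, fun m => ?_⟩, ?_, ?_⟩
    · exact (hU.1 _ (hG (F m)) _ (hF m)).2 rfl
    · exact (hU.1 _ (hF (G m)) _ (hG m)).1 rfl
    · funext s t
      exact propext (hU.2 s (fun i => (t i, F (t i))) (fun i => hF (t i))).symm
    · intro i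
      have h1 : (f i, g i) ∈ U := ⟨p0, hp0J, Finset.mem_image.2 ⟨i, Finset.mem_univ i, rfl⟩⟩
      exact (hU.1 _ (hF (f i)) _ h1).1 rfl

end Pool.Agent.Helper31.NR
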