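import Pool.Agent.Helper31.NR.Typ
import Pool.Agent.Helper31.NR.Lim
import Pool.Agent.Helper31.NR.OrdC

/-!
# Definitions for the classes of cyclic orders, of even hypertournaments and for the class with only `H_4`
-/

set_option autoImplicit false

namespace Pool.Agent.Helper31.NR

/-- The empty signature. -/
abbrev arE : Empty → ℕ := fun e => e.elim

/-- The class of all finite structures in the empty signature. -/
def E0 : Cls arE := fun _ _ => True

/-- The cyclic orientation of a tuple, for a structure with an order. -/
def Cyc {S : Type} {ar : S → ℕ} {V : Type} (I : Str (arO ar) V) (a b c : V) : Prop :=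
  (lt' I a b ∧ lt' I b c) ∨ (lt' I b c ∧ lt' I c a) ∨ (lt' I c a ∧ lt' I a b)

/-- The 3-hypertournament of a linear order. -/
def PhiC (V : Type) (I : Str (arO arE) V) : Str (fun _ : Unit => 3) V := fun _ t => Cyc I (t 0) (t 1) (t 2)

/-- The class of finite graphs. -/
def Gr : Cls (fun _ : Unit => 2) := fun _ I => (∀ x, ¬ I () ![x, x]) ∧ ∀ x y, I () ![x, y] → I () ![y, x]

/-- The 3-hypertournament of an ordered graph: a triple which contains an odd number of edges is oriented according to the order, the other triples are
oriented in the opposite way. -/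
def PhiG (V : Type) (I : Str (arO (fun _ : Unit => 2)) V) : Str (fun _ : Unit => 3) V := fun _ t =>
  Function.Injective t ∧
    (Xor' (red I () ![t 0, t 1]) (Xor' (red I () ![t 0, t 2]) (red I () ![t 1, t 2])) ↔ Cyc I (t 0) (t 1) (t 2))

/-- Structures with at most four points which have different names. -/
def KN : Cls (fun _ : Fin 4 => 1) := fun n I => ∃ e : Fin n → Fin 4, Function.Injective e ∧ I = fun s t => e (t 0) = s

/-- The structure on `Fin 4` in which the point `i` has the name `i`. -/
def MN : Str (fun _ : Fin 4 => 1) (Fin 4) := fun s t => t 0 = s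

/-- The 3-hypertournament `H_4` on the names: the increasing triple which omits `i` is positive iff `i` is even. -/
def H4 (w : Fin 3 → Fin 4) : Prop :=
  Function.Injective w ∧ (0 < vd (fun j => ((w j : ℕ) : ℤ)) ↔ Even ((w 0 : ℕ) + (w 1 : ℕ) + (w 2 : ℕ)))

/-- The hypertournament of a structure whose points have names. -/
def PhiN (V : Type) (I : Str (fun _ : Fin 4 => 1) V) : Str (fun _ : Unit => 3) V := fun _ t =>
  ∃ w : Fin 3 → Fin 4, H4 w ∧ ∀ j, I (w j) (fun _ => t j)

end Pool.Agent.Helper31.NR
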