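import Pool.Agent.Helper31.NR.CDefs

/-!
# Block NC-CYC: the limit of the finite linear orders and the cyclic orders

PROOF.  By `isLimit_of_ext` for `K = KT {2}` and `(M, PhiC M I)`, `(M, I)` the limit of `ordC E0`; `lt' I` is a linear order on `M` (each finite substructure is in `ordC E0`).
`hage`: for an injective `f : Fin n → M`, `pull f (PhiC M I) = PhiC _ (pull f I)` is a hypertournament, and in an increasing quadruple (for the order) all increasing triples are positive, so the
signs `y_i` are `+, -, +, -`, `ty = 2` (`ty_perm` for the other enumerations).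
`hext`: let `f : Fin n → M` be injective, `J ∈ KT {2}` on `Fin (n + 1)` with `pull castSucc J = pull f (PhiC M I)`; write `z` for the last point and `i <' j` for `lt' I (f i) (f j)`.  We must find a position of `z` in the order of `Fin n` such
that the cyclic orientation of the extended order is `J`; then `IsLimit.ext` for `ordC E0` gives the point `x`.  If `n = 0` any position.  Let `o` be the least element of `Fin n` for `<'`, and
`P = {i ≠ o | J(o, i, z)}`.  If `o <' i <' j`, the quadruple `(o, i, j, z)` has the signs `J(i,j,z)`, `¬ J(o,j,z)`, `J(o,i,z)`, and `-` (because `J(o,i,j)` holds), and exactly two of the four are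
positive.  Hence `j ∈ P` implies `i ∈ P`, and `J(i,j,z)` holds iff `i, j` are both in `P` or both not in `P`.  So put `z` after `o` and all elements of `P` and before all other elements: for `i <' j <' z` or `z <' i <' j` the triple
`(i, j, z)` is positive, for `i <' z <' j` it is negative; this is `J`.
-/

set_option autoImplicit false

namespace Pool.Agent.Helper31.NR

private lemma lt'_pull40 {S : Type} {ar : S → ℕ} {V W : Type} (f : W → V) (I : Str (arO ar) V) (x y : W) :
    lt' (pull f I) x y ↔ lt' I (f x) (f y) := by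
  have e : (fun i => f ((![x, y] : Fin 2 → W) i)) = ![f x, f y] := by
    funext i
    fin_cases i <;> rfl
  exact iff_of_eq (congrArg (I (Sum.inr ())) e)

private lemma vd3_40 (v : Fin 3 → ℤ) : 0 < vd v ↔
    (v 0 < v 1 ∧ v 1 < v 2) ∨ (v 1 < v 2 ∧ v 2 < v 0) ∨ (v 2 < v 0 ∧ v 0 < v 1) := by
  have h0 : (Finset.Ioi (0 : Fin 3)) = {1, 2} := by decide
  have h1 : (Finset.Ioi (1 : Fin 3)) = {2} := by decide
  have h2 : (Finset.Ioi (2 : Fin 3)) = ∅ := by decide
  have e : vd v = (v 1 - v 0) * (v 2 - v 0) * (v 2 - v 1) := by
    rw [vd, Fin.prod_univ_three, h0, h1, h2]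
    simp
  rw [e]
  simp only [mul_pos_iff, mul_neg_iff]
  omega

/-- The hypertournament of the keys. -/
private def KH {V : Type} (k : V → ℤ) : Str (fun _ : Unit => 3) V := fun _ t => 0 < vd (fun i => k (t i))

private lemma KH_isHT {n : ℕ} (k : Fin n → ℤ) (hk : Function.Injective k) : IsHT (KH k) := by
  constructor
  · intro t ht
    change 0 < vd (fun i => k (t i)) at ht
    rw [vd3_40] at ht
    intro a b hab
    have hab' : k (t a) = k (t b) := by rw [hab]
    fin_cases a <;> fin_cases b <;> first | rfl | (exfalso; simp at hab' ht; omega)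
  · intro t ht σ
    change 0 < vd (fun i => k (t (σ i))) ↔ (0 < vd (fun i => k (t i)) ↔ Equiv.Perm.sign σ = 1)
    have e := vd_perm (fun i => k (t i)) σ
    have hne : vd (fun i => k (t i)) ≠ 0 := vd_ne _ (hk.comp ht)
    rw [e]
    rcases Int.units_eq_one_or (Equiv.Perm.sign σ) with h | h
    · rw [h]
      simp
    · rw [h]
      have h3 : ¬ ((-1 : ℤˣ) = 1) := by decide
      simp only [h3, iff_false]
      push_cast
      constructor
      · intro h4 h5
        linarith
      · intro h4
        have h5 : vd (fun i => k (t i)) < 0 := lt_of_le_of_ne (not_lt.1 h4) hne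
        linarith

private lemma KH_KT {n : ℕ} (k : Fin n → ℤ) (hk : Function.Injective k) : KT {2} n (KH k) := by
  classical
  refine ⟨KH_isHT k hk, fun u hu => ?_⟩
  show ty (KH k) u = 2
  let σ : Equiv.Perm (Fin 4) := Tuple.sort (fun i => k (u i))
  rw [← ty_perm (KH k) (KH_isHT k hk) u hu σ]
  have hmono : StrictMono (fun i => k (u (σ i))) :=
    (Tuple.monotone_sort (fun i => k (u i))).strictMono_of_injective
      (hk.comp (hu.comp σ.injective))
  have hyb : ∀ i, yb (KH k) (fun i => u (σ i)) i ↔ Even (i : ℕ) := by
    intro i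
    have h1 : KH k () (fun j => u (σ (i.succAbove j))) := by
      show 0 < vd (fun j => k (u (σ (i.succAbove j))))
      exact vd_pos _ (hmono.comp (Fin.strictMono_succAbove i))
    show (KH k () (fun j => u (σ (i.succAbove j))) ↔ Even (i : ℕ)) ↔ Even (i : ℕ)
    exact ⟨fun h => h.1 h1, fun h => ⟨fun _ => h, fun _ => h1⟩⟩
  unfold ty
  have e1 : (Finset.univ.filter (fun i => yb (KH k) (fun i => u (σ i)) i)) =
      Finset.univ.filter (fun i : Fin 4 => Even (i : ℕ)) := by
    ext i
    simp only [Finset.mem_filter, Finset.mem_univ, true_and, hyb]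
  have e2 : (Finset.univ.filter (fun i => ¬ yb (KH k) (fun i => u (σ i)) i)) =
      Finset.univ.filter (fun i : Fin 4 => ¬ Even (i : ℕ)) := by
    ext i
    simp only [Finset.mem_filter, Finset.mem_univ, true_and, hyb]
  rw [e1, e2]
  decide

private lemma key40 {M : Type} {I : Str (arO arE) M} (h : IsLimit (ordC E0) M I) {n : ℕ} (f : Fin n → M)
    (hf : Function.Injective f) :
    ∃ k : Fin n → ℤ, Function.Injective k ∧ ∀ i j, lt' I (f i) (f j) ↔ k i < k j := by
  obtain ⟨e, he, -⟩ := (h.age n (pull f I)).2 ⟨f, hf, rfl⟩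
  refine ⟨fun i => (((e.symm i : Fin n) : ℕ) : ℤ), ?_, ?_⟩
  · intro i j hij
    have h2 : (((e.symm i : Fin n) : ℕ) : ℤ) = (((e.symm j : Fin n) : ℕ) : ℤ) := hij
    exact e.symm.injective (Fin.ext (by exact_mod_cast h2))
  · intro i j
    rw [← lt'_pull40]
    have h1 := he (e.symm i) (e.symm j)
    rw [Equiv.apply_symm_apply, Equiv.apply_symm_apply] at h1
    rw [h1, Fin.lt_def]
    show _ ↔ (((e.symm i : Fin n) : ℕ) : ℤ) < (((e.symm j : Fin n) : ℕ) : ℤ)
    exact Int.ofNat_lt.symm

private def LO {V : Type} (k : V → ℤ) : Str (arO arE) V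
  | Sum.inl e => e.elim
  | Sum.inr _ => fun (t : Fin 2 → V) => k (t 0) < k (t 1)

private lemma phi_key {M : Type} {I : Str (arO arE) M} {n : ℕ} (f : Fin n → M) (k : Fin n → ℤ)
    (hk : ∀ i j, lt' I (f i) (f j) ↔ k i < k j) : pull f (PhiC M I) = KH k := by
  funext s t
  apply propext
  show Cyc I (f (t 0)) (f (t 1)) (f (t 2)) ↔ 0 < vd (fun i => k (t i))
  rw [vd3_40]
  unfold Cyc
  simp only [hk]

private lemma pos40 {n : ℕ} (k : Fin n → ℤ) (hk : Function.Injective k) (B : Fin n → Fin n → Prop)
    (hB : ∀ i j l, k i < k j → k j < k l → ((B j l ∧ ¬ B i l ∧ ¬ B i j) ∨ (B j l ∧ B i l ∧ B i j) ∨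
      (¬ B j l ∧ ¬ B i l ∧ B i j))) :
    ∃ z : ℤ, (∀ i, 2 * k i ≠ z) ∧ ∀ i j, k i < k j → (B i j ↔ (2 * k i < z ↔ 2 * k j < z)) := by
  rcases isEmpty_or_nonempty (Fin n) with he | hne
  · exact ⟨0, fun i => (he.false i).elim, fun i => (he.false i).elim⟩
  · obtain ⟨o, ho⟩ := Finite.exists_min k
    obtain ⟨c, hc, hmax⟩ := Set.exists_max_image {i | i = o ∨ B o i} k (Set.toFinite _) ⟨o, Or.inl rfl⟩
    have hmem : ∀ i, (i = o ∨ B o i) ↔ k i ≤ k c := by
      intro i
      constructor
      · exact fun h => hmax i h
      · intro h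
        rcases h.lt_or_eq with h1 | h1
        · by_cases hio : i = o
          · exact Or.inl hio
          · right
            have h2 : k o < k i := lt_of_le_of_ne (ho i) (fun h => hio (hk h).symm)
            have h3 : B o c := by
              rcases hc with h3 | h3
              · rw [h3] at h1
                exact absurd h1 (not_lt.2 (ho i))
              · exact h3
            rcases hB o i c h2 h1 with h4 | h4 | h4
            · exact absurd h3 h4.2.1
            · exact h4.2.2
            · exact h4.2.2
        · rw [hk h1]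
          exact hc
    refine ⟨2 * k c + 1, fun i => by omega, fun i j hij => ?_⟩
    have e : ∀ i, 2 * k i < 2 * k c + 1 ↔ (i = o ∨ B o i) := by
      intro i
      rw [hmem i]
      omega
    rw [e i, e j]
    have hjo : j ≠ o := fun h => by
      rw [h] at hij
      exact absurd hij (not_lt.2 (ho i))
    by_cases hio : i = o
    · subst hio
      constructor
      · intro h
        exact ⟨fun _ => Or.inr h, fun _ => Or.inl rfl⟩
      · intro h
        rcases h.1 (Or.inl rfl) with h1 | h1
        · exact absurd h1 hjo
        · exact h1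
    · have h2 : k o < k i := lt_of_le_of_ne (ho i) (fun h => hio (hk h).symm)
      rcases hB o i j h2 hij with h4 | h4 | h4 <;> tauto

open Classical in
private lemma two_of_four (y : Fin 4 → Prop)
    (h1 : min (Finset.univ.filter (fun i => y i)).card (Finset.univ.filter (fun i => ¬ y i)).card = 2) (h3 : ¬ y 3) :
    (y 0 ∧ y 1 ∧ ¬ y 2) ∨ (y 0 ∧ ¬ y 1 ∧ y 2) ∨ (¬ y 0 ∧ y 1 ∧ y 2) := by
  rw [Finset.card_filter, Finset.card_filter, Fin.sum_univ_four, Fin.sum_univ_four] at h1
  by_cases h4 : y 0 <;> by_cases h5 : y 1 <;> by_cases h6 : y 2 <;> simp [h3, h4, h5, h6] at h1 ⊢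

private lemma ht_eq {n : ℕ} (J J' : Str (fun _ : Unit => 3) (Fin (n + 1))) (hJ : IsHT J) (hJ' : IsHT J')
    (h1 : pull Fin.castSucc J = pull Fin.castSucc J')
    (h2 : ∀ i j : Fin n, i ≠ j → (J () ![Fin.castSucc i, Fin.castSucc j, Fin.last n] ↔
      J' () ![Fin.castSucc i, Fin.castSucc j, Fin.last n])) : J = J' := by
  funext s t
  apply propext
  by_cases hinj : Function.Injective t
  swap
  · exact ⟨fun h => absurd (hJ.1 t h) hinj, fun h => absurd (hJ'.1 t h) hinj⟩
  by_cases hl : ∃ m, t m = Fin.last n
  · obtain ⟨m, hm⟩ := hl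
    let σ : Equiv.Perm (Fin 3) := Equiv.swap m 2
    have e2 : t (σ 2) = Fin.last n := by
      rw [show σ 2 = m from Equiv.swap_apply_right m 2, hm]
    have hne : ∀ a : Fin 3, a ≠ 2 → t (σ a) ≠ Fin.last n := by
      intro a ha h
      rw [← e2] at h
      exact ha (σ.injective (hinj h))
    obtain ⟨i, hi⟩ := Fin.exists_castSucc_eq.2 (hne 0 (by decide))
    obtain ⟨j, hj⟩ := Fin.exists_castSucc_eq.2 (hne 1 (by decide))
    have hij : i ≠ j := by
      intro h
      rw [h, hj] at hi
      have := σ.injective (hinj hi)
      exact absurd this (by decide)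
    have e : (fun a => t (σ a)) = ![Fin.castSucc i, Fin.castSucc j, Fin.last n] := by
      funext a
      fin_cases a
      · exact hi.symm
      · exact hj.symm
      · exact e2
    have h3 := hJ.2 t hinj σ
    have h4 := hJ'.2 t hinj σ
    rw [e] at h3 h4
    have h5 := h2 i j hij
    cases s
    by_cases h6 : Equiv.Perm.sign σ = 1
    · simp only [h6, iff_true] at h3 h4
      rw [← h3, ← h4]
      exact h5
    · simp only [h6, iff_false] at h3 h4
      rw [h3, h4] at h5
      exact not_iff_not.1 h5
  · push Not at hl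
    choose u hu using fun a => Fin.exists_castSucc_eq.2 (hl a)
    have e : (fun a => Fin.castSucc (u a)) = t := funext hu
    have h3 := congrFun (congrFun h1 s) u
    have h4 : J s (fun a => Fin.castSucc (u a)) = J' s (fun a => Fin.castSucc (u a)) := h3
    rw [e] at h4
    rw [h4]

theorem cyc_limit {M : Type} {I : Str (arO arE) M} (h : IsLimit (ordC E0) M I) :
    IsLimit (KT {2}) M (PhiC M I) := by
  classical
  haveI := h.ctb
  refine isLimit_of_ext (fun _ => by norm_num) (KT {2}) ?_ M (PhiC M I) ?_ ?_
  · -- hereditary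
    intro m n f J hf hJ
    refine ⟨⟨fun t ht => ?_, fun t ht σ => ?_⟩, fun u hu => ?_⟩
    · exact Function.Injective.of_comp (hJ.1.1 (fun i => f (t i)) ht)
    · exact hJ.1.2 (fun i => f (t i)) (hf.comp ht) σ
    · exact hJ.2 (fun i => f (u i)) (hf.comp hu)
  · intro n f hf
    obtain ⟨k, hk, hlt⟩ := key40 h f hf
    rw [phi_key f k hlt]
    exact KH_KT k hk
  · intro n f J hf hJ hfJ
    obtain ⟨k, hk, hlt⟩ := key40 h f hf
    rw [phi_key f k hlt] at hfJ
    have hpos : ∀ a b c : Fin n, J () ![Fin.castSucc a, Fin.castSucc b, Fin.castSucc c] ↔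
        0 < vd (fun i => k ((![a, b, c] : Fin 3 → Fin n) i)) := by
      intro a b c
      have h1 := congrFun (congrFun hfJ ()) ![a, b, c]
      have e : (fun i => Fin.castSucc ((![a, b, c] : Fin 3 → Fin n) i)) =
          ![Fin.castSucc a, Fin.castSucc b, Fin.castSucc c] := by
        funext i
        fin_cases i <;> rfl
      have h2 : J () (fun i => Fin.castSucc ((![a, b, c] : Fin 3 → Fin n) i)) =
        (0 < vd (fun i => k ((![a, b, c] : Fin 3 → Fin n) i))) := h1
      rw [e] at h2
      rw [h2]
    let B : Fin n → Fin n → Prop := fun i j => J () ![Fin.castSucc i, Fin.castSucc j, Fin.last n]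
    have hBsym : ∀ i j, i ≠ j → (B j i ↔ ¬ B i j) := by
      intro i j hij
      have hinj : Function.Injective (![Fin.castSucc i, Fin.castSucc j, Fin.last n] : Fin 3 → Fin (n + 1)) := by
        have h1 : Fin.castSucc i ≠ Fin.castSucc j := fun h => hij (Fin.castSucc_injective n h)
        have h2 := (Fin.castSucc_lt_last i).ne
        have h3 := (Fin.castSucc_lt_last j).ne
        intro a b hab
        fin_cases a <;> fin_cases b <;> first | rfl | (exfalso; simp at hab; done) | (exfalso; simp at hab; first | exact h1 hab | exact h1 hab.symm | exact h2 hab | exact h2 hab.symm | exact h3 hab | exact h3 hab.symm | exact hij hab | exact hij hab.symm)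
      have h1 := hJ.1.2 _ hinj (Equiv.swap 0 1)
      have h2 : ¬ (Equiv.Perm.sign (Equiv.swap (0 : Fin 3) 1) = 1) := by
        rw [Equiv.Perm.sign_swap (by decide)]
        decide
      simp only [h2, iff_false] at h1
      have e : (fun a => (![Fin.castSucc i, Fin.castSucc j, Fin.last n] : Fin 3 → Fin (n + 1)) (Equiv.swap 0 1 a)) =
          ![Fin.castSucc j, Fin.castSucc i, Fin.last n] := by
        funext a
        fin_cases a <;> rfl
      rw [e] at h1
      exact h1
    have hBq : ∀ i j l, k i < k j → k j < k l → ((B j l ∧ ¬ B i l ∧ ¬ B i j) ∨ (B j l ∧ B i l ∧ B i j) ∨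
        (¬ B j l ∧ ¬ B i l ∧ B i j)) := by
      intro i j l hij hjl
      let u : Fin 4 → Fin (n + 1) := ![Fin.castSucc i, Fin.castSucc j, Fin.castSucc l, Fin.last n]
      have hu : Function.Injective u := by
        have n1 : i ≠ j := fun h => by rw [h] at hij; exact lt_irrefl _ hij
        have n2 : j ≠ l := fun h => by rw [h] at hjl; exact lt_irrefl _ hjl
        have n3 : i ≠ l := fun h => by rw [h] at hij; exact absurd (hij.trans hjl) (lt_irrefl _)
        have h2 := (Fin.castSucc_lt_last i).ne
        have h3 := (Fin.castSucc_lt_last j).ne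
        have h4 := (Fin.castSucc_lt_last l).ne
        intro a b hab
        fin_cases a <;> fin_cases b <;> first | rfl | (exfalso; simp [u] at hab; done) | (exfalso; simp [u] at hab; first | exact n1 hab | exact n1 hab.symm | exact n2 hab | exact n2 hab.symm | exact n3 hab | exact n3 hab.symm | exact h2 hab | exact h2 hab.symm | exact h3 hab | exact h3 hab.symm | exact h4 hab | exact h4 hab.symm)
      have hty : ty J u = 2 := hJ.2 u hu
      have e0 : (fun a => u ((0 : Fin 4).succAbove a)) = ![Fin.castSucc j, Fin.castSucc l, Fin.last n] := by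
        funext a
        fin_cases a <;> rfl
      have e1 : (fun a => u ((1 : Fin 4).succAbove a)) = ![Fin.castSucc i, Fin.castSucc l, Fin.last n] := by
        funext a
        fin_cases a <;> rfl
      have e2 : (fun a => u ((2 : Fin 4).succAbove a)) = ![Fin.castSucc i, Fin.castSucc j, Fin.last n] := by
        funext a
        fin_cases a <;> rfl
      have e3 : (fun a => u ((3 : Fin 4).succAbove a)) = ![Fin.castSucc i, Fin.castSucc j, Fin.castSucc l] := by
        funext a
        fin_cases a <;> rfl
      have y0 : yb J u 0 ↔ B j l := by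
        show (J () (fun a => u ((0 : Fin 4).succAbove a)) ↔ Even ((0 : Fin 4) : ℕ)) ↔ B j l
        rw [e0]
        have : Even ((0 : Fin 4) : ℕ) := by decide
        simp only [this, iff_true]
        exact Iff.rfl
      have y1 : yb J u 1 ↔ ¬ B i l := by
        show (J () (fun a => u ((1 : Fin 4).succAbove a)) ↔ Even ((1 : Fin 4) : ℕ)) ↔ ¬ B i l
        rw [e1]
        have : ¬ Even ((1 : Fin 4) : ℕ) := by decide
        simp only [this, iff_false]
        exact Iff.rfl
      have y2 : yb J u 2 ↔ B i j := by
        show (J () (fun a => u ((2 : Fin 4).succAbove a)) ↔ Even ((2 : Fin 4) : ℕ)) ↔ B i j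
        rw [e2]
        have : Even ((2 : Fin 4) : ℕ) := by decide
        simp only [this, iff_true]
        exact Iff.rfl
      have y3 : ¬ yb J u 3 := by
        show ¬ (J () (fun a => u ((3 : Fin 4).succAbove a)) ↔ Even ((3 : Fin 4) : ℕ))
        rw [e3]
        have h1 : ¬ Even ((3 : Fin 4) : ℕ) := by decide
        have h2 : J () ![Fin.castSucc i, Fin.castSucc j, Fin.castSucc l] := by
          rw [hpos, vd3_40]
          left
          exact ⟨hij, hjl⟩
        simp only [h1, iff_false, not_not]
        exact h2
      have h5 := two_of_four (yb J u) hty y3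
      rw [y0, y1, y2] at h5
      tauto
    obtain ⟨z, hz, hBz⟩ := pos40 k hk B hBq
    let k' : Fin (n + 1) → ℤ := Fin.snoc (fun i => 2 * k i) z
    have hk'c : ∀ i, k' (Fin.castSucc i) = 2 * k i := fun i => by simp [k']
    have hk'l : k' (Fin.last n) = z := by simp [k']
    have hk' : Function.Injective k' := by
      intro a b
      refine Fin.lastCases ?_ (fun i => ?_) a
      · refine Fin.lastCases ?_ (fun j => ?_) b
        · intro _; rfl
        · intro h
          rw [hk'l, hk'c] at h
          exact absurd h.symm (hz j)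
      · refine Fin.lastCases ?_ (fun j => ?_) b
        · intro h
          rw [hk'l, hk'c] at h
          exact absurd h (hz i)
        · intro h
          rw [hk'c, hk'c] at h
          rw [hk (by omega : k i = k j)]
    -- `J` is the hypertournament of the keys `k'`
    have hJK : J = KH k' := by
      apply ht_eq J (KH k') hJ.1 (KH_isHT k' hk')
      · rw [hfJ]
        funext s t
        apply propext
        show 0 < vd (fun i => k (t i)) ↔ 0 < vd (fun i => k' (Fin.castSucc (t i)))
        apply vd_sign
        intro i j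
        rw [hk'c, hk'c]
        omega
      · intro i j hij
        have hkij : k i ≠ k j := fun h => hij (hk h)
        have h1 : KH k' () ![Fin.castSucc i, Fin.castSucc j, Fin.last n] ↔
            (2 * k i < 2 * k j ∧ 2 * k j < z) ∨ (2 * k j < z ∧ z < 2 * k i) ∨ (z < 2 * k i ∧ 2 * k i < 2 * k j) := by
          show 0 < vd (fun a => k' ((![Fin.castSucc i, Fin.castSucc j, Fin.last n] : Fin 3 → Fin (n + 1)) a)) ↔ _
          rw [vd3_40]
          simp only [Matrix.cons_val_zero, Matrix.cons_val_one, Matrix.cons_val, hk'c, hk'l]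
        rw [h1]
        show B i j ↔ _
        have hzi := hz i
        have hzj := hz j
        rcases lt_or_gt_of_ne hkij with h2 | h2
        · rw [hBz i j h2]
          omega
        · rw [hBsym j i hij.symm, hBz j i h2]
          omega
    -- the ordered structure
    let L : Str (arO arE) (Fin (n + 1)) := LO k'
    have hLlt : ∀ x y, lt' L x y ↔ k' x < k' y := fun x y => Iff.rfl
    have hL : ordC E0 (n + 1) L := by
      obtain ⟨e, he⟩ := exists_enum (fun x y => k' x < k' y) (fun x => lt_irrefl _)
        (fun x y hxy => lt_or_gt_of_ne (fun h => hxy (hk' h))) (fun x y z h1 h2 => h1.trans h2)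
      exact ⟨e, fun x y => he x y, trivial⟩
    have hfL : pull Fin.castSucc L = pull f I := by
      funext s t
      rcases s with e | s
      · exact e.elim
      · apply propext
        change Fin 2 → Fin n at t
        change k' (Fin.castSucc (t 0)) < k' (Fin.castSucc (t 1)) ↔ I (Sum.inr ()) (fun i => f (t i))
        rw [hk'c, hk'c]
        have h1 := hlt (t 0) (t 1)
        have e2 : (![f (t 0), f (t 1)] : Fin 2 → M) = fun i => f (t i) := by
          funext i
          fin_cases i <;> rfl
        have h2 : lt' I (f (t 0)) (f (t 1)) ↔ I (Sum.inr ()) (fun i => f (t i)) := by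
          show I (Sum.inr ()) ![f (t 0), f (t 1)] ↔ _
          exact iff_of_eq (congrArg (I (Sum.inr ())) e2)
        rw [← h2, h1]
        omega
    obtain ⟨x, hx, hxL⟩ := h.ext f hf L hL hfL
    refine ⟨x, hx, ?_⟩
    rw [hJK]
    apply phi_key
    intro i j
    rw [← lt'_pull40, hxL]
    exact hLlt i j

end Pool.Agent.Helper31.NR
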