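import Pool.Agent.Helper31.NR.Bdd

/-!
# Block NC-DEF: quantifier-free definable reducts

PROOF.  `K' n J := K1 n (red' J) ∧ red J = Φ (Fin n) (red' J)`.  For `I : Str ar' V` let `comb I` be the structure with `red (comb I) = Φ V I`, `red' (comb I) = I`; `pull f (comb I) = comb (pull f I)` for
injective `f`, and the members of `K'` are the structures `comb I`, `I ∈ K1`.  So `IsFraisse`, `IsRamsey` (`IsCopy (comb A) (comb C) Y ↔ IsCopy A C Y`) and `IsLimit` are inherited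
(`IsLimit K' M (comb I)`, and `red (comb I) = Φ M I`).  `FinBounded`: by `finBounded_iff` take for `K'` the number `max N1 a`, where `N1` belongs to `K1` and `a` is the maximum of the arities `ar s`
(`S` is finite): if all substructures of `J` of size at most this number are in `K'` then `red' J ∈ K1`, and for a tuple `t : Fin (ar s) → Fin n` let `f` be the enumeration of the
range of `t`, `t = f ∘ t'`: `red J s t ↔ red (pull f J) s t' ↔ Φ _ (red' (pull f J)) s t' ↔ pull f (Φ _ (red' J)) s t' ↔ Φ _ (red' J) s t`.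
-/

set_option autoImplicit false

namespace Pool.Agent.Helper31.NR

/-- `Φ` commutes with the passage to substructures. -/
def Natural {S S' : Type} {ar : S → ℕ} {ar' : S' → ℕ} (Φ : ∀ V : Type, Str ar' V → Str ar V) : Prop :=
  ∀ (V W : Type) (f : W → V) (I : Str ar' V), Function.Injective f → pull f (Φ V I) = Φ W (pull f I)

section comb

variable {S S' : Type} {ar : S → ℕ} {ar' : S' → ℕ}

/-- The expansion of `Φ V I` by `I`. -/
private def comb (Φ : ∀ V : Type, Str ar' V → Str ar V) (V : Type) (I : Str ar' V) :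
    Str (Sum.elim ar ar') V
  | Sum.inl s => Φ V I s
  | Sum.inr s => I s

/-- The class of the expansions. -/
private def KD (K1 : Cls ar') (Φ : ∀ V : Type, Str ar' V → Str ar V) : Cls (Sum.elim ar ar') :=
  fun n J => K1 n (red' J) ∧ red J = Φ (Fin n) (red' J)

private theorem eq_comb (Φ : ∀ V : Type, Str ar' V → Str ar V) {V : Type} (J : Str (Sum.elim ar ar') V)
    (h : red J = Φ V (red' J)) : J = comb Φ V (red' J) := by
  funext s
  rcases s with s | s
  · exact congrFun h s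
  · rfl

private theorem KD_comb (K1 : Cls ar') (Φ : ∀ V : Type, Str ar' V → Str ar V) {n : ℕ} {I : Str ar' (Fin n)}
    (h : K1 n I) : KD K1 Φ n (comb Φ (Fin n) I) := ⟨h, rfl⟩

private theorem KD_iff (K1 : Cls ar') (Φ : ∀ V : Type, Str ar' V → Str ar V) {n : ℕ}
    {J : Str (Sum.elim ar ar') (Fin n)} (h : KD K1 Φ n J) :
    ∃ I, K1 n I ∧ J = comb Φ (Fin n) I := ⟨red' J, h.1, eq_comb Φ J h.2⟩

private theorem pull_comb {Φ : ∀ V : Type, Str ar' V → Str ar V} (hΦ : Natural Φ) {V W : Type} (f : W → V)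
    (hf : Function.Injective f) (I : Str ar' V) : pull f (comb Φ V I) = comb Φ W (pull f I) := by
  funext s
  rcases s with s | s
  · exact congrFun (hΦ V W f I hf) s
  · rfl

private theorem comb_inj {Φ : ∀ V : Type, Str ar' V → Str ar V} {V : Type} {I J : Str ar' V}
    (h : comb Φ V I = comb Φ V J) : I = J := by
  have h1 := congrArg (red' (ar := ar) (ar' := ar')) h
  exact h1

private theorem copy_comb {Φ : ∀ V : Type, Str ar' V → Str ar V} (hΦ : Natural Φ) {a c : ℕ}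
    (A : Str ar' (Fin a)) (C : Str ar' (Fin c)) (Y : Set (Fin c)) :
    IsCopy (comb Φ _ A) (comb Φ _ C) Y ↔ IsCopy A C Y := by
  constructor
  · rintro ⟨f, hf, h, hY⟩
    rw [pull_comb hΦ f hf] at h
    exact ⟨f, hf, comb_inj h, hY⟩
  · rintro ⟨f, hf, h, hY⟩
    exact ⟨f, hf, by rw [pull_comb hΦ f hf, h], hY⟩

private theorem fraisse_comb {K1 : Cls ar'} {Φ : ∀ V : Type, Str ar' V → Str ar V} (hΦ : Natural Φ)
    (h1 : IsFraisse K1) : IsFraisse (KD K1 Φ) := by
  constructor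
  · intro m n f J hf hJ
    obtain ⟨I, hI, rfl⟩ := KD_iff K1 Φ hJ
    rw [pull_comb hΦ f hf]
    exact KD_comb K1 Φ (h1.her m n f I hf hI)
  · intro m n I J hI hJ
    obtain ⟨I1, hI1, rfl⟩ := KD_iff K1 Φ hI
    obtain ⟨J1, hJ1, rfl⟩ := KD_iff K1 Φ hJ
    obtain ⟨p, L, f, g, hf, hg, hL, hfL, hgL⟩ := h1.jep m n I1 J1 hI1 hJ1
    exact ⟨p, comb Φ _ L, f, g, hf, hg, KD_comb K1 Φ hL, by rw [pull_comb hΦ f hf, hfL],
      by rw [pull_comb hΦ g hg, hgL]⟩
  · intro a m n I J f g hf hg hI hJ hfg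
    obtain ⟨I1, hI1, rfl⟩ := KD_iff K1 Φ hI
    obtain ⟨J1, hJ1, rfl⟩ := KD_iff K1 Φ hJ
    rw [pull_comb hΦ f hf, pull_comb hΦ g hg] at hfg
    obtain ⟨p, L, f', g', hf', hg', hL, hfL, hgL, hh⟩ := h1.amal a m n I1 J1 f g hf hg hI1 hJ1 (comb_inj hfg)
    exact ⟨p, comb Φ _ L, f', g', hf', hg', KD_comb K1 Φ hL, by rw [pull_comb hΦ f' hf', hfL],
      by rw [pull_comb hΦ g' hg', hgL], hh⟩

private theorem limit_comb {K1 : Cls ar'} {Φ : ∀ V : Type, Str ar' V → Str ar V} (hΦ : Natural Φ) {M : Type}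
    {I : Str ar' M} (h : IsLimit K1 M I) : IsLimit (KD K1 Φ) M (comb Φ M I) := by
  constructor
  · exact h.ctb
  · intro n J
    constructor
    · intro hJ
      obtain ⟨J1, hJ1, rfl⟩ := KD_iff K1 Φ hJ
      obtain ⟨f, hf, hfI⟩ := (h.age n J1).1 hJ1
      exact ⟨f, hf, by rw [pull_comb hΦ f hf, hfI]⟩
    · rintro ⟨f, hf, rfl⟩
      rw [pull_comb hΦ f hf]
      exact KD_comb K1 Φ ((h.age n _).2 ⟨f, hf, rfl⟩)
  · intro n f g hf hg hfg
    rw [pull_comb hΦ f hf, pull_comb hΦ g hg] at hfg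
    obtain ⟨σ, hσ, hσ'⟩ := h.hom n f g hf hg (comb_inj hfg)
    exact ⟨σ, by rw [pull_comb hΦ σ σ.injective, hσ], hσ'⟩

private theorem ramsey_comb {K1 : Cls ar'} {Φ : ∀ V : Type, Str ar' V → Str ar V} (hΦ : Natural Φ)
    (h : IsRamsey K1) : IsRamsey (KD K1 Φ) := by
  intro a A b B hA hB k
  obtain ⟨A1, hA1, rfl⟩ := KD_iff K1 Φ hA
  obtain ⟨B1, hB1, rfl⟩ := KD_iff K1 Φ hB
  obtain ⟨c, C, hC, hh⟩ := h a A1 b B1 hA1 hB1 k
  refine ⟨c, comb Φ _ C, KD_comb K1 Φ hC, fun χ => ?_⟩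
  obtain ⟨Z, hZ, hZ'⟩ := hh χ
  exact ⟨Z, (copy_comb hΦ B1 C Z).2 hZ, fun Y Y' hY hY' =>
    hZ' Y Y' ((copy_comb hΦ A1 C Y).1 hY) ((copy_comb hΦ A1 C Y').1 hY')⟩

private theorem bounded_comb [Finite S] [Finite S'] {K1 : Cls ar'} {Φ : ∀ V : Type, Str ar' V → Str ar V}
    (hΦ : Natural Φ) (h1 : IsFraisse K1) (h3 : FinBounded K1) : FinBounded (KD K1 Φ) := by
  rw [finBounded_iff _ (fraisse_comb hΦ h1).her]
  obtain ⟨N, hN⟩ := (finBounded_iff K1 h1.her).1 h3
  obtain ⟨a, ha⟩ := (Set.finite_range ar).bddAbove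
  have ha' : ∀ s, ar s ≤ a := fun s => ha ⟨s, rfl⟩
  refine ⟨max N a, fun n J h => ⟨?_, ?_⟩⟩
  · exact hN n (red' J) fun m hm f hf => (h m (le_max_of_le_left hm) f hf).1
  · funext s t
    have hcard : (Finset.univ.image t).card ≤ ar s := by
      have h2 := Finset.card_image_le (s := (Finset.univ : Finset (Fin (ar s)))) (f := t)
      rwa [Finset.card_univ, Fintype.card_fin] at h2
    set f := (Finset.univ.image t).orderEmbOfFin rfl with hf
    have hr : Set.range f = Set.range t := by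
      rw [hf, Finset.range_orderEmbOfFin]
      simp
    have ht : ∀ i, ∃ j, f j = t i := by
      intro i
      have h2 : t i ∈ Set.range f := by
        rw [hr]
        exact ⟨i, rfl⟩
      exact h2
    choose t' ht' using ht
    have ht2 : t = fun i => f (t' i) := funext fun i => (ht' i).symm
    have h2 := (h _ (le_max_of_le_right (hcard.trans (ha' s))) f f.injective).2
    have h4 := congrFun (congrFun h2 s) t'
    have h5 := congrFun (congrFun (hΦ _ _ f (red' J) f.injective) s) t'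
    rw [ht2]
    exact h4.trans h5.symm

end comb

theorem positive_of_def {S S' : Type} [Finite S] [Finite S'] {ar : S → ℕ} {ar' : S' → ℕ} (K : Cls ar) (K1 : Cls ar')
    (Φ : ∀ V : Type, Str ar' V → Str ar V) (hΦ : Natural Φ) (h1 : IsFraisse K1) (h2 : IsRamsey K1)
    (h3 : FinBounded K1)
    (h4 : ∃ (M : Type) (I : Str ar' M), IsLimit K1 M I ∧ IsLimit K M (Φ M I)) : Positive K := by
  obtain ⟨M, I, hI, hI'⟩ := h4
  exact ⟨S', inferInstance, ar', KD K1 Φ, fraisse_comb hΦ h1, ⟨M, comb Φ M I, limit_comb hΦ hI, hI'⟩,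
    bounded_comb hΦ h1 h3, ramsey_comb hΦ h2⟩

end Pool.Agent.Helper31.NR
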