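import Mathlib

/-!
# Project NR (MP_942bce_lc): Ramsey expansions from natural one-point amalgamation. Definitions

A relational signature is given by a type `S` of symbols and the arities `ar : S → ℕ`.  A class of finite structures is
given by its members on the sets `Fin n` (`Cls`).
-/

set_option autoImplicit false

namespace Pool.Agent.Helper31.NR

/-- A structure on `V` in the relational signature with the symbols `s : S` of arity `ar s`. -/
abbrev Str {S : Type} (ar : S → ℕ) (V : Type) : Type := ∀ s : S, (Fin (ar s) → V) → Prop

/-- The structure induced on `W` by a structure on `V` along the map `e : W → V`.  If `e` is injective this is the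
substructure on the range of `e`. -/
def pull {S : Type} {ar : S → ℕ} {V W : Type} (e : W → V) (I : Str ar V) : Str ar W :=
  fun s t => I s (fun i => e (t i))

/-- A class of finite structures, given by its members on the sets `Fin n`. -/
abbrev Cls {S : Type} (ar : S → ℕ) : Type := ∀ n : ℕ, Str ar (Fin n) → Prop

section classes

variable {S : Type} {ar : S → ℕ}

/-- `K` is closed under isomorphism and substructures. -/
def Hereditary (K : Cls ar) : Prop :=
  ∀ (m n : ℕ) (f : Fin m → Fin n) (I : Str ar (Fin n)), Function.Injective f → K n I → K m (pull f I)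

/-- `K` is a Fraisse class: it is closed under isomorphism and substructures, and has the joint embedding and the
amalgamation property. -/
structure IsFraisse (K : Cls ar) : Prop where
  her : Hereditary K
  jep : ∀ (m n : ℕ) (I : Str ar (Fin m)) (J : Str ar (Fin n)), K m I → K n J →
    ∃ (p : ℕ) (L : Str ar (Fin p)) (f : Fin m → Fin p) (g : Fin n → Fin p),
      Function.Injective f ∧ Function.Injective g ∧ K p L ∧ pull f L = I ∧ pull g L = J
  amal : ∀ (a m n : ℕ) (I : Str ar (Fin m)) (J : Str ar (Fin n)) (f : Fin a → Fin m) (g : Fin a → Fin n),
    Function.Injective f → Function.Injective g → K m I → K n J → pull f I = pull g J →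
    ∃ (p : ℕ) (L : Str ar (Fin p)) (f' : Fin m → Fin p) (g' : Fin n → Fin p),
      Function.Injective f' ∧ Function.Injective g' ∧ K p L ∧ pull f' L = I ∧ pull g' L = J ∧
      ∀ i, f' (f i) = g' (g i)

/-- The structure `C` has a substructure isomorphic to `A`. -/
def Emb {a c : ℕ} (A : Str ar (Fin a)) (C : Str ar (Fin c)) : Prop :=
  ∃ f : Fin a → Fin c, Function.Injective f ∧ pull f C = A

/-- `K` is finitely bounded: it consists of the finite structures into which no member of a certain finite set `F` of finite
structures embeds. -/
def FinBounded (K : Cls ar) : Prop :=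
  ∃ F : Set (Σ n : ℕ, Str ar (Fin n)), F.Finite ∧ ∀ (n : ℕ) (I : Str ar (Fin n)), K n I ↔ ∀ p ∈ F, ¬ Emb p.2 I

/-- `Y` is the universe of a substructure of `C` isomorphic to `A`. -/
def IsCopy {a c : ℕ} (A : Str ar (Fin a)) (C : Str ar (Fin c)) (Y : Set (Fin c)) : Prop :=
  ∃ f : Fin a → Fin c, Function.Injective f ∧ pull f C = A ∧ Set.range f = Y

/-- `K` is Ramsey: for `A, B ∈ K` and every number `k` of colours there is `C ∈ K` such that for every colouring `χ` of the
copies of `A` in `C` there is a copy `Z` of `B` in `C` such that all copies of `A` inside `Z` have the same colour. -/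
def IsRamsey (K : Cls ar) : Prop :=
  ∀ (a : ℕ) (A : Str ar (Fin a)) (b : ℕ) (B : Str ar (Fin b)), K a A → K b B → ∀ k : ℕ,
    ∃ (c : ℕ) (C : Str ar (Fin c)), K c C ∧ ∀ χ : Set (Fin c) → Fin k,
      ∃ Z : Set (Fin c), IsCopy B C Z ∧
        ∀ Y Y' : Set (Fin c), IsCopy A C Y → IsCopy A C Y' → Y ⊆ Z → Y' ⊆ Z → χ Y = χ Y'

/-- `(M, I)` is the Fraisse limit of `K`: it is countable, the structures in `K` are exactly those isomorphic to finite
substructures of `(M, I)`, and every isomorphism between finite substructures extends to an automorphism. -/
structure IsLimit (K : Cls ar) (M : Type) (I : Str ar M) : Prop where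
  ctb : Countable M
  age : ∀ (n : ℕ) (J : Str ar (Fin n)), K n J ↔ ∃ f : Fin n → M, Function.Injective f ∧ pull f I = J
  hom : ∀ (n : ℕ) (f g : Fin n → M), Function.Injective f → Function.Injective g → pull f I = pull g I →
    ∃ σ : M ≃ M, pull σ I = I ∧ ∀ i, σ (f i) = g i

end classes

section reducts

variable {S S' : Type} {ar : S → ℕ} {ar' : S' → ℕ}

/-- The reduct to the first signature of a structure in the disjoint union of two signatures. -/
def red {V : Type} (I : Str (Sum.elim ar ar') V) : Str ar V := fun s t => I (Sum.inl s) t

/-- The reduct to the second signature. -/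
def red' {V : Type} (I : Str (Sum.elim ar ar') V) : Str ar' V := fun s t => I (Sum.inr s) t

/-- `K'` extends `K`: the reduct of the Fraisse limit of `K'` is the Fraisse limit of `K`. -/
def Extends (K : Cls ar) (K' : Cls (Sum.elim ar ar')) : Prop :=
  ∃ (M : Type) (I : Str (Sum.elim ar ar') M), IsLimit K' M I ∧ IsLimit K M (red I)

end reducts

/-- The answer to Q1 for `K` is positive: there is a Fraisse class `K'` in a finite signature which contains that of `K`, such
that `K'` extends `K`, is finitely bounded and Ramsey. -/
def Positive {S : Type} {ar : S → ℕ} (K : Cls ar) : Prop :=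
  ∃ (S' : Type) (_ : Finite S') (ar' : S' → ℕ) (K' : Cls (Sum.elim ar ar')),
    IsFraisse K' ∧ Extends K K' ∧ FinBounded K' ∧ IsRamsey K'

section orders

variable {S : Type} {ar : S → ℕ}

/-- The arities of a signature with one additional binary symbol. -/
abbrev arO (ar : S → ℕ) : S ⊕ Unit → ℕ := Sum.elim ar (fun _ : Unit => 2)

/-- The additional binary relation. -/
def lt' {V : Type} (I : Str (arO ar) V) (x y : V) : Prop := red' I () ![x, y]

/-- An ordered class is a class of finite linearly ordered structures closed under isomorphism; it is given by its members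
on the sets `Fin n` with their natural order.  `ordC K` is the class of all finite structures `I` with one more binary relation which
is a linear order, such that the enumeration `e` of the points in increasing order is an isomorphism from a member of `K`. -/
def ordC (K : Cls ar) : Cls (arO ar) := fun n I =>
  ∃ e : Fin n ≃ Fin n, (∀ x y, lt' I (e x) (e y) ↔ x < y) ∧ K n (pull e (red I))

/-- An ordered class is closed under substructures. -/
def OHered (K : Cls ar) : Prop :=
  ∀ (m n : ℕ) (f : Fin m → Fin n) (I : Str ar (Fin n)), StrictMono f → K n I → K m (pull f I)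

/-- `E` is complete on the range of `f`. -/
def Clq {n m : ℕ} (E : Fin n → Fin n → Prop) (f : Fin m → Fin n) : Prop := ∀ i j, i ≠ j → E (f i) (f j)

/-- `K` is completable: let `E` be a symmetric relation on `Fin n` and let `I` be a structure on `Fin n` whose substructures on
the cliques of `E` are in `K`.  Then there is a structure `J` in `K` on `Fin n` with the same substructures on the cliques of `E`. -/
def Completable (K : Cls ar) : Prop :=
  ∀ (n : ℕ) (E : Fin n → Fin n → Prop) (I : Str ar (Fin n)), (∀ x y, E x y → E y x) →
    (∀ (m : ℕ) (f : Fin m → Fin n), StrictMono f → Clq E f → K m (pull f I)) →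
    ∃ J : Str ar (Fin n), K n J ∧ ∀ (m : ℕ) (f : Fin m → Fin n), StrictMono f → Clq E f → pull f J = pull f I

/-- `ρ` is a natural one-point amalgamation for the ordered class `K`.  Let `x < y` be points of `Fin n` and `I` a structure on
`Fin n` such that the substructures on the complements of `x` and of `y` are in `K`.  Then `ρ n x y I` is a structure in `K` which
differs from `I` only on tuples which contain both `x` and `y` (`keep`, `mem`), and this is compatible with order preserving
maps (`nat`): whether a tuple `t` which contains `x` and `y` is in a relation of `ρ n x y I` depends only on the ordered structure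
induced by `I` on the entries of `t`. -/
structure NatAmalg (K : Cls ar) (ρ : ∀ n : ℕ, Fin n → Fin n → Str ar (Fin n) → Str ar (Fin n)) : Prop where
  keep : ∀ (n : ℕ) (x y : Fin n) (I : Str ar (Fin n)) (s : S) (t : Fin (ar s) → Fin n), x < y →
    (x ∉ Set.range t ∨ y ∉ Set.range t) → (ρ n x y I s t ↔ I s t)
  nat : ∀ (m n : ℕ) (f : Fin m → Fin n) (x y : Fin m) (I : Str ar (Fin n)), StrictMono f → x < y →
    pull f (ρ n (f x) (f y) I) = ρ m x y (pull f I)
  mem : ∀ (n : ℕ) (x y : Fin n) (I : Str ar (Fin n)), x < y →
    (∀ (m : ℕ) (f : Fin m → Fin n), StrictMono f → (x ∉ Set.range f ∨ y ∉ Set.range f) → K m (pull f I)) →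
    K n (ρ n x y I)

end orders

end Pool.Agent.Helper31.NR
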