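import Pool.Agent.Helper31.NR.W4

/-!
# Homogeneous structures with completable ages: Ramsey expansions for colourings of embeddings
-/

set_option autoImplicit false

namespace Pool.Agent.Helper31.NR

/-- `f` is an embedding of `A` into `I`. -/
def IsEmb {S : Type} {ar : S → ℕ} {a : ℕ} {V : Type} (A : Str ar (Fin a)) (I : Str ar V) (f : Fin a → V) : Prop :=
  Function.Injective f ∧ pull f I = A

/-- `K` is Ramsey for colourings of embeddings: for `A, B ∈ K` and every number `k` of colours there is `C ∈ K` such that for every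
colouring `χ` of the embeddings of `A` into `C` there is an embedding `g` of `B` into `C` such that all `g ∘ f`, for
`f` an embedding of `A` into `B`, have the same colour. -/
def IsRamseyEmb {S : Type} {ar : S → ℕ} (K : Cls ar) : Prop :=
  ∀ (a : ℕ) (A : Str ar (Fin a)) (b : ℕ) (B : Str ar (Fin b)), K a A → K b B → ∀ k : ℕ,
    ∃ (c : ℕ) (C : Str ar (Fin c)), K c C ∧ ∀ χ : (Fin a → Fin c) → Fin k,
      ∃ g : Fin b → Fin c, IsEmb B C g ∧
        ∀ f f' : Fin a → Fin b, IsEmb A B f → IsEmb A B f' → χ (fun i => g (f i)) = χ (fun i => g (f' i))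

variable {S : Type} {ar : S → ℕ}

private theorem lt_pull' {V W : Type} (f : W → V) (I : Str (arO ar) V) (x y : W) :
    lt' (pull f I) x y ↔ lt' I (f x) (f y) := pull2 f I x y

/-- Embeddings of linearly ordered structures with the same range are equal. -/
theorem emb_unique {K : Cls ar} {a c : ℕ} {A : Str (arO ar) (Fin a)} {C : Str (arO ar) (Fin c)}
    (hA : ordC K a A) {f f' : Fin a → Fin c} (hf : IsEmb A C f) (hf' : IsEmb A C f')
    (h : Set.range f = Set.range f') : f = f' := by
  obtain ⟨e, he, -⟩ := hA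
  -- `f' = f ∘ σ` with `σ` an automorphism of `A`
  have h1 : ∀ i, ∃ j, f j = f' i := fun i => by
    have : f' i ∈ Set.range f := by
      rw [h]
      exact ⟨i, rfl⟩
    exact this
  choose σ hσ using h1
  have hσm : ∀ x y, lt' A (σ x) (σ y) ↔ lt' A x y := by
    intro x y
    have h2 := lt_pull' f C (σ x) (σ y)
    rw [hf.2] at h2
    have h3 := lt_pull' f' C x y
    rw [hf'.2] at h3
    rw [h2, h3, hσ, hσ]
  let τ : Fin a → Fin a := fun i => e.symm (σ (e i))
  have hτ : StrictMono τ := by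
    intro x y hxy
    rw [← he x y, ← hσm] at hxy
    have h4 : lt' A (e (τ x)) (e (τ y)) := by
      show lt' A (e (e.symm (σ (e x)))) (e (e.symm (σ (e y))))
      rw [Equiv.apply_symm_apply, Equiv.apply_symm_apply]
      exact hxy
    exact (he _ _).1 h4
  have h5 : ∀ x, τ x = x := by
    intro x
    have h6 := StrictMono.range_inj (f := τ) (g := id) hτ strictMono_id
    have h7 : Set.range τ = Set.range (id : Fin a → Fin a) := by
      have h8 : Function.Surjective τ := Finite.injective_iff_surjective.1 hτ.injective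
      rw [h8.range_eq, Set.range_id]
    exact congrFun (h6.1 h7) x
  funext i
  rw [← hσ i]
  congr 1
  have h9 := h5 (e.symm i)
  have h10 : e (τ (e.symm i)) = e (e.symm i) := by rw [h9]
  have h11 : e (τ (e.symm i)) = σ i := by
    show e (e.symm (σ (e (e.symm i)))) = σ i
    rw [Equiv.apply_symm_apply, Equiv.apply_symm_apply]
  rw [h11, Equiv.apply_symm_apply] at h10
  exact h10.symm

theorem ramseyEmb_of_ramsey {K : Cls ar} (h : IsRamsey (ordC K)) : IsRamseyEmb (ordC K) := by
  classical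
  intro a A b B hA hB k
  rcases k with _ | k
  · exact ⟨b, B, hB, fun χ => ⟨id, ⟨Function.injective_id, rfl⟩, fun f _ _ _ => (χ f).elim0⟩⟩
  obtain ⟨c, C, hC, hR⟩ := h a A b B hA hB (k + 1)
  refine ⟨c, C, hC, fun χ => ?_⟩
  let χ' : Set (Fin c) → Fin (k + 1) := fun Y =>
    if hY : ∃ f : Fin a → Fin c, IsEmb A C f ∧ Set.range f = Y then χ hY.choose else 0
  have hχ' : ∀ f : Fin a → Fin c, IsEmb A C f → χ' (Set.range f) = χ f := by
    intro f hf
    have hY : ∃ f' : Fin a → Fin c, IsEmb A C f' ∧ Set.range f' = Set.range f := ⟨f, hf, rfl⟩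
    have h1 : χ' (Set.range f) = χ hY.choose := dif_pos hY
    rw [h1, emb_unique hA hY.choose_spec.1 hf hY.choose_spec.2]
  obtain ⟨Z, ⟨g, hg, hgB, hgZ⟩, hZ⟩ := hR χ'
  refine ⟨g, ⟨hg, hgB⟩, fun f f' hf hf' => ?_⟩
  have key : ∀ f : Fin a → Fin b, IsEmb A B f → IsEmb A C (fun i => g (f i)) := by
    intro f hf
    refine ⟨hg.comp hf.1, ?_⟩
    have h1 : pull (fun i => g (f i)) C = pull f (pull g C) := rfl
    rw [h1, hgB, hf.2]
  have h1 := key f hf
  have h2 := key f' hf'
  rw [← hχ' _ h1, ← hχ' _ h2]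
  refine hZ _ _ ⟨_, h1.1, h1.2, rfl⟩ ⟨_, h2.1, h2.2, rfl⟩ ?_ ?_
  · rintro _ ⟨i, rfl⟩
    rw [← hgZ]
    exact ⟨f i, rfl⟩
  · rintro _ ⟨i, rfl⟩
    rw [← hgZ]
    exact ⟨f' i, rfl⟩

/-- Every countable homogeneous structure with a completable age has an expansion by a linear order which is homogeneous and
whose age is Ramsey. -/
theorem exists_ramsey_expansion {S : Type} [Finite S] {ar : S → ℕ} (har : ∀ s, 0 < ar s) (M : Type) [Countable M]
    (I : Str ar M) (hI : Homog I) (hC : Completable (ageOf I)) :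
    ∃ J : Str (arO ar) M, red J = I ∧ Homog J ∧ IsRamseyEmb (ageOf J) ∧
      ∀ (n : ℕ) (A : Str (arO ar) (Fin n)), ageOf J n A ↔ ageOf I n (red A) ∧ IsStrictTotalOrder (Fin n) (lt' A) := by
  have hM : IsLimit (ageOf I) M I := ⟨inferInstance, fun n J => Iff.rfl, hI⟩
  have hK : Hereditary (ageOf I) := by
    rintro m n f _ hf ⟨g, hg, rfl⟩
    exact ⟨fun i => g (f i), hg.comp hf, rfl⟩
  have hO : OHered (ageOf I) := fun m n f J hf hJ => hK m n f J hf.injective hJ
  obtain ⟨J, h1, h2⟩ := exists_order har _ hK hC hM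
  refine ⟨J, h1, h2.hom, ?_, ?_⟩
  · rw [h2.ageOf_eq]
    exact ramseyEmb_of_ramsey (ramsey_ordC _ hO hC)
  · rw [h2.ageOf_eq]
    intro n A
    exact ordC_iff hK A

end Pool.Agent.Helper31.NR
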