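import Pool.Agent.Helper31.NR.CDefs

/-!
# Block NC-EVEN: the limit of the finite ordered graphs and the even hypertournaments

PROOF.  By `isLimit_of_ext` for `K = KT {0, 2}` and `(M, PhiG M I)`, `(M, I)` the limit of `ordC Gr`; `lt' I` is a linear order on `M`, and `g x y = red I () ![x, y]` is irreflexive and symmetric (each
finite substructure is in `ordC Gr`).  Let `h a b c` be the parity of the number of edges in `{a, b, c}`.  An injective triple `t` is in the relation iff (`h` is odd iff `t` is positively oriented by the order).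
`hage`: hypertournament: clear.  In an increasing quadruple the orientation of the increasing triple is `h`, the sum of `h` over the four triples is even, so the number of positive signs `y_i` (two of the four are
changed) is even, `ty ∈ {0, 2}` (`ty_perm` for the other enumerations).
`hext`: let `f : Fin n → M` be injective, `J ∈ KT {0, 2}` on `Fin (n + 1)` with `pull castSucc J = pull f (PhiG M I)`; `z` = last point.  Put `z` on top of the order.  For `i <' j` (order of `M`) let
`k i j = J(i, j, z)` (orientation of the increasing triple), a symmetric function.  If `n = 0` there is nothing to do.  Let `o` be the least element, and define `g o z = false`, `g i z = k o i xor g o i` for `i ≠ o`.  For `o, i`: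
`h(o,i,z) = g o i + g o z + g i z = k o i`.  For `o <' i <' j`: type in `{0, 2}` of the quadruple `(o, i, j, z)` says that `J(i,j,z) + J(o,j,z) + J(o,i,z) + J(o,i,j)` is even (as numbers mod 2), so
`k i j = k o j + k o i + h(o,i,j) = (g j z + g o j) + (g i z + g o i) + (g o i + g o j + g i j) = g i j + g i z + g j z = h(i,j,z)`.  So the ordered graph on `Fin (n + 1)` is in `ordC Gr`, it extends `pull f I`, and its hypertournament
is `J`.  `IsLimit.ext` gives the point `x`.
-/

set_option autoImplicit false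
set_option linter.deprecated false

namespace Pool.Agent.Helper31.NR

section h99aux

variable {M : Type} {I : Str (arO (fun _ : Unit => 2)) M}

private theorem h99_lt_pull {V W : Type} (f : W → V) (I : Str (arO (fun _ : Unit => 2)) V) (x y : W) :
    lt' (pull f I) x y ↔ lt' I (f x) (f y) := by
  have h : (fun i => f ((![x, y] : Fin 2 → W) i)) = (![f x, f y] : Fin 2 → V) := by
    funext i
    fin_cases i <;> rfl
  exact iff_of_eq (congrArg (fun t : Fin 2 → V => I (Sum.inr ()) t) h)

private theorem h99_red_pull {V W : Type} (f : W → V) (I : Str (arO (fun _ : Unit => 2)) V) (x y : W) :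
    red (pull f I) () ![x, y] ↔ red I () ![f x, f y] := by
  have h : (fun i => f ((![x, y] : Fin 2 → W) i)) = (![f x, f y] : Fin 2 → V) := by
    funext i
    fin_cases i <;> rfl
  exact iff_of_eq (congrArg (fun t : Fin 2 → V => I (Sum.inl ()) t) h)

private theorem h99_ext {V : Type} (P Q : Str (arO (fun _ : Unit => 2)) V) (h1 : ∀ a b, lt' P a b ↔ lt' Q a b)
    (h2 : ∀ a b, red P () ![a, b] ↔ red Q () ![a, b]) : P = Q := by
  have key : ∀ t : Fin 2 → V, t = ![t 0, t 1] := by
    intro t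
    funext i
    fin_cases i <;> rfl
  apply funext
  intro s
  rcases s with ⟨⟩ | ⟨⟩
  · apply funext
    intro (t : Fin 2 → V)
    have h4 : red P () ![t 0, t 1] = red Q () ![t 0, t 1] := propext (h2 _ _)
    rw [← key t] at h4
    exact h4
  · apply funext
    intro (t : Fin 2 → V)
    have h4 : lt' P (t 0) (t 1) = lt' Q (t 0) (t 1) := propext (h1 _ _)
    unfold lt' at h4
    rw [← key t] at h4
    exact h4

private theorem h99_enum (h : IsLimit (ordC Gr) M I) {n : ℕ} (f : Fin n → M) (hf : Function.Injective f) :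
    ∃ e : Fin n ≃ Fin n, (∀ x y, lt' I (f (e x)) (f (e y)) ↔ x < y) ∧
      (∀ x, ¬ red I () ![f x, f x]) ∧ ∀ x y, red I () ![f x, f y] → red I () ![f y, f x] := by
  obtain ⟨e, h1, h2, h3⟩ := (h.age n (pull f I)).2 ⟨f, hf, rfl⟩
  have key : ∀ x y, pull e (red (pull f I)) () ![x, y] ↔ red I () ![f (e x), f (e y)] := by
    intro x y
    have h4 : (fun i => f (e ((![x, y] : Fin 2 → Fin n) i))) = (![f (e x), f (e y)] : Fin 2 → M) := by
      funext i
      fin_cases i <;> rfl
    exact iff_of_eq (congrArg (fun t : Fin 2 → M => I (Sum.inl ()) t) h4)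
  refine ⟨e, fun x y => ?_, fun x hx => ?_, fun x y hxy => ?_⟩
  · rw [← h1 x y, h99_lt_pull]
  · apply h2 (e.symm x)
    rw [key, Equiv.apply_symm_apply]
    exact hx
  · have h4 := h3 (e.symm x) (e.symm y)
    rw [key, key, Equiv.apply_symm_apply, Equiv.apply_symm_apply] at h4
    exact h4 hxy

private theorem h99_lin (h : IsLimit (ordC Gr) M I) {n : ℕ} (f : Fin n → M) (hf : Function.Injective f) :
    ∃ r : Fin n → Fin n, Function.Injective r ∧ ∀ a b, lt' I (f a) (f b) ↔ r a < r b := by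
  obtain ⟨e, h1, -⟩ := h99_enum h f hf
  refine ⟨e.symm, e.symm.injective, fun a b => ?_⟩
  rw [← h1, Equiv.apply_symm_apply, Equiv.apply_symm_apply]

private theorem h99_inj2 {x y : M} (hxy : x ≠ y) : Function.Injective (![x, y] : Fin 2 → M) := by
  intro a b hab
  fin_cases a <;> fin_cases b <;> simp_all

private theorem h99_inj3 {x y z : M} (h1 : x ≠ y) (h2 : x ≠ z) (h3 : y ≠ z) :
    Function.Injective (![x, y, z] : Fin 3 → M) := by
  intro a b hab
  fin_cases a <;> fin_cases b <;> simp_all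

private theorem h99_irr (h : IsLimit (ordC Gr) M I) (x : M) : ¬ lt' I x x := by
  obtain ⟨r, -, h1⟩ := h99_lin h (fun _ : Fin 1 => x) (Function.injective_of_subsingleton _)
  intro h2
  exact lt_irrefl _ ((h1 0 0).1 h2)

private theorem h99_tot (h : IsLimit (ordC Gr) M I) {x y : M} (hxy : x ≠ y) : lt' I x y ∨ lt' I y x := by
  obtain ⟨r, hr, h1⟩ := h99_lin h ![x, y] (h99_inj2 hxy)
  have h2 : r 0 ≠ r 1 := fun h3 => absurd (hr h3) (by decide)
  rcases lt_or_gt_of_ne h2 with h3 | h3
  · exact Or.inl ((h1 0 1).2 h3)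
  · exact Or.inr ((h1 1 0).2 h3)

private theorem h99_asymm (h : IsLimit (ordC Gr) M I) {x y : M} (h1 : lt' I x y) : ¬ lt' I y x := by
  intro h2
  by_cases hxy : x = y
  · rw [hxy] at h1
    exact h99_irr h y h1
  · obtain ⟨r, hr, h3⟩ := h99_lin h ![x, y] (h99_inj2 hxy)
    have h4 := (h3 0 1).1 h1
    have h5 := (h3 1 0).1 h2
    exact lt_asymm h4 h5

private theorem h99_ne (h : IsLimit (ordC Gr) M I) {x y : M} (h1 : lt' I x y) : x ≠ y := by
  rintro rfl
  exact h99_irr h x h1

private theorem h99_trans (h : IsLimit (ordC Gr) M I) {x y z : M} (h1 : lt' I x y) (h2 : lt' I y z) :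
    lt' I x z := by
  by_cases hxz : x = z
  · rw [hxz] at h1
    exact absurd h1 (h99_asymm h h2)
  · obtain ⟨r, hr, h3⟩ := h99_lin h ![x, y, z] (h99_inj3 (h99_ne h h1) hxz (h99_ne h h2))
    have h4 := (h3 0 1).1 h1
    have h5 := (h3 1 2).1 h2
    exact (h3 0 2).2 (h4.trans h5)

private theorem h99_gi (h : IsLimit (ordC Gr) M I) (x : M) : ¬ red I () ![x, x] := by
  obtain ⟨e, -, h1, -⟩ := h99_enum h (fun _ : Fin 1 => x) (Function.injective_of_subsingleton _)
  exact h1 0

private theorem h99_gs (h : IsLimit (ordC Gr) M I) (x y : M) : red I () ![x, y] ↔ red I () ![y, x] := by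
  have key : ∀ x y : M, red I () ![x, y] → red I () ![y, x] := by
    intro x y hxy
    by_cases h0 : x = y
    · rw [h0] at hxy ⊢
      exact hxy
    · obtain ⟨e, -, -, h1⟩ := h99_enum h ![x, y] (h99_inj2 h0)
      exact h1 0 1 hxy
  exact ⟨key x y, key y x⟩

private theorem h99_perm3 : ∀ σ : Equiv.Perm (Fin 3),
    (σ 0 = 0 ∧ σ 1 = 1 ∧ σ 2 = 2 ∧ Equiv.Perm.sign σ = 1) ∨
    (σ 0 = 1 ∧ σ 1 = 2 ∧ σ 2 = 0 ∧ Equiv.Perm.sign σ = 1) ∨
    (σ 0 = 2 ∧ σ 1 = 0 ∧ σ 2 = 1 ∧ Equiv.Perm.sign σ = 1) ∨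
    (σ 0 = 1 ∧ σ 1 = 0 ∧ σ 2 = 2 ∧ Equiv.Perm.sign σ = -1) ∨
    (σ 0 = 0 ∧ σ 1 = 2 ∧ σ 2 = 1 ∧ Equiv.Perm.sign σ = -1) ∨
    (σ 0 = 2 ∧ σ 1 = 1 ∧ σ 2 = 0 ∧ Equiv.Perm.sign σ = -1) := by
  decide

private theorem h99_cyc3 : ∀ x y z : Fin 3, x ≠ y → x ≠ z → y ≠ z →
    (((y < x ∧ x < z) ∨ (x < z ∧ z < y) ∨ (z < y ∧ y < x)) ↔
      ¬ ((x < y ∧ y < z) ∨ (y < z ∧ z < x) ∨ (z < x ∧ x < y))) := by
  decide

private theorem h99_cyc_rot {a b c : M} : Cyc I b c a ↔ Cyc I a b c := by
  unfold Cyc
  tauto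

private theorem h99_cyc_swap (h : IsLimit (ordC Gr) M I) {a b c : M} (h1 : a ≠ b) (h2 : a ≠ c) (h3 : b ≠ c) :
    Cyc I b a c ↔ ¬ Cyc I a b c := by
  obtain ⟨r, hr, h4⟩ := h99_lin h ![a, b, c] (h99_inj3 h1 h2 h3)
  have hab : lt' I a b ↔ r 0 < r 1 := h4 0 1
  have hba : lt' I b a ↔ r 1 < r 0 := h4 1 0
  have hac : lt' I a c ↔ r 0 < r 2 := h4 0 2
  have hca : lt' I c a ↔ r 2 < r 0 := h4 2 0
  have hbc : lt' I b c ↔ r 1 < r 2 := h4 1 2
  have hcb : lt' I c b ↔ r 2 < r 1 := h4 2 1
  unfold Cyc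
  rw [hab, hba, hac, hca, hbc, hcb]
  exact h99_cyc3 (r 0) (r 1) (r 2) (fun h5 => absurd (hr h5) (by decide))
    (fun h5 => absurd (hr h5) (by decide)) (fun h5 => absurd (hr h5) (by decide))

private theorem h99_phi_perm (h : IsLimit (ordC Gr) M I) (t : Fin 3 → M) (ht : Function.Injective t)
    (σ : Equiv.Perm (Fin 3)) :
    PhiG M I () (fun i => t (σ i)) ↔ (PhiG M I () t ↔ Equiv.Perm.sign σ = 1) := by
  have ht' : Function.Injective (fun i => t (σ i)) := ht.comp σ.injective
  have h01 : t 0 ≠ t 1 := fun h5 => absurd (ht h5) (by decide)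
  have h02 : t 0 ≠ t 2 := fun h5 => absurd (ht h5) (by decide)
  have h12 : t 1 ≠ t 2 := fun h5 => absurd (ht h5) (by decide)
  have s1 := h99_gs h (t 1) (t 0)
  have s2 := h99_gs h (t 2) (t 0)
  have s3 := h99_gs h (t 2) (t 1)
  have c1 : Cyc I (t 1) (t 2) (t 0) ↔ Cyc I (t 0) (t 1) (t 2) := h99_cyc_rot
  have c2 : Cyc I (t 2) (t 0) (t 1) ↔ Cyc I (t 0) (t 1) (t 2) := h99_cyc_rot.symm
  have c3 := h99_cyc_swap h h01 h02 h12
  have c4 : Cyc I (t 0) (t 2) (t 1) ↔ Cyc I (t 1) (t 0) (t 2) := h99_cyc_rot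
  have c5 : Cyc I (t 2) (t 1) (t 0) ↔ Cyc I (t 0) (t 2) (t 1) := h99_cyc_rot
  unfold PhiG
  simp only [ht, ht', true_and]
  rcases h99_perm3 σ with ⟨e0, e1, e2, es⟩ | ⟨e0, e1, e2, es⟩ | ⟨e0, e1, e2, es⟩ | ⟨e0, e1, e2, es⟩ |
    ⟨e0, e1, e2, es⟩ | ⟨e0, e1, e2, es⟩
  · rw [e0, e1, e2, es]
    simp
  · rw [e0, e1, e2, es, c1, s1, s2]
    simp only [iff_true]
    generalize red I () ![t 0, t 1] = p1
    generalize red I () ![t 0, t 2] = p2
    generalize red I () ![t 1, t 2] = p3
    generalize Cyc I (t 0) (t 1) (t 2) = p4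
    by_cases p1 <;> by_cases p2 <;> by_cases p3 <;> by_cases p4 <;> simp_all [Xor']
  · rw [e0, e1, e2, es, c2, s2, s3]
    simp only [iff_true]
    generalize red I () ![t 0, t 1] = p1
    generalize red I () ![t 0, t 2] = p2
    generalize red I () ![t 1, t 2] = p3
    generalize Cyc I (t 0) (t 1) (t 2) = p4
    by_cases p1 <;> by_cases p2 <;> by_cases p3 <;> by_cases p4 <;> simp_all [Xor']
  · rw [e0, e1, e2, es, c3, s1]
    generalize red I () ![t 0, t 1] = p1
    generalize red I () ![t 0, t 2] = p2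
    generalize red I () ![t 1, t 2] = p3
    generalize Cyc I (t 0) (t 1) (t 2) = p4
    have hs : ¬ ((-1 : ℤˣ) = 1) := by decide
    by_cases p1 <;> by_cases p2 <;> by_cases p3 <;> by_cases p4 <;> simp_all [Xor']
  · rw [e0, e1, e2, es, c4, c3, s3]
    generalize red I () ![t 0, t 1] = p1
    generalize red I () ![t 0, t 2] = p2
    generalize red I () ![t 1, t 2] = p3
    generalize Cyc I (t 0) (t 1) (t 2) = p4
    have hs : ¬ ((-1 : ℤˣ) = 1) := by decide
    by_cases p1 <;> by_cases p2 <;> by_cases p3 <;> by_cases p4 <;> simp_all [Xor']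
  · rw [e0, e1, e2, es, c5, c4, c3, s1, s2, s3]
    generalize red I () ![t 0, t 1] = p1
    generalize red I () ![t 0, t 2] = p2
    generalize red I () ![t 1, t 2] = p3
    generalize Cyc I (t 0) (t 1) (t 2) = p4
    have hs : ¬ ((-1 : ℤˣ) = 1) := by decide
    by_cases p1 <;> by_cases p2 <;> by_cases p3 <;> by_cases p4 <;> simp_all [Xor']

private theorem h99_inc (h : IsLimit (ordC Gr) M I) (t : Fin 3 → M) (h1 : lt' I (t 0) (t 1))
    (h2 : lt' I (t 1) (t 2)) : PhiG M I () t ↔
      Xor' (red I () ![t 0, t 1]) (Xor' (red I () ![t 0, t 2]) (red I () ![t 1, t 2])) := by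
  have hc : Cyc I (t 0) (t 1) (t 2) := Or.inl ⟨h1, h2⟩
  have ht : Function.Injective t := by
    have h3 := h99_inj3 (h99_ne h h1) (h99_ne h (h99_trans h h1 h2)) (h99_ne h h2)
    have h4 : t = ![t 0, t 1, t 2] := by
      funext i
      fin_cases i <;> rfl
    rw [h4]
    exact h3
  unfold PhiG
  simp only [ht, hc, true_and, iff_true]

private theorem h99_ht (h : IsLimit (ordC Gr) M I) {n : ℕ} (f : Fin n → M) (hf : Function.Injective f) :
    IsHT (pull f (PhiG M I)) := by
  constructor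
  · intro t ht
    have h1 : Function.Injective (fun i => f (t i)) := ht.1
    exact h1.of_comp
  · intro t ht σ
    exact h99_phi_perm h (fun i => f (t i)) (hf.comp ht) σ

private theorem h99_ty {V : Type} (J : Str (fun _ : Unit => 3) V) (u : Fin 4 → V) :
    ty J u ∈ ({0, 2} : Set ℕ) ↔ ¬ Xor' (Xor' (J () ![u 1, u 2, u 3]) (J () ![u 0, u 2, u 3]))
      (Xor' (J () ![u 0, u 1, u 3]) (J () ![u 0, u 1, u 2])) := by
  classical
  have e0 : (fun j => u ((0 : Fin 4).succAbove j)) = ![u 1, u 2, u 3] := by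
    funext j; fin_cases j <;> rfl
  have e1 : (fun j => u ((1 : Fin 4).succAbove j)) = ![u 0, u 2, u 3] := by
    funext j; fin_cases j <;> rfl
  have e2 : (fun j => u ((2 : Fin 4).succAbove j)) = ![u 0, u 1, u 3] := by
    funext j; fin_cases j <;> rfl
  have e3 : (fun j => u ((3 : Fin 4).succAbove j)) = ![u 0, u 1, u 2] := by
    funext j; fin_cases j <;> rfl
  have y0 : yb J u 0 ↔ J () ![u 1, u 2, u 3] := by
    unfold yb
    rw [e0]
    simp
  have y1 : yb J u 1 ↔ ¬ J () ![u 0, u 2, u 3] := by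
    unfold yb
    rw [e1]
    have : ¬ Even ((1 : Fin 4) : ℕ) := by decide
    simp only [this, iff_false]
  have y2 : yb J u 2 ↔ J () ![u 0, u 1, u 3] := by
    unfold yb
    rw [e2]
    have : Even ((2 : Fin 4) : ℕ) := by decide
    simp only [this, iff_true]
  have y3 : yb J u 3 ↔ ¬ J () ![u 0, u 1, u 2] := by
    unfold yb
    rw [e3]
    have : ¬ Even ((3 : Fin 4) : ℕ) := by decide
    simp only [this, iff_false]
  unfold ty
  rw [Finset.card_filter, Finset.card_filter, Fin.sum_univ_four, Fin.sum_univ_four]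
  simp only [y0, y1, y2, y3]
  generalize J () ![u 1, u 2, u 3] = p1
  generalize J () ![u 0, u 2, u 3] = p2
  generalize J () ![u 0, u 1, u 3] = p3
  generalize J () ![u 0, u 1, u 2] = p4
  by_cases p1 <;> by_cases p2 <;> by_cases p3 <;> by_cases p4 <;> simp_all [Xor']

private theorem h99_her : Hereditary (KT {0, 2}) := by
  rintro m n f J hf ⟨h1, h2⟩
  refine ⟨⟨fun t ht => ?_, fun t ht σ => ?_⟩, fun u hu => ?_⟩
  · have h3 : Function.Injective (fun i => f (t i)) := h1.1 _ ht
    exact h3.of_comp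
  · exact h1.2 (fun i => f (t i)) (hf.comp ht) σ
  · exact h2 (fun i => f (u i)) (hf.comp hu)

private theorem h99_age (h : IsLimit (ordC Gr) M I) {n : ℕ} (f : Fin n → M) (hf : Function.Injective f) :
    KT {0, 2} n (pull f (PhiG M I)) := by
  refine ⟨h99_ht h f hf, fun u hu => ?_⟩
  obtain ⟨e, he, -⟩ := h99_enum h (fun i => f (u i)) (hf.comp hu)
  rw [← ty_perm _ (h99_ht h f hf) u hu e, h99_ty]
  have l01 : lt' I (f (u (e 0))) (f (u (e 1))) := (he 0 1).2 (by decide)
  have l12 : lt' I (f (u (e 1))) (f (u (e 2))) := (he 1 2).2 (by decide)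
  have l02 : lt' I (f (u (e 0))) (f (u (e 2))) := (he 0 2).2 (by decide)
  have l13 : lt' I (f (u (e 1))) (f (u (e 3))) := (he 1 3).2 (by decide)
  have l23 : lt' I (f (u (e 2))) (f (u (e 3))) := (he 2 3).2 (by decide)
  have k0 := h99_inc h (fun i => f ((![u (e 1), u (e 2), u (e 3)] : Fin 3 → Fin n) i)) l12 l23
  have k1 := h99_inc h (fun i => f ((![u (e 0), u (e 2), u (e 3)] : Fin 3 → Fin n) i)) l02 l23
  have k2 := h99_inc h (fun i => f ((![u (e 0), u (e 1), u (e 3)] : Fin 3 → Fin n) i)) l01 l13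
  have k3 := h99_inc h (fun i => f ((![u (e 0), u (e 1), u (e 2)] : Fin 3 → Fin n) i)) l01 l12
  have k0' : pull f (PhiG M I) () ![u (e 1), u (e 2), u (e 3)] ↔ _ := k0
  have k1' : pull f (PhiG M I) () ![u (e 0), u (e 2), u (e 3)] ↔ _ := k1
  have k2' : pull f (PhiG M I) () ![u (e 0), u (e 1), u (e 3)] ↔ _ := k2
  have k3' : pull f (PhiG M I) () ![u (e 0), u (e 1), u (e 2)] ↔ _ := k3
  rw [k0', k1', k2', k3']
  simp only [Matrix.cons_val_zero, Matrix.cons_val_one, Matrix.cons_val]
  generalize red I () ![f (u (e 0)), f (u (e 1))] = p1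
  generalize red I () ![f (u (e 0)), f (u (e 2))] = p2
  generalize red I () ![f (u (e 0)), f (u (e 3))] = p3
  generalize red I () ![f (u (e 1)), f (u (e 2))] = p4
  generalize red I () ![f (u (e 1)), f (u (e 3))] = p5
  generalize red I () ![f (u (e 2)), f (u (e 3))] = p6
  by_cases p1 <;> by_cases p2 <;> by_cases p3 <;> by_cases p4 <;> by_cases p5 <;> by_cases p6 <;>
    simp_all [Xor']

/-- The edges to the new point. -/
private theorem h99_gz (h : IsLimit (ordC Gr) M I) {n : ℕ} (f : Fin n → M) (hf : Function.Injective f)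
    (J : Str (fun _ : Unit => 3) (Fin (n + 1))) (hJ : KT {0, 2} (n + 1) J)
    (hfJ : pull Fin.castSucc J = pull f (PhiG M I)) :
    ∃ gz : Fin n → Prop, ∀ i j, lt' I (f i) (f j) →
      (J () ![Fin.castSucc i, Fin.castSucc j, Fin.last n] ↔
        Xor' (red I () ![f i, f j]) (Xor' (gz i) (gz j))) := by
  rcases Nat.eq_zero_or_pos n with hn | hn
  · subst hn
    exact ⟨fun i => i.elim0, fun i => i.elim0⟩
  obtain ⟨e, he, -⟩ := h99_enum h f hf
  obtain ⟨o, ho⟩ : ∃ o : Fin n, ∀ i, i ≠ o → lt' I (f o) (f i) := by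
    refine ⟨e ⟨0, hn⟩, fun i hi => ?_⟩
    have h1 : (⟨0, hn⟩ : Fin n) < e.symm i := by
      have h2 : e.symm i ≠ ⟨0, hn⟩ := by
        intro h3
        apply hi
        rw [← h3, Equiv.apply_symm_apply]
      rw [Fin.lt_def]
      apply Nat.pos_of_ne_zero
      intro h3
      exact h2 (Fin.ext h3)
    have h2 := (he _ _).2 h1
    rwa [Equiv.apply_symm_apply] at h2
  refine ⟨fun i => i ≠ o ∧ Xor' (J () ![Fin.castSucc o, Fin.castSucc i, Fin.last n]) (red I () ![f o, f i]),
    fun i j hij => ?_⟩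
  have hjo : j ≠ o := by
    rintro rfl
    by_cases hi : i = j
    · rw [hi] at hij
      exact h99_irr h _ hij
    · exact h99_asymm h (ho i hi) hij
  by_cases hio : i = o
  · subst hio
    simp only [ne_eq, not_true_eq_false, false_and, hjo, not_false_eq_true, true_and]
    generalize J () ![Fin.castSucc i, Fin.castSucc j, Fin.last n] = p1
    generalize red I () ![f i, f j] = p2
    by_cases p1 <;> by_cases p2 <;> simp_all [Xor']
  · simp only [ne_eq, hio, hjo, not_false_eq_true, true_and]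
    have hij' : i ≠ j := fun h1 => h99_ne h hij (by rw [h1])
    have hu : Function.Injective (![Fin.castSucc o, Fin.castSucc i, Fin.castSucc j, Fin.last n] :
        Fin 4 → Fin (n + 1)) := by
      have a1 : Fin.castSucc o ≠ Fin.castSucc i := fun h1 => hio (Fin.castSucc_injective n h1).symm
      have a2 : Fin.castSucc o ≠ Fin.castSucc j := fun h1 => hjo (Fin.castSucc_injective n h1).symm
      have a3 : Fin.castSucc i ≠ Fin.castSucc j := fun h1 => hij' (Fin.castSucc_injective n h1)
      have a4 : ∀ v : Fin n, Fin.castSucc v ≠ Fin.last n := fun v => (Fin.castSucc_lt_last v).ne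
      intro a b hab
      fin_cases a <;> fin_cases b <;> first | rfl | (exfalso; revert hab; simp only [Fin.zero_eta, Fin.mk_one, Fin.reduceFinMk, Matrix.cons_val_zero, Matrix.cons_val_one, Matrix.cons_val]; intro hab; first | exact a1 hab | exact a1 hab.symm | exact a2 hab | exact a2 hab.symm | exact a3 hab | exact a3 hab.symm | exact a4 _ hab | exact a4 _ hab.symm)
    have h1 := (h99_ty J _).1 (hJ.2 _ hu)
    simp only [Matrix.cons_val_zero, Matrix.cons_val_one, Matrix.cons_val] at h1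
    have h2 : J () ![Fin.castSucc o, Fin.castSucc i, Fin.castSucc j] ↔
        Xor' (red I () ![f o, f i]) (Xor' (red I () ![f o, f j]) (red I () ![f i, f j])) := by
      have h3 := h99_inc h (fun k => f ((![o, i, j] : Fin 3 → Fin n) k)) (ho i hio) hij
      have h4 := congrFun (congrFun hfJ ()) ![o, i, j]
      have h5 : (fun k => Fin.castSucc ((![o, i, j] : Fin 3 → Fin n) k)) =
          ![Fin.castSucc o, Fin.castSucc i, Fin.castSucc j] := by
        funext k; fin_cases k <;> rfl
      have h6 : J () (fun k => Fin.castSucc ((![o, i, j] : Fin 3 → Fin n) k)) =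
        PhiG M I () (fun k => f ((![o, i, j] : Fin 3 → Fin n) k)) := h4
      rw [h5] at h6
      rw [h6]
      exact h3
    rw [h2] at h1
    generalize J () ![Fin.castSucc i, Fin.castSucc j, Fin.last n] = p1 at *
    generalize J () ![Fin.castSucc o, Fin.castSucc j, Fin.last n] = p2 at *
    generalize J () ![Fin.castSucc o, Fin.castSucc i, Fin.last n] = p3 at *
    generalize red I () ![f o, f i] = p4 at *
    generalize red I () ![f o, f j] = p5 at *
    generalize red I () ![f i, f j] = p6 at *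
    clear h2 hu hfJ hJ
    by_cases p1 <;> by_cases p2 <;> by_cases p3 <;> by_cases p4 <;> by_cases p5 <;> by_cases p6 <;>
      simp_all [Xor']

end h99aux

theorem even_limit {M : Type} {I : Str (arO (fun _ : Unit => 2)) M} (h : IsLimit (ordC Gr) M I) :
    IsLimit (KT {0, 2}) M (PhiG M I) := by
  classical
  have _ := h.ctb
  refine isLimit_of_ext (fun _ => by norm_num) (KT {0, 2}) h99_her M (PhiG M I)
    (fun n f hf => h99_age h f hf) ?_
  intro n f J hf hJ hfJ
  obtain ⟨gz, hgz⟩ := h99_gz h f hf J hJ hfJ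
  -- the ordered graph
  let L2 : (Fin (n + 1)) → (Fin (n + 1)) → Prop := fun a b =>
    Fin.lastCases (motive := fun _ => Prop) False
      (fun i => Fin.lastCases (motive := fun _ => Prop) True (fun j => lt' I (f i) (f j)) b) a
  let G2 : (Fin (n + 1)) → (Fin (n + 1)) → Prop := fun a b =>
    Fin.lastCases (motive := fun _ => Prop)
      (Fin.lastCases (motive := fun _ => Prop) False (fun j => gz j) b)
      (fun i => Fin.lastCases (motive := fun _ => Prop) (gz i) (fun j => red I () ![f i, f j]) b) a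
  have L11 : ∀ i j : Fin n, L2 (Fin.castSucc i) (Fin.castSucc j) ↔ lt' I (f i) (f j) := by
    intro i j; simp [L2]
  have L12 : ∀ i : Fin n, L2 (Fin.castSucc i) (Fin.last n) := by
    intro i; simp [L2]
  have L2x : ∀ b, ¬ L2 (Fin.last n) b := by
    intro b; simp [L2]
  have G11 : ∀ i j : Fin n, G2 (Fin.castSucc i) (Fin.castSucc j) ↔ red I () ![f i, f j] := by
    intro i j; simp [G2]
  have G12 : ∀ i : Fin n, G2 (Fin.castSucc i) (Fin.last n) ↔ gz i := by
    intro i; simp [G2]
  have G21 : ∀ i : Fin n, G2 (Fin.last n) (Fin.castSucc i) ↔ gz i := by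
    intro i; simp [G2]
  have G22 : ¬ G2 (Fin.last n) (Fin.last n) := by
    simp [G2]
  let L : Str (arO (fun _ : Unit => 2)) (Fin (n + 1)) := fun s =>
    match s with
    | Sum.inl _ => fun t : Fin 2 → Fin (n + 1) => G2 (t 0) (t 1)
    | Sum.inr _ => fun t : Fin 2 → Fin (n + 1) => L2 (t 0) (t 1)
  have Llt : ∀ a b, lt' L a b ↔ L2 a b := fun a b => Iff.rfl
  have Lg : ∀ a b, red L () ![a, b] ↔ G2 a b := fun a b => Iff.rfl
  have Lirr : ∀ a, ¬ L2 a a := by
    intro a
    refine Fin.lastCases (L2x _) (fun i => ?_) a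
    rw [L11]
    exact h99_irr h _
  have Ltot : ∀ a b, a ≠ b → L2 a b ∨ L2 b a := by
    intro a b
    refine Fin.lastCases ?_ (fun i => ?_) a
    · refine Fin.lastCases (fun h1 => (h1 rfl).elim) (fun j _ => Or.inr (L12 j)) b
    · refine Fin.lastCases (fun _ => Or.inl (L12 i)) (fun j hij => ?_) b
      rw [L11, L11]
      exact h99_tot h (fun h1 => hij (by rw [hf h1]))
  have Ltr : ∀ a b c, L2 a b → L2 b c → L2 a c := by
    intro a b c
    refine Fin.lastCases (fun h1 => (L2x _ h1).elim) (fun i => ?_) a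
    refine Fin.lastCases (fun _ h2 => (L2x _ h2).elim) (fun j => ?_) b
    refine Fin.lastCases (fun _ _ => L12 i) (fun k h1 h2 => ?_) c
    rw [L11] at h1 h2 ⊢
    exact h99_trans h h1 h2
  have hL : ordC Gr (n + 1) L := by
    obtain ⟨e, he⟩ := exists_enum L2 Lirr Ltot Ltr
    refine ⟨e, fun x y => he x y, ?_, ?_⟩
    · intro x
      change ¬ G2 (e x) (e x)
      refine Fin.lastCases G22 (fun i => ?_) (e x)
      rw [G11]
      exact h99_gi h _
    · intro x y
      change G2 (e x) (e y) → G2 (e y) (e x)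
      refine Fin.lastCases ?_ (fun i => ?_) (e x)
      · refine Fin.lastCases (fun h1 => h1) (fun j h1 => ?_) (e y)
        rw [G12]
        exact (G21 j).1 h1
      · refine Fin.lastCases (fun h1 => ?_) (fun j h1 => ?_) (e y)
        · rw [G21]
          exact (G12 i).1 h1
        · rw [G11] at h1 ⊢
          exact (h99_gs h _ _).1 h1
  have hfL : pull Fin.castSucc L = pull f I := by
    apply h99_ext
    · intro a b
      rw [h99_lt_pull, h99_lt_pull]
      exact L11 a b
    · intro a b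
      rw [h99_red_pull, h99_red_pull]
      exact G11 a b
  obtain ⟨x, hx, hxL⟩ := h.ext f hf L hL hfL
  refine ⟨x, hx, ?_⟩
  set F : Fin (n + 1) → M := Fin.snoc f x with hFdef
  have F1 : ∀ i : Fin n, F (Fin.castSucc i) = f i := fun i => by rw [hFdef, Fin.snoc_castSucc]
  have hF : Function.Injective F := by
    intro a b
    refine Fin.lastCases ?_ (fun i => ?_) a
    · refine Fin.lastCases (fun _ => rfl) (fun j h1 => ?_) b
      rw [hFdef, Fin.snoc_last, Fin.snoc_castSucc] at h1
      exact (hx ⟨j, h1.symm⟩).elim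
    · refine Fin.lastCases (fun h1 => ?_) (fun j h1 => ?_) b
      · rw [hFdef, Fin.snoc_last, Fin.snoc_castSucc] at h1
        exact (hx ⟨i, h1⟩).elim
      · rw [F1, F1] at h1
        rw [hf h1]
  have hlt : ∀ a b, lt' I (F a) (F b) ↔ L2 a b := by
    intro a b
    rw [← h99_lt_pull, hxL]
    exact Iff.rfl
  have hg : ∀ a b, red I () ![F a, F b] ↔ G2 a b := by
    intro a b
    rw [← h99_red_pull, hxL]
    exact Iff.rfl
  have hT := h99_ht h F hF
  funext s t
  obtain rfl : s = () := rfl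
  apply propext
  by_cases ht : Function.Injective t
  swap
  · exact ⟨fun h1 => (ht (hT.1 t h1)).elim, fun h1 => (ht (hJ.1.1 t h1)).elim⟩
  obtain ⟨e, he⟩ := exists_enum (fun x y => L2 (t x) (t y)) (fun _ => Lirr _)
    (fun x y hxy => Ltot _ _ (fun h1 => hxy (ht h1))) (fun _ _ _ => Ltr _ _ _)
  -- it is enough to consider increasing tuples
  have hinc : ∀ w : Fin 3 → Fin (n + 1), L2 (w 0) (w 1) → L2 (w 1) (w 2) →
      (pull F (PhiG M I) () w ↔ J () w) := by
    intro w h01 h12
    have h1 : pull F (PhiG M I) () w ↔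
        Xor' (red I () ![F (w 0), F (w 1)]) (Xor' (red I () ![F (w 0), F (w 2)]) (red I () ![F (w 1), F (w 2)])) :=
      h99_inc h (fun i => F (w i)) ((hlt _ _).2 h01) ((hlt _ _).2 h12)
    rw [h1, hg, hg, hg]
    have hw : w = ![w 0, w 1, w 2] := by
      funext i
      fin_cases i <;> rfl
    rw [hw]
    generalize w 0 = a at *
    generalize w 1 = b at *
    generalize w 2 = c at *
    clear hw
    simp only [Matrix.cons_val_zero, Matrix.cons_val_one, Matrix.cons_val]
    revert h01 h12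
    refine Fin.lastCases (fun h1 => (L2x _ h1).elim) (fun i => ?_) a
    refine Fin.lastCases (fun _ h2 => (L2x _ h2).elim) (fun j => ?_) b
    refine Fin.lastCases (fun h1 _ => ?_) (fun k h1 h2 => ?_) c
    · rw [G11, G12, G12, hgz i j ((L11 i j).1 h1)]
    · rw [G11, G11, G11]
      have h3 := h99_inc h (fun u => f ((![i, j, k] : Fin 3 → Fin n) u)) ((L11 i j).1 h1) ((L11 j k).1 h2)
      have h4 : J () (fun u => Fin.castSucc ((![i, j, k] : Fin 3 → Fin n) u)) =
        PhiG M I () (fun u => f ((![i, j, k] : Fin 3 → Fin n) u)) := congrFun (congrFun hfJ ()) ![i, j, k]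
      have h5 : (fun u => Fin.castSucc ((![i, j, k] : Fin 3 → Fin n) u)) =
          ![Fin.castSucc i, Fin.castSucc j, Fin.castSucc k] := by
        funext u; fin_cases u <;> rfl
      rw [h5] at h4
      rw [h4, h3]
      rfl
  have h1 := hinc (fun i => t (e i)) ((he 0 1).2 (by decide)) ((he 1 2).2 (by decide))
  have h2 := hT.2 t ht e
  have h3 := hJ.1.2 t ht e
  rw [h2, h3] at h1
  by_cases hs : Equiv.Perm.sign e = 1
  · simpa [hs] using h1
  · simp only [hs, iff_false] at h1
    exact not_iff_not.1 h1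

end Pool.Agent.Helper31.NR
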