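import Pool.Agent.Helper31.NR.Lim

/-!
# Existence of the Fraisse limit (countably many structures of each size)

PROOF.  By `isLimit_of_ext` it is enough to construct a countable `(M, I)` with age contained in `K` and the extension property.
A state is a number `n` and a structure `L` on `ℕ` whose restriction to `Fin n` is in `K`; states are ordered by extension.  A task is
`(m, f, J)` with `f : Fin m → ℕ` and `J` a structure on `Fin (m + 1)`; there are countably many tasks (`S` is finite).  By `step`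
(amalgamation and relabelling) every state has an extension in which a given task is either solved or never again posed.  An ideal which meets
all these cofinal sets gives the limit.
-/

set_option autoImplicit false

namespace Pool.Agent.Helper31.NR

/-- A state: `L` restricted to `Fin n` is in `K`. -/
private structure St {S : Type} {ar : S → ℕ} (K : Cls ar) where
  n : ℕ
  L : Str ar ℕ
  mem : K n (pull (fun i : Fin n => (i : ℕ)) L)

private instance {S : Type} {ar : S → ℕ} (K : Cls ar) : Preorder (St K) where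
  le R R' := R.n ≤ R'.n ∧ ∀ (s : S) (t : Fin (ar s) → ℕ), (∀ i, t i < R.n) → (R.L s t ↔ R'.L s t)
  le_refl R := ⟨le_refl _, fun _ _ _ => Iff.rfl⟩
  le_trans R R' R'' h h' := ⟨h.1.trans h'.1, fun s t ht =>
    (h.2 s t ht).trans (h'.2 s t (fun i => (ht i).trans_le h.1))⟩

/-- The structure on `ℕ` with no relations outside `Fin n`. -/
private def up {S : Type} {ar : S → ℕ} {n : ℕ} (I : Str ar (Fin n)) : Str ar ℕ :=
  fun s t => ∃ h : ∀ i, t i < n, I s (fun i => ⟨t i, h i⟩)

private theorem pull_up {S : Type} {ar : S → ℕ} {n : ℕ} (I : Str ar (Fin n)) :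
    pull (fun i : Fin n => (i : ℕ)) (up I) = I := by
  funext s t
  apply propext
  constructor
  · rintro ⟨h, hI⟩
    exact hI
  · intro h
    exact ⟨fun i => (t i).2, h⟩

/-- The task `(m, f, J)` is posed at `R`. -/
private def Posed {S : Type} {ar : S → ℕ} {K : Cls ar} {m : ℕ} (f : Fin m → ℕ) (J : Str ar (Fin (m + 1)))
    (R : St K) : Prop :=
  (∀ i, f i < R.n) ∧ Function.Injective f ∧ K (m + 1) J ∧ pull Fin.castSucc J = pull f R.L

/-- The task is solved at `R`. -/
private def Solved {S : Type} {ar : S → ℕ} {K : Cls ar} {m : ℕ} (f : Fin m → ℕ) (J : Str ar (Fin (m + 1)))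
    (R : St K) : Prop :=
  (∀ i, f i < R.n) ∧ ∃ x < R.n, x ∉ Set.range f ∧ pull (Fin.snoc f x : Fin (m + 1) → ℕ) R.L = J

private theorem Posed.mono {S : Type} {ar : S → ℕ} {K : Cls ar} {m : ℕ} {f : Fin m → ℕ} {J : Str ar (Fin (m + 1))}
    {R R' : St K} (h : R ≤ R') (hP : Posed f J R) : Posed f J R' := by
  obtain ⟨h1, h2, h3, h4⟩ := hP
  refine ⟨fun i => (h1 i).trans_le h.1, h2, h3, ?_⟩
  rw [h4]
  funext s t
  exact propext (h.2 s (fun i => f (t i)) (fun i => h1 _))

private theorem step {S : Type} {ar : S → ℕ} {K : Cls ar} (hK : IsFraisse K) {m : ℕ} (f : Fin m → ℕ)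
    (J : Str ar (Fin (m + 1))) (R : St K) (hP : Posed f J R) : ∃ R' : St K, R ≤ R' ∧ Solved f J R' := by
  classical
  obtain ⟨h1, h2, h3, h4⟩ := hP
  let f0 : Fin m → Fin R.n := fun i => ⟨f i, h1 i⟩
  have hf0 : Function.Injective f0 := fun a b hab => h2 (congrArg Fin.val hab)
  obtain ⟨p, Lp, f', g', hf', hg', hKp, hfL, hgL, hfg⟩ := hK.amal m R.n (m + 1)
    (pull (fun i : Fin R.n => (i : ℕ)) R.L) J f0 Fin.castSucc hf0 (Fin.castSucc_injective m) R.mem h3 h4.symm
  have hnp : R.n ≤ p := by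
    have := Fintype.card_le_of_injective f' hf'
    simpa using this
  let e : {x : Fin p // (x : ℕ) < R.n} ≃ {x : Fin p // x ∈ Set.range f'} :=
    (Fin.castLEOrderIso hnp).toEquiv.symm.trans (Equiv.ofInjective f' hf')
  let π : Equiv.Perm (Fin p) := e.extendSubtype
  have hπ : ∀ i : Fin R.n, π (Fin.castLE hnp i) = f' i := by
    intro i
    have hi : ((Fin.castLE hnp i : Fin p) : ℕ) < R.n := i.2
    rw [show π (Fin.castLE hnp i) = e ⟨Fin.castLE hnp i, hi⟩ from
      Equiv.extendSubtype_apply_of_mem e (Fin.castLE hnp i) hi]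
    have h5 : (Fin.castLEOrderIso hnp).toEquiv.symm ⟨Fin.castLE hnp i, hi⟩ = i := by
      rw [Equiv.symm_apply_eq]
      rfl
    show ((Equiv.ofInjective f' hf') ((Fin.castLEOrderIso hnp).toEquiv.symm ⟨Fin.castLE hnp i, hi⟩) : Fin p) = f' i
    rw [h5]
    rfl
  have hmem : K p (pull (⇑π) Lp) := hK.her p p π Lp π.injective hKp
  let R' : St K := ⟨p, up (pull (⇑π) Lp), by rw [pull_up]; exact hmem⟩
  have hL' : pull (fun i : Fin p => (i : ℕ)) R'.L = pull (⇑π) Lp := pull_up _
  have hpre : ∀ i : Fin m, π.symm (g' (Fin.castSucc i)) = Fin.castLE hnp (f0 i) := by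
    intro i
    rw [Equiv.symm_apply_eq, hπ, hfg]
  refine ⟨R', ⟨hnp, ?_⟩, fun i => (h1 i).trans_le hnp, ((π.symm (g' (Fin.last m)) : Fin p) : ℕ),
    (π.symm (g' (Fin.last m))).2, ?_, ?_⟩
  · intro s t ht
    have h6 := congrFun (congrFun hfL s) (fun i => ⟨t i, ht i⟩)
    have h7 := congrFun (congrFun hL' s) (fun i => ⟨t i, (ht i).trans_le hnp⟩)
    have h8 : pull f' Lp s (fun i => ⟨t i, ht i⟩) = Lp s (fun i => f' ⟨t i, ht i⟩) := rfl
    have h9 : pull (⇑π) Lp s (fun i => ⟨t i, (ht i).trans_le hnp⟩) = Lp s (fun i => f' ⟨t i, ht i⟩) := by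
      show Lp s (fun i => π ⟨t i, (ht i).trans_le hnp⟩) = _
      congr 1
      funext i
      exact hπ ⟨t i, ht i⟩
    have h10 : R.L s t = R'.L s t := by
      calc R.L s t = pull (fun i : Fin R.n => (i : ℕ)) R.L s (fun i => ⟨t i, ht i⟩) := rfl
        _ = Lp s (fun i => f' ⟨t i, ht i⟩) := by rw [← h6, h8]
        _ = pull (fun i : Fin p => (i : ℕ)) R'.L s (fun i => ⟨t i, (ht i).trans_le hnp⟩) := by rw [h7, h9]
        _ = R'.L s t := rfl
    rw [h10]
  · rintro ⟨i, hi⟩
    have h6 : Fin.castLE hnp (f0 i) = π.symm (g' (Fin.last m)) := Fin.ext hi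
    rw [← hpre i] at h6
    exact (Fin.castSucc_lt_last i).ne (hg' (π.symm.injective h6))
  · have h6 : (Fin.snoc f ((π.symm (g' (Fin.last m)) : Fin p) : ℕ) : Fin (m + 1) → ℕ) =
        fun i => ((π.symm (g' i) : Fin p) : ℕ) := by
      funext i
      refine Fin.lastCases ?_ (fun i => ?_) i
      · rw [Fin.snoc_last]
      · rw [Fin.snoc_castSucc, hpre i]
        rfl
    rw [h6]
    have h7 : pull (fun i : Fin (m + 1) => ((π.symm (g' i) : Fin p) : ℕ)) R'.L =
        pull (fun i => π.symm (g' i)) (pull (fun i : Fin p => (i : ℕ)) R'.L) := rfl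
    rw [h7, hL']
    have h8 : pull (fun i => π.symm (g' i)) (pull (⇑π) Lp) = pull (fun i => π (π.symm (g' i))) Lp := rfl
    rw [h8]
    have h9 : (fun i => π (π.symm (g' i))) = g' := by
      funext i
      rw [Equiv.apply_symm_apply]
    rw [h9, hgL]

theorem exists_limit_ctb {S : Type} {ar : S → ℕ} (har : ∀ s, 0 < ar s) (K : Cls ar) (hK : IsFraisse K)
    (hc : ∀ n, {J : Str ar (Fin n) | K n J}.Countable)
    (h0 : ∃ (n : ℕ) (I : Str ar (Fin n)), K n I) : ∃ (M : Type) (I : Str ar M), IsLimit K M I := by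
  classical
  obtain ⟨n0, I0, hI0⟩ := h0
  let p0 : St K := ⟨n0, up I0, by rw [pull_up]; exact hI0⟩
  let ι := Σ m : ℕ, (Fin m → ℕ) × {J : Str ar (Fin (m + 1)) // K (m + 1) J}
  have : ∀ m : ℕ, Countable {J : Str ar (Fin (m + 1)) // K (m + 1) J} := fun m => (hc (m + 1)).to_subtype
  have : Countable ι := inferInstance
  have : Encodable ι := Encodable.ofCountable ι
  let D : ι → Order.Cofinal (St K) := fun z =>
    ⟨{R | (∀ R', R ≤ R' → ¬ Posed z.2.1 z.2.2.1 R') ∨ Solved z.2.1 z.2.2.1 R}, fun R => by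
      by_cases h : ∃ R', R ≤ R' ∧ Posed z.2.1 z.2.2.1 R'
      · obtain ⟨R', h1, h2⟩ := h
        obtain ⟨R'', h3, h4⟩ := step hK z.2.1 z.2.2.1 R' h2
        exact ⟨R'', Or.inr h4, h1.trans h3⟩
      · exact ⟨R, Or.inl (fun R' h1 h2 => h ⟨R', h1, h2⟩), le_refl R⟩⟩
  let J := Order.idealOfCofinals p0 D
  have hp0J : p0 ∈ J := Order.mem_idealOfCofinals p0 D
  have hcom : ∀ (k : ℕ) (T : Fin k → St K), (∀ i, T i ∈ J) → ∃ R ∈ J, ∀ i, T i ≤ R := by
    intro k
    induction k with
    | zero => intro T _; exact ⟨p0, hp0J, fun i => i.elim0⟩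
    | succ k ih =>
      intro T hT
      obtain ⟨R, hR, hRT⟩ := ih (fun i => T (Fin.castSucc i)) (fun i => hT _)
      obtain ⟨R', hR', h1, h2⟩ := J.directed R hR (T (Fin.last k)) (hT _)
      refine ⟨R', hR', fun i => ?_⟩
      refine Fin.lastCases ?_ (fun i => ?_) i
      · exact h2
      · exact le_trans (hRT i) h1
  let I' : Str ar ℕ := fun s t => ∃ R ∈ J, (∀ i, t i < R.n) ∧ R.L s t
  have hI' : ∀ R ∈ J, ∀ (s : S) (t : Fin (ar s) → ℕ), (∀ i, t i < R.n) → (I' s t ↔ R.L s t) := by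
    intro R hR s t ht
    constructor
    · rintro ⟨R1, hR1, ht1, hL⟩
      obtain ⟨R2, hR2, h1, h2⟩ := J.directed R hR R1 hR1
      exact (h1.2 s t ht).2 ((h2.2 s t ht1).1 hL)
    · intro hL
      exact ⟨R, hR, ht, hL⟩
  let M := {i : ℕ // ∃ R ∈ J, i < R.n}
  let I : Str ar M := pull (fun x : M => x.1) I'
  have hfin : ∀ (n : ℕ) (f : Fin n → M), ∃ R ∈ J, ∀ i, (f i).1 < R.n := by
    intro n f
    choose T hT hfT using fun i => (f i).2
    obtain ⟨R, hR, hRT⟩ := hcom n T hT
    exact ⟨R, hR, fun i => (hfT i).trans_le (hRT i).1⟩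
  have hpl : ∀ (n : ℕ) (f : Fin n → M), ∀ R ∈ J, (∀ i, (f i).1 < R.n) → pull f I = pull (fun i => (f i).1) R.L := by
    intro n f R hR hf
    funext s t
    exact propext (hI' R hR s (fun i => (f (t i)).1) (fun i => hf _))
  refine ⟨M, I, isLimit_of_ext har K hK.her M I ?_ ?_⟩
  · intro n f hf
    obtain ⟨R, hR, hfR⟩ := hfin n f
    rw [hpl n f R hR hfR]
    have h1 : pull (fun i => (f i).1) R.L = pull (fun i : Fin n => (⟨(f i).1, hfR i⟩ : Fin R.n))
        (pull (fun i : Fin R.n => (i : ℕ)) R.L) := rfl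
    rw [h1]
    refine hK.her n R.n _ _ ?_ R.mem
    intro a b hab
    exact hf (Subtype.ext (congrArg Fin.val hab))
  · intro n f J0 hf hJ0 hfJ
    obtain ⟨R1, hR1, hfR1⟩ := hfin n f
    have hfi : Function.Injective (fun i => (f i).1) := fun a b hab => hf (Subtype.ext hab)
    have hposed : Posed (fun i => (f i).1) J0 R1 := by
      refine ⟨hfR1, hfi, hJ0, ?_⟩
      rw [hfJ, hpl n f R1 hR1 hfR1]
    obtain ⟨R0, hR0D, hR0J⟩ := Order.cofinal_meets_idealOfCofinals p0 D ⟨n, (fun i => (f i).1), ⟨J0, hJ0⟩⟩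
    rcases hR0D with hno | hsol
    · obtain ⟨R2, hR2, h1, h2⟩ := J.directed R0 hR0J R1 hR1
      exact (hno R2 h1 (hposed.mono h2)).elim
    · obtain ⟨hf0, x, hx, hxr, hxJ⟩ := hsol
      refine ⟨⟨x, R0, hR0J, hx⟩, ?_, ?_⟩
      · rintro ⟨i, hi⟩
        exact hxr ⟨i, congrArg Subtype.val hi⟩
      · have h1 : ∀ i, ((Fin.snoc f (⟨x, R0, hR0J, hx⟩ : M) : Fin (n + 1) → M) i).1 =
            (Fin.snoc (fun i => (f i).1) x : Fin (n + 1) → ℕ) i := by
          intro i
          refine Fin.lastCases ?_ (fun i => ?_) i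
          · rw [Fin.snoc_last, Fin.snoc_last]
          · rw [Fin.snoc_castSucc, Fin.snoc_castSucc]
        have h2 : ∀ i, ((Fin.snoc f (⟨x, R0, hR0J, hx⟩ : M) : Fin (n + 1) → M) i).1 < R0.n := by
          intro i
          refine Fin.lastCases ?_ (fun i => ?_) i
          · rw [Fin.snoc_last]
            exact hx
          · rw [Fin.snoc_castSucc]
            exact hf0 i
        rw [hpl (n + 1) _ R0 hR0J h2]
        refine Eq.trans ?_ hxJ
        congr 1
        funext i
        exact h1 i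

end Pool.Agent.Helper31.NR
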