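import Pool.Agent.Helper31.NR.ExC
import Pool.Agent.Helper31.NR.OrdC

/-!
# The expansion by a free linear order extends the class (countably many structures of each size)

PROOF.  `(M, I)` from `exists_limit` for `ordC K` (the arities of `arO ar` are positive; `ordC K` is not empty: a member of `K` with the natural order).
`(M, red I)` is the limit of `K` by `isLimit_of_ext`: `hage`: `pull f (red I) = red (pull f I)` and `pull f I ∈ ordC K`, so `K n (pull e (red (pull f I)))` for a
bijection `e`, and `K` is closed under isomorphism (`Hereditary`).  `hext`: let `J ∈ K` on `Fin (n + 1)` with `pull castSucc J = pull f (red I)`.  Let `J'` be the expansion of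
`J` with the order of `pull f I` on `Fin n` and the last point on top: `J' (Sum.inr ()) t` iff (`t 1 = last n ∧ t 0 ≠ last n`) or `t 0 = castSucc i`, `t 1 = castSucc j` and
`lt' I (f i) (f j)`.  Then `J' ∈ ordC K` (enumeration: the one of `pull f I`, followed by the last point; `K` is hereditary) and `pull castSucc J' = pull f I`
(the order relation of `pull f I` is determined by `lt'`: every `t : Fin 2 → Fin n` is `![t 0, t 1]`).  `IsLimit.ext` gives `x`.
-/

set_option autoImplicit false

namespace Pool.Agent.Helper31.NR

/-- the expansion of `J` by a binary relation -/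
private def expand {S : Type} {ar : S → ℕ} {V : Type} (J : Str ar V) (r : V → V → Prop) : Str (arO ar) V :=
  fun s => match s with
    | Sum.inl s => J s
    | Sum.inr _ => fun (t : Fin 2 → V) => r (t 0) (t 1)

private theorem red_expand {S : Type} {ar : S → ℕ} {V : Type} (J : Str ar V) (r : V → V → Prop) :
    red (expand J r) = J := rfl

private theorem lt_expand {S : Type} {ar : S → ℕ} {V : Type} (J : Str ar V) (r : V → V → Prop) (x y : V) :
    lt' (expand J r) x y ↔ r x y := Iff.rfl

private theorem lt_pull {S : Type} {ar : S → ℕ} {V W : Type} (I : Str (arO ar) V) (f : W → V) (x y : W) :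
    lt' (pull f I) x y ↔ lt' I (f x) (f y) := by
  have h : (fun i : Fin 2 => f ((![x, y] : Fin 2 → W) i)) = ![f x, f y] := by
    funext i
    fin_cases i <;> rfl
  show I (Sum.inr ()) (fun i : Fin 2 => f ((![x, y] : Fin 2 → W) i)) ↔ I (Sum.inr ()) ![f x, f y]
  rw [h]

private theorem ext_of_lt {S : Type} {ar : S → ℕ} {V : Type} {I J : Str (arO ar) V} (h : red I = red J)
    (h' : ∀ x y, lt' I x y ↔ lt' J x y) : I = J := by
  funext s
  rcases s with s | s
  · exact congrFun h s
  · funext t
    have ht : t = (![t (0 : Fin 2), t (1 : Fin 2)] : Fin 2 → V) := by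
      funext i
      revert i
      show ∀ i : Fin 2, t i = (![t (0 : Fin 2), t (1 : Fin 2)] : Fin 2 → V) i
      intro i
      fin_cases i <;> rfl
    rw [ht]
    exact propext (h' _ _)

theorem ctb_ordC {S : Type} {ar : S → ℕ} (K : Cls ar) (hK : Hereditary K)
    (hc : ∀ n, {J : Str ar (Fin n) | K n J}.Countable) (n : ℕ) : {J : Str (arO ar) (Fin n) | ordC K n J}.Countable := by
  have := (hc n).to_subtype
  have h1 : Countable ({J : Str ar (Fin n) // K n J} × (Fin n → Fin n → Prop)) := by
    have h2 : Finite (Fin n → Fin n → Prop) := inferInstance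
    have h3 : Countable {J : Str ar (Fin n) // K n J} := this
    infer_instance
  let φ : {J : Str (arO ar) (Fin n) | ordC K n J} → {J : Str ar (Fin n) // K n J} × (Fin n → Fin n → Prop) := fun J =>
    (⟨red J.1, by
      obtain ⟨e, -, he⟩ := J.2
      have h2 := hK n n e.symm _ e.symm.injective he
      have h3 : pull e.symm (pull e (red J.1)) = red J.1 := by
        funext s t
        show red J.1 s (fun i => e (e.symm (t i))) = red J.1 s t
        simp
      rwa [h3] at h2⟩, fun x y => lt' J.1 x y)
  have hφ : Function.Injective φ := by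
    intro J J' h
    have h2 := congrArg (fun z => z.1.1) h
    have h3 := congrArg (fun z => z.2) h
    exact Subtype.ext (ext_of_lt h2 fun x y => iff_of_eq (congrFun (congrFun h3 x) y))
  have h4 := hφ.countable
  exact h4

theorem fin_ordC {S : Type} {ar : S → ℕ} {n : ℕ} (P : Set (Str ar (Fin n))) (hP : P.Finite) :
    {J : Str (arO ar) (Fin n) | red J ∈ P}.Finite := by
  have h2 : Finite (Fin n → Fin n → Prop) := inferInstance
  have h1 := hP.to_subtype
  let φ : {J : Str (arO ar) (Fin n) | red J ∈ P} → P × (Fin n → Fin n → Prop) := fun J =>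
    (⟨red J.1, J.2⟩, fun x y => lt' J.1 x y)
  have hφ : Function.Injective φ := by
    intro J J' h
    have h2 := congrArg (fun z => z.1.1) h
    have h3 := congrArg (fun z => z.2) h
    exact Subtype.ext (ext_of_lt h2 fun x y => iff_of_eq (congrFun (congrFun h3 x) y))
  exact Set.finite_coe_iff.1 (Finite.of_injective φ hφ)

theorem extends_ordC_ctb {S : Type} {ar : S → ℕ} (har : ∀ s, 0 < ar s) (K : Cls ar) (hK : Hereditary K)
    (hc : ∀ n, {J : Str ar (Fin n) | K n J}.Countable)
    (h0 : ∃ (n : ℕ) (I : Str ar (Fin n)), K n I) (hF : IsFraisse (ordC K)) : Extends K (ordC K) := by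
  have har' : ∀ s, 0 < arO ar s := by
    rintro (s | s)
    · exact har s
    · exact Nat.zero_lt_two
  have h0' : ∃ (n : ℕ) (I : Str (arO ar) (Fin n)), ordC K n I := by
    obtain ⟨n, I, hI⟩ := h0
    refine ⟨n, expand I (fun x y => x < y), Equiv.refl _, fun x y => ?_, ?_⟩
    · exact lt_expand _ _ _ _
    · exact hI
  obtain ⟨M, I, hL⟩ := exists_limit_ctb har' (ordC K) hF (ctb_ordC K hK hc) h0'
  have := hL.ctb
  refine ⟨M, I, hL, isLimit_of_ext har K hK M (red I) ?_ ?_⟩
  · intro n f hf
    obtain ⟨e, -, he⟩ := (hL.age n (pull f I)).2 ⟨f, hf, rfl⟩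
    have := hK n n e.symm _ e.symm.injective he
    have h2 : pull e.symm (pull e (red (pull f I))) = pull f (red I) := by
      funext s t
      show I (Sum.inl s) (fun i => f (e (e.symm (t i)))) = I (Sum.inl s) (fun i => f (t i))
      simp only [Equiv.apply_symm_apply]
    rwa [h2] at this
  · intro n f J hf hJ hfJ
    obtain ⟨e, he1, -⟩ := (hL.age n (pull f I)).2 ⟨f, hf, rfl⟩
    let r : Fin (n + 1) → Fin (n + 1) → Prop := fun x y =>
      (y = Fin.last n ∧ x ≠ Fin.last n) ∨
        ∃ i j : Fin n, x = Fin.castSucc i ∧ y = Fin.castSucc j ∧ lt' I (f i) (f j)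
    have hr : ∀ i j : Fin n, r (Fin.castSucc i) (Fin.castSucc j) ↔ lt' I (f i) (f j) := by
      intro i j
      constructor
      · rintro (⟨h, -⟩ | ⟨i', j', h1, h2, h3⟩)
        · exact absurd h (Fin.castSucc_ne_last j)
        · rw [Fin.castSucc_inj] at h1 h2
          subst h1 h2
          exact h3
      · intro h
        exact Or.inr ⟨i, j, rfl, rfl, h⟩
    let e' : Fin (n + 1) ≃ Fin (n + 1) :=
      (finSuccEquivLast.trans (Equiv.optionCongr e)).trans finSuccEquivLast.symm
    have e1 : ∀ i : Fin n, e' (Fin.castSucc i) = Fin.castSucc (e i) := by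
      intro i
      simp [e']
    have e2 : e' (Fin.last n) = Fin.last n := by
      simp [e']
    have hJ' : ordC K (n + 1) (expand J r) := by
      refine ⟨e', fun x y => ?_, ?_⟩
      · rw [lt_expand]
        induction x using Fin.lastCases with
        | last =>
          rw [e2]
          constructor
          · rintro (⟨-, h⟩ | ⟨i', j', h1, -, -⟩)
            · exact absurd rfl h
            · exact absurd h1.symm (Fin.castSucc_ne_last i')
          · intro h
            exact absurd h (not_lt.2 (Fin.le_last y))
        | cast i =>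
          induction y using Fin.lastCases with
          | last =>
            rw [e2, e1]
            exact ⟨fun _ => Fin.castSucc_lt_last i, fun _ => Or.inl ⟨rfl, Fin.castSucc_ne_last _⟩⟩
          | cast j =>
            rw [e1, e1, hr, Fin.castSucc_lt_castSucc_iff, ← he1 i j, lt_pull]
      · exact hK (n + 1) (n + 1) e' J e'.injective hJ
    have hp : pull Fin.castSucc (expand J r) = pull f I := by
      refine ext_of_lt ?_ fun x y => ?_
      · exact hfJ
      · rw [lt_pull, lt_pull, lt_expand, hr]
    obtain ⟨x, hx, hx'⟩ := hL.ext f hf (expand J r) hJ' hp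
    refine ⟨x, hx, ?_⟩
    have := congrArg red hx'
    exact this

end Pool.Agent.Helper31.NR
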