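import Pool.Agent.Helper31.NR.Defs

/-!
# Block NR-FILL: a class with a natural one-point amalgamation is completable

PROOF.  Induction on the number of pairs `x < y` with `¬ E x y` (for all `E, I`).  If there is none, `E` holds for all
pairs of different points (symmetry), `f = id` gives `K n I`, and `J = I`.  Otherwise pick `x < y` with `¬ E x y`, put
`I' = ρ n x y I` and `E' p q = E p q ∨ (p = x ∧ q = y) ∨ (p = y ∧ q = x)`.  Let `f : Fin m → Fin n` be strictly monotone with `Clq E' f`.
(i) If `x` or `y` is not in the range of `f` then `Clq E f`, and `pull f I' = pull f I` by `keep`, which is in `K`.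
(ii) If `x = f x'`, `y = f y'` then `x' < y'` and `pull f I' = ρ m x' y' (pull f I)` by `nat`, and this is in `K` by `mem`: for a strictly
monotone `g : Fin k → Fin m` whose range does not contain both `x'` and `y'`, `pull g (pull f I) = pull (f ∘ g) I` and `Clq E (f ∘ g)`.
So the induction hypothesis applies to `E', I'` and gives `J ∈ K`.  If `Clq E f` then the range of `f` does not contain both `x` and `y`
(otherwise `E x y`), so `pull f J = pull f I' = pull f I`.
-/

set_option autoImplicit false

namespace Pool.Agent.Helper31.NR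

theorem completable_of_nat {S : Type} {ar : S → ℕ} (K : Cls ar)
    (ρ : ∀ n : ℕ, Fin n → Fin n → Str ar (Fin n) → Str ar (Fin n)) (hρ : NatAmalg K ρ) : Completable K := by
  classical
  intro n
  suffices H : ∀ (N : ℕ) (E : Fin n → Fin n → Prop) (I : Str ar (Fin n)),
      (Finset.univ.filter (fun p : Fin n × Fin n => p.1 < p.2 ∧ ¬ E p.1 p.2)).card = N →
      (∀ x y, E x y → E y x) →
      (∀ (m : ℕ) (f : Fin m → Fin n), StrictMono f → Clq E f → K m (pull f I)) →
      ∃ J : Str ar (Fin n), K n J ∧
        ∀ (m : ℕ) (f : Fin m → Fin n), StrictMono f → Clq E f → pull f J = pull f I from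
    fun E I hs h => H _ E I rfl hs h
  intro N
  induction N using Nat.strong_induction_on with
  | _ N ih =>
  intro E I hN hsym hK
  by_cases hall : ∀ x y : Fin n, x < y → E x y
  · refine ⟨I, ?_, fun _ _ _ _ => rfl⟩
    have h := hK n id strictMono_id (fun i j hij => by
      rcases lt_or_gt_of_ne hij with h | h
      · exact hall _ _ h
      · exact hsym _ _ (hall _ _ h))
    exact h
  · push Not at hall
    obtain ⟨x, y, hxy, hE⟩ := hall
    have hcase : ∀ (m : ℕ) (f : Fin m → Fin n),
        Clq (fun p q => E p q ∨ (p = x ∧ q = y) ∨ (p = y ∧ q = x)) f →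
        (x ∉ Set.range f ∨ y ∉ Set.range f) → Clq E f := by
      intro m f hf hr i j hij
      rcases hf i j hij with h | ⟨h1, h2⟩ | ⟨h1, h2⟩
      · exact h
      · rcases hr with h | h
        · exact absurd ⟨i, h1⟩ h
        · exact absurd ⟨j, h2⟩ h
      · rcases hr with h | h
        · exact absurd ⟨j, h2⟩ h
        · exact absurd ⟨i, h1⟩ h
    have hkeep : ∀ (m : ℕ) (f : Fin m → Fin n), (x ∉ Set.range f ∨ y ∉ Set.range f) →
        pull f (ρ n x y I) = pull f I := by
      intro m f hr
      funext s t
      apply propext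
      apply hρ.keep n x y I s _ hxy
      rcases hr with h | h
      · exact Or.inl (fun ⟨i, hi⟩ => h ⟨t i, hi⟩)
      · exact Or.inr (fun ⟨i, hi⟩ => h ⟨t i, hi⟩)
    have hnr : ∀ (m : ℕ) (f : Fin m → Fin n), Clq E f → (x ∉ Set.range f ∨ y ∉ Set.range f) := by
      intro m f hf
      by_contra hcon
      push Not at hcon
      obtain ⟨⟨i, hi⟩, ⟨j, hj⟩⟩ := hcon
      have hij : i ≠ j := by
        rintro rfl
        rw [← hi, ← hj] at hxy
        exact lt_irrefl _ hxy
      have h := hf i j hij
      rw [hi, hj] at h
      exact hE h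
    have hlt : (Finset.univ.filter (fun p : Fin n × Fin n => p.1 < p.2 ∧
        ¬ (E p.1 p.2 ∨ (p.1 = x ∧ p.2 = y) ∨ (p.1 = y ∧ p.2 = x)))).card < N := by
      rw [← hN]
      apply Finset.card_lt_card
      rw [Finset.ssubset_iff_of_subset]
      · refine ⟨(x, y), ?_, ?_⟩
        · rw [Finset.mem_filter]
          exact ⟨Finset.mem_univ _, hxy, hE⟩
        · rw [Finset.mem_filter]
          rintro ⟨-, -, h⟩
          exact h (Or.inr (Or.inl ⟨rfl, rfl⟩))
      · intro p hp
        rw [Finset.mem_filter] at hp ⊢
        exact ⟨hp.1, hp.2.1, fun h => hp.2.2 (Or.inl h)⟩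
    obtain ⟨J, hJ1, hJ2⟩ := ih _ hlt (fun p q => E p q ∨ (p = x ∧ q = y) ∨ (p = y ∧ q = x))
      (ρ n x y I) (by congr) (by
        rintro p q (h | ⟨h1, h2⟩ | ⟨h1, h2⟩)
        · exact Or.inl (hsym _ _ h)
        · exact Or.inr (Or.inr ⟨h2, h1⟩)
        · exact Or.inr (Or.inl ⟨h2, h1⟩)) (by
        intro m f hf hq
        by_cases hr : x ∉ Set.range f ∨ y ∉ Set.range f
        · rw [hkeep m f hr]
          exact hK m f hf (hcase m f hq hr)
        · push Not at hr
          obtain ⟨⟨i, hi⟩, ⟨j, hj⟩⟩ := hr
          have hij : i < j := by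
            rw [← hf.lt_iff_lt, hi, hj]
            exact hxy
          have h1 := hρ.nat m n f i j I hf hij
          rw [hi, hj] at h1
          rw [h1]
          apply hρ.mem m i j (pull f I) hij
          intro k g hg hgr
          have h2 : pull g (pull f I) = pull (f ∘ g) I := rfl
          rw [h2]
          apply hK k (f ∘ g) (hf.comp hg)
          apply hcase
          · intro a b hab
            exact hq _ _ (fun h => hab (hg.injective h))
          · rcases hgr with h | h
            · left
              rintro ⟨a, ha⟩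
              exact h ⟨a, hf.injective (by rw [hi]; exact ha)⟩
            · right
              rintro ⟨a, ha⟩
              exact h ⟨a, hf.injective (by rw [hj]; exact ha)⟩)
    refine ⟨J, hJ1, fun m f hf hq => ?_⟩
    rw [hJ2 m f hf (fun i j hij => Or.inl (hq i j hij)), hkeep m f (hnr m f hq)]

end Pool.Agent.Helper31.NR
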