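import Pool.Agent.Helper31.NR.CDefs
import Pool.Agent.Helper31.NR.Bdd

/-!
# Block NC-FIN: the finite class with only `H_4`

PROOF.  `(Fin 4, MN)` is the limit of `KN` (every isomorphism between substructures preserves the names, so it is the restriction of the identity).  `KN` is a Fraisse class (amalgamate in `MN`: every member embeds uniquely in `MN`), it is Ramsey
(a structure with names has at most one copy of `A`; take `C = B`), and finitely bounded (`finBounded_iff` with `N = 5`: if all substructures with at most two points are in `KN` then all points have exactly one name and different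
points have different names; hence `n ≤ 4`).
-/

set_option autoImplicit false

namespace Pool.Agent.Helper31.NR

/-- The names determine the map to the structure on `Fin 4`. -/
private theorem pull_MN_inj {V : Type} {e e' : V → Fin 4} (h : pull e MN = pull e' MN) : e = e' := by
  funext i
  have h1 : (e i = e i) = (e' i = e i) := congrFun (congrFun h (e i)) (fun _ => i)
  have h2 : e' i = e i := h1 ▸ rfl
  exact h2.symm

private theorem kn_iff {n : ℕ} {I : Str (fun _ : Fin 4 => 1) (Fin n)} :
    KN n I ↔ ∃ e : Fin n → Fin 4, Function.Injective e ∧ pull e MN = I :=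
  ⟨fun ⟨e, he, h⟩ => ⟨e, he, h.symm⟩, fun ⟨e, he, h⟩ => ⟨e, he, h.symm⟩⟩

private theorem kn_MN : KN 4 MN := kn_iff.mpr ⟨id, Function.injective_id, rfl⟩

theorem kn_fraisse : IsFraisse KN := by
  refine ⟨?_, ?_, ?_⟩
  · intro m n f I hf hI
    obtain ⟨e, he, rfl⟩ := kn_iff.mp hI
    exact kn_iff.mpr ⟨fun i => e (f i), he.comp hf, rfl⟩
  · intro m n I J hI hJ
    obtain ⟨e, he, h⟩ := kn_iff.mp hI
    obtain ⟨e', he', h'⟩ := kn_iff.mp hJ
    exact ⟨4, MN, e, e', he, he', kn_MN, h, h'⟩
  · intro a m n I J f g hf hg hI hJ hfg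
    obtain ⟨e, he, h⟩ := kn_iff.mp hI
    obtain ⟨e', he', h'⟩ := kn_iff.mp hJ
    refine ⟨4, MN, e, e', he, he', kn_MN, h, h', fun i => ?_⟩
    have h1 : pull (fun i => e (f i)) MN = pull (fun i => e' (g i)) MN := by
      have h2 : pull f (pull e MN) = pull g (pull e' MN) := by rw [h, h', hfg]
      exact h2
    exact congrFun (pull_MN_inj h1) i

theorem kn_ramsey : IsRamsey KN := by
  intro a A b B hA hB k
  refine ⟨b, B, hB, fun χ => ⟨Set.univ, ⟨id, Function.injective_id, rfl, Set.range_id⟩, ?_⟩⟩
  rintro Y Y' ⟨f, -, hfA, rfl⟩ ⟨f', -, hfA', rfl⟩ - -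
  obtain ⟨e, he, rfl⟩ := kn_iff.mp hB
  have h1 : pull (fun i => e (f i)) MN = pull (fun i => e (f' i)) MN := by
    have h2 : pull f (pull e MN) = pull f' (pull e MN) := by rw [hfA, hfA']
    exact h2
  have h3 : f = f' := by
    funext i
    exact he (congrFun (pull_MN_inj h1) i)
  rw [h3]

theorem kn_bdd : FinBounded KN := by
  refine (finBounded_iff KN kn_fraisse.her).mpr ⟨2, fun n I hI => ?_⟩
  have h1 : ∀ i : Fin n, ∃ c : Fin 4, ∀ s : Fin 4, I s (fun _ => i) = (c = s) := by
    intro i
    obtain ⟨e, -, he⟩ := hI 1 one_le_two (fun _ => i) (Function.injective_of_subsingleton _)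
    exact ⟨e 0, fun s => congrFun (congrFun he s) (fun _ => 0)⟩
  choose c hc using h1
  refine ⟨c, fun i j hij => ?_, ?_⟩
  · by_contra hne
    have hinj : Function.Injective (![i, j] : Fin 2 → Fin n) := by
      intro x y hxy
      fin_cases x <;> fin_cases y <;> simp_all
    obtain ⟨e, he, hE⟩ := hI 2 le_rfl ![i, j] hinj
    have e0 : I (c i) (fun _ => i) = (e 0 = c i) := congrFun (congrFun hE (c i)) (fun _ => 0)
    have e1 : I (c j) (fun _ => j) = (e 1 = c j) := congrFun (congrFun hE (c j)) (fun _ => 1)
    have f0 : e 0 = c i := by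
      rw [← e0, hc]
    have f1 : e 1 = c j := by
      rw [← e1, hc]
    have h2 : (0 : Fin 2) = 1 := he (by rw [f0, f1, hij])
    exact absurd h2 (by decide)
  · funext s t
    have h2 : t = fun _ => t 0 := by
      funext x
      rw [Subsingleton.elim x 0]
    rw [h2]
    exact hc (t 0) s

theorem kn_limit : IsLimit KN (Fin 4) MN := by
  refine ⟨inferInstance, fun n J => kn_iff, fun n f g hf hg h => ?_⟩
  have h1 := pull_MN_inj h
  subst h1
  exact ⟨Equiv.refl _, rfl, fun i => rfl⟩

end Pool.Agent.Helper31.NR
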