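import Pool.Agent.Helper31.NR.CDefs

/-!
# Block NC-H4: the limit of the class with only `H_4`

PROOF.
`h4_limit`: `(Fin 4, PhiN (Fin 4) MN)` is the hypertournament `Q` with `Q () w = H4 w`.  `ty Q id = 0` and `Q` is invariant under all even permutations.
`age`: `Q` is a hypertournament with all quadruples of type 0 (`ty_perm`), so `pull f Q ∈ KT {0}`.  Let `J ∈ KT {0}` on `Fin n`.  If `n ≤ 2` then there are no injective triples, and any injective `f` works.  `n = 3`: there are two
hypertournaments on `Fin 3`, and both embed (`f = (0,1,2)` or `f = (1,0,2)`).  `n = 4`: `iso_of_ty`.  `n ≥ 5` is impossible: let `s` be the orientation of `(0,1,2)`; type 0 of `(0,1,2,3)` gives `(0,1,3) = -s`, `(0,2,3) = s`,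
`(1,2,3) = -s`, in the same way `(0,1,4) = -s`, `(0,2,4) = s`; type 0 of `(0,1,3,4)` gives `(0,1,4) = - (0,1,3) = s`, a contradiction.
`hom`: let `f, g : Fin n → Fin 4` be injective with `pull f Q = pull g Q`.  If `n = 4`, `σ = g ∘ f⁻¹` is an automorphism.  If `n = 3`, `σ` is the unique extension; it is an even permutation because an odd one reverses the orientation
of the triple `range f` (or: a hypertournament of type 0 is determined by the orientation of one triple).  If `n ≤ 2` there are two different extensions of `g ∘ f⁻¹` to a permutation which differ by a transposition (`n = 2`) or more, so one of them is even.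
-/

set_option autoImplicit false

namespace Pool.Agent.Helper31.NR

private lemma Q_iff1 (t : Fin 3 → Fin 4) : PhiN (Fin 4) MN () t ↔ H4 t := by
  constructor
  · rintro ⟨w, hw, h⟩
    have e : t = w := funext fun j => h j
    rw [e]
    exact hw
  · intro h
    exact ⟨t, h, fun j => rfl⟩

private lemma vd3_1 (v : Fin 3 → ℤ) : vd v = (v 1 - v 0) * (v 2 - v 0) * (v 2 - v 1) := by
  unfold vd
  rw [Fin.prod_univ_three]
  have h0 : Finset.Ioi (0 : Fin 3) = {1, 2} := by decide
  have h1 : Finset.Ioi (1 : Fin 3) = {2} := by decide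
  have h2 : Finset.Ioi (2 : Fin 3) = ∅ := by decide
  rw [h0, h1, h2, Finset.prod_pair (by decide), Finset.prod_singleton, Finset.prod_empty]
  ring

private def h4b1 (a b c : Fin 4) : Bool :=
  (a != b) && (a != c) && (b != c) &&
    ((Bool.xor (decide (b < a)) (Bool.xor (decide (c < a)) (decide (c < b)))) !=
      ((a.val + b.val + c.val) % 2 == 0))

private lemma inj3_1 {V : Type} (t : Fin 3 → V) :
    Function.Injective t ↔ t 0 ≠ t 1 ∧ t 0 ≠ t 2 ∧ t 1 ≠ t 2 := by
  constructor
  · intro h
    exact ⟨fun e => absurd (h e) (by decide), fun e => absurd (h e) (by decide),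
      fun e => absurd (h e) (by decide)⟩
  · rintro ⟨h1, h2, h3⟩ i j hij
    fin_cases i <;> fin_cases j
    · rfl
    · exact absurd hij h1
    · exact absurd hij h2
    · exact absurd hij.symm h1
    · rfl
    · exact absurd hij h3
    · exact absurd hij.symm h2
    · exact absurd hij.symm h3
    · rfl

private lemma H4_iff1 (t : Fin 3 → Fin 4) : H4 t ↔ h4b1 (t 0) (t 1) (t 2) = true := by
  have key : ∀ a b c : Fin 4, ((a ≠ b ∧ a ≠ c ∧ b ≠ c) ∧
      (0 < (((b : ℕ) : ℤ) - ((a : ℕ) : ℤ)) * (((c : ℕ) : ℤ) - ((a : ℕ) : ℤ)) *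
        (((c : ℕ) : ℤ) - ((b : ℕ) : ℤ)) ↔ Even ((a : ℕ) + (b : ℕ) + (c : ℕ)))) ↔
      h4b1 a b c = true := by
    decide
  unfold H4
  rw [inj3_1, vd3_1]
  exact key (t 0) (t 1) (t 2)

private lemma H4_perm1 (t : Fin 3 → Fin 4) (ht : Function.Injective t) (σ : Equiv.Perm (Fin 3)) :
    H4 (fun i => t (σ i)) ↔ (H4 t ↔ Equiv.Perm.sign σ = 1) := by
  have key : ∀ a b c : Fin 4, a ≠ b → a ≠ c → b ≠ c → ∀ σ : Equiv.Perm (Fin 3),
      (h4b1 (![a, b, c] (σ 0)) (![a, b, c] (σ 1)) (![a, b, c] (σ 2)) = true ↔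
        (h4b1 a b c = true ↔ Equiv.Perm.sign σ = 1)) := by
    decide
  have e : t = ![t 0, t 1, t 2] := by
    funext i
    fin_cases i <;> rfl
  obtain ⟨h1, h2, h3⟩ := (inj3_1 t).mp ht
  have h4 := key (t 0) (t 1) (t 2) h1 h2 h3 σ
  rw [← e] at h4
  rw [H4_iff1, H4_iff1]
  exact h4

private lemma H4_swap1 (t : Fin 3 → Fin 4) (ht : Function.Injective t) (x y : Fin 4) (hxy : x ≠ y) :
    H4 (fun i => Equiv.swap x y (t i)) ↔ ¬ H4 t := by
  have key : ∀ x y : Fin 4, x ≠ y → ∀ a b c : Fin 4, a ≠ b → a ≠ c → b ≠ c →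
      (h4b1 (Equiv.swap x y a) (Equiv.swap x y b) (Equiv.swap x y c) = true ↔
        ¬ h4b1 a b c = true) := by
    decide
  obtain ⟨h1, h2, h3⟩ := (inj3_1 t).mp ht
  rw [H4_iff1, H4_iff1]
  exact key x y hxy (t 0) (t 1) (t 2) h1 h2 h3

/-- a permutation of the four points preserves `H4` iff it is even -/
private lemma H4_sign1 (σ : Equiv.Perm (Fin 4)) : ∀ (t : Fin 3 → Fin 4), Function.Injective t →
    (H4 (fun i => σ (t i)) ↔ (H4 t ↔ Equiv.Perm.sign σ = 1)) := by
  induction σ using Equiv.Perm.swap_induction_on with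
  | one =>
    intro t _
    simp
  | swap_mul f x y hxy ih =>
    intro t ht
    have h1 : H4 (fun i => (Equiv.swap x y * f) (t i)) ↔ ¬ H4 (fun i => f (t i)) :=
      H4_swap1 (fun i => f (t i)) (f.injective.comp ht) x y hxy
    rw [h1, ih t ht, Equiv.Perm.sign_mul, Equiv.Perm.sign_swap hxy]
    rcases Int.units_eq_one_or (Equiv.Perm.sign f) with h | h
    · rw [h]
      simp
    · rw [h]
      simp

private lemma Q_ht1 : IsHT (PhiN (Fin 4) MN) := by
  refine ⟨fun t ht => ((Q_iff1 t).mp ht).1, fun t ht σ => ?_⟩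
  rw [Q_iff1, Q_iff1]
  exact H4_perm1 t ht σ

private lemma pull_ht1 {m n : ℕ} (f : Fin m → Fin n) (hf : Function.Injective f)
    {I : Str (fun _ : Unit => 3) (Fin n)} (hI : IsHT I) : IsHT (pull f I) := by
  refine ⟨fun t ht => ?_, fun t ht σ => ?_⟩
  · have h3 : Function.Injective (fun i => f (t i)) := hI.1 _ ht
    exact fun a b hab => h3 (congrArg f hab)
  · exact hI.2 (fun i => f (t i)) (hf.comp ht) σ

/-- hypertournaments with the same value at one triple agree on its permutations -/
private lemma ht_ext1 {n : ℕ} {I J : Str (fun _ : Unit => 3) (Fin n)} (hI : IsHT I) (hJ : IsHT J)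
    {t : Fin 3 → Fin n} (ht : Function.Injective t) (h : I () t ↔ J () t)
    (σ : Equiv.Perm (Fin 3)) : I () (fun i => t (σ i)) ↔ J () (fun i => t (σ i)) := by
  rw [hI.2 t ht σ, hJ.2 t ht σ, h]

private lemma ty_zero1 {V : Type} {I : Str (fun _ : Unit => 3) V} {u : Fin 4 → V}
    (h : ty I u = 0) (i j : Fin 4) : yb I u i ↔ yb I u j := by
  classical
  unfold ty at h
  rcases Nat.min_eq_zero_iff.mp h with h1 | h1
  · rw [Finset.card_eq_zero, Finset.filter_eq_empty_iff] at h1
    exact ⟨fun h2 => absurd h2 (h1 (Finset.mem_univ i)), fun h2 => absurd h2 (h1 (Finset.mem_univ j))⟩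
  · rw [Finset.card_eq_zero, Finset.filter_eq_empty_iff] at h1
    have h2 := h1 (Finset.mem_univ i)
    have h3 := h1 (Finset.mem_univ j)
    rw [not_not] at h2 h3
    exact ⟨fun _ => h3, fun _ => h2⟩

private lemma ty_of_all1 {V : Type} {I : Str (fun _ : Unit => 3) V} {u : Fin 4 → V}
    (h : ∀ i, yb I u i) : ty I u = 0 := by
  classical
  unfold ty
  rw [Nat.min_eq_zero_iff]
  right
  rw [Finset.card_eq_zero, Finset.filter_eq_empty_iff]
  intro i _
  rw [not_not]
  exact h i

private lemma Q_ty1 : ty (PhiN (Fin 4) MN) id = 0 := by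
  apply ty_of_all1
  intro i
  unfold yb
  rw [Q_iff1, H4_iff1]
  have key : ∀ i : Fin 4, h4b1 (id (i.succAbove 0)) (id (i.succAbove 1)) (id (i.succAbove 2)) = true ↔
      Even (i : ℕ) := by
    decide
  exact key i

/-- the consequence of type 0 -/
private lemma rel1 {n : ℕ} {J : Str (fun _ : Unit => 3) (Fin n)} {a b c d : Fin n}
    (h : ty J ![a, b, c, d] = 0) : J () ![a, b, d] ↔ ¬ J () ![a, b, c] := by
  have h1 := ty_zero1 h 2 3
  unfold yb at h1
  have e2 : (fun j => (![a, b, c, d] : Fin 4 → Fin n) ((2 : Fin 4).succAbove j)) = ![a, b, d] := by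
    funext j
    fin_cases j <;> rfl
  have e3 : (fun j => (![a, b, c, d] : Fin 4 → Fin n) ((3 : Fin 4).succAbove j)) = ![a, b, c] := by
    funext j
    fin_cases j <;> rfl
  rw [e2, e3] at h1
  have h2 : Even ((2 : Fin 4) : ℕ) := by decide
  have h3 : ¬ Even ((3 : Fin 4) : ℕ) := by decide
  tauto

private lemma inj4_1 {V : Type} {a b c d : V} (h1 : a ≠ b) (h2 : a ≠ c) (h3 : a ≠ d) (h4 : b ≠ c)
    (h5 : b ≠ d) (h6 : c ≠ d) : Function.Injective ![a, b, c, d] := by
  intro i j hij
  fin_cases i <;> fin_cases j <;> first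
    | rfl
    | exact absurd hij h1
    | exact absurd hij h2
    | exact absurd hij h3
    | exact absurd hij h4
    | exact absurd hij h5
    | exact absurd hij h6
    | exact absurd hij.symm h1
    | exact absurd hij.symm h2
    | exact absurd hij.symm h3
    | exact absurd hij.symm h4
    | exact absurd hij.symm h5
    | exact absurd hij.symm h6

theorem h4_limit : IsLimit (KT {0}) (Fin 4) (PhiN (Fin 4) MN) := by
  refine ⟨inferInstance, ?_, ?_⟩
  · intro n J
    constructor
    · rintro ⟨hJ, hty⟩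
      rcases le_or_gt n 2 with hn | hn
      · refine ⟨Fin.castLE (by omega : n ≤ 4), Fin.castLE_injective (by omega : n ≤ 4), ?_⟩
        funext s t
        apply propext
        have hno : ¬ Function.Injective t := by
          intro h
          have h1 : Fintype.card (Fin 3) ≤ Fintype.card (Fin n) :=
            Fintype.card_le_of_injective t h
          rw [Fintype.card_fin, Fintype.card_fin] at h1
          omega
        constructor
        · intro h
          refine absurd ?_ hno
          have h1 : Function.Injective (fun i => (Fin.castLE (by omega : n ≤ 4) (t i))) :=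
            Q_ht1.1 _ h
          exact fun a b hab => h1 (congrArg (Fin.castLE (by omega : n ≤ 4)) hab)
        · intro h
          exact absurd (hJ.1 t h) hno
      rcases eq_or_lt_of_le (Nat.succ_le_of_lt hn) with hn3 | hn3
      · subst hn3
        have hall : ∀ f : Fin 3 → Fin 4, Function.Injective f →
            (PhiN (Fin 4) MN () f ↔ J () id) → pull f (PhiN (Fin 4) MN) = J := by
          intro f hf h
          funext s t
          apply propext
          by_cases ht : Function.Injective t
          · let σ : Equiv.Perm (Fin 3) := Equiv.ofBijective t (Finite.injective_iff_bijective.mp ht)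
            exact ht_ext1 (pull_ht1 f hf Q_ht1) hJ Function.injective_id h σ
          · exact ⟨fun h1 => absurd ((pull_ht1 f hf Q_ht1).1 t h1) ht, fun h1 => absurd (hJ.1 t h1) ht⟩
        by_cases hJ1 : J () id
        · refine ⟨![1, 0, 2], by decide, hall _ (by decide) ?_⟩
          rw [Q_iff1, H4_iff1]
          exact ⟨fun _ => hJ1, fun _ => by decide⟩
        · refine ⟨![0, 1, 2], by decide, hall _ (by decide) ?_⟩
          rw [Q_iff1, H4_iff1]
          exact ⟨fun h => absurd h (by decide), fun h => absurd h hJ1⟩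
      rcases eq_or_lt_of_le (Nat.succ_le_of_lt hn3) with hn4 | hn4
      · subst hn4
        have h1 : ty J id = 0 := hty id Function.injective_id
        obtain ⟨σ, hσ⟩ := iso_of_ty (PhiN (Fin 4) MN) J Q_ht1 hJ (Q_ty1.trans h1.symm)
        exact ⟨σ, σ.injective, hσ⟩
      · exfalso
        have hne : ∀ a b : ℕ, ∀ (ha : a < n) (hb : b < n), a ≠ b → (⟨a, ha⟩ : Fin n) ≠ ⟨b, hb⟩ :=
          fun a b ha hb h e => h (congrArg Fin.val e)
        have t1 := rel1 (hty ![⟨0, by omega⟩, ⟨1, by omega⟩, ⟨2, by omega⟩, ⟨3, by omega⟩]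
          (inj4_1 (hne _ _ _ _ (by decide)) (hne _ _ _ _ (by decide)) (hne _ _ _ _ (by decide))
            (hne _ _ _ _ (by decide)) (hne _ _ _ _ (by decide)) (hne _ _ _ _ (by decide))))
        have t2 := rel1 (hty ![⟨0, by omega⟩, ⟨1, by omega⟩, ⟨2, by omega⟩, ⟨4, by omega⟩]
          (inj4_1 (hne _ _ _ _ (by decide)) (hne _ _ _ _ (by decide)) (hne _ _ _ _ (by decide))
            (hne _ _ _ _ (by decide)) (hne _ _ _ _ (by decide)) (hne _ _ _ _ (by decide))))
        have t3 := rel1 (hty ![⟨0, by omega⟩, ⟨1, by omega⟩, ⟨3, by omega⟩, ⟨4, by omega⟩]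
          (inj4_1 (hne _ _ _ _ (by decide)) (hne _ _ _ _ (by decide)) (hne _ _ _ _ (by decide))
            (hne _ _ _ _ (by decide)) (hne _ _ _ _ (by decide)) (hne _ _ _ _ (by decide))))
        tauto
    · rintro ⟨f, hf, rfl⟩
      refine ⟨pull_ht1 f hf Q_ht1, fun u hu => ?_⟩
      let τ : Equiv.Perm (Fin 4) :=
        Equiv.ofBijective (fun i => f (u i)) (Finite.injective_iff_bijective.mp (hf.comp hu))
      have h1 : ty (pull f (PhiN (Fin 4) MN)) u = ty (PhiN (Fin 4) MN) (fun i => id (τ i)) := rfl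
      rw [h1, ty_perm _ Q_ht1 id Function.injective_id τ, Q_ty1]
      rfl
  · intro n f g hf hg hfg
    obtain ⟨σ0, hσ0⟩ : ∃ σ : Equiv.Perm (Fin 4), ∀ i, σ (f i) = g i := by
      classical
      obtain ⟨e, he⟩ := Set.MapsTo.exists_equiv_extend_of_card_eq (α := Fin 4) (β := Fin 4)
        (t := Finset.univ) (by rw [Finset.card_univ]) (s := Set.range f)
        (f := Function.extend f g id) (fun x _ => by simp) (by
          rintro _ ⟨a, rfl⟩ _ ⟨b, rfl⟩ hab
          rw [hf.extend_apply, hf.extend_apply] at hab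
          rw [hg hab])
      refine ⟨e.trans (Equiv.subtypeUnivEquiv fun x => Finset.mem_univ x), fun i => ?_⟩
      have h1 := he (f i) ⟨i, rfl⟩
      rw [hf.extend_apply] at h1
      exact h1
    have hauto : ∀ σ : Equiv.Perm (Fin 4), Equiv.Perm.sign σ = 1 →
        pull σ (PhiN (Fin 4) MN) = PhiN (Fin 4) MN := by
      intro σ hσ
      funext s t
      apply propext
      by_cases ht : Function.Injective t
      · change PhiN (Fin 4) MN () (fun i => σ (t i)) ↔ PhiN (Fin 4) MN () t
        rw [Q_iff1, Q_iff1, H4_sign1 σ t ht, hσ]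
        simp
      · exact ⟨fun h1 => absurd ((pull_ht1 σ σ.injective Q_ht1).1 t h1) ht,
          fun h1 => absurd (Q_ht1.1 t h1) ht⟩
    rcases Int.units_eq_one_or (Equiv.Perm.sign σ0) with h | h
    · exact ⟨σ0, hauto σ0 h, hσ0⟩
    rcases le_or_gt n 2 with hn | hn
    · have hcard : 1 < (Finset.univ.image g)ᶜ.card := by
        rw [Finset.card_compl, Finset.card_image_of_injective _ hg, Finset.card_univ,
          Fintype.card_fin, Fintype.card_fin]
        omega
      obtain ⟨a, ha, b, hb, hab⟩ := Finset.one_lt_card.mp hcard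
      rw [Finset.mem_compl, Finset.mem_image] at ha hb
      refine ⟨Equiv.swap a b * σ0, hauto _ ?_, fun i => ?_⟩
      · rw [Equiv.Perm.sign_mul, Equiv.Perm.sign_swap hab, h]
        rfl
      · change Equiv.swap a b (σ0 (f i)) = g i
        rw [hσ0]
        exact Equiv.swap_apply_of_ne_of_ne (fun e => ha ⟨i, Finset.mem_univ i, e⟩)
          (fun e => hb ⟨i, Finset.mem_univ i, e⟩)
    · exfalso
      have hn' : 3 ≤ n := hn
      have hinj : Function.Injective (fun i : Fin 3 => f (Fin.castLE hn' i)) :=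
        hf.comp (Fin.castLE_injective _)
      have h1 := H4_sign1 σ0 _ hinj
      have h2 : H4 (fun i => σ0 (f (Fin.castLE hn' i))) ↔ H4 (fun i => f (Fin.castLE hn' i)) := by
        have h3 := congrFun (congrFun hfg ()) (fun i => Fin.castLE hn' i)
        have h4 : PhiN (Fin 4) MN () (fun i => f (Fin.castLE hn' i)) =
          PhiN (Fin 4) MN () (fun i => g (Fin.castLE hn' i)) := h3
        rw [← Q_iff1, ← Q_iff1, h4]
        have h5 : (fun i => σ0 (f (Fin.castLE hn' i))) = fun i => g (Fin.castLE hn' i) :=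
          funext fun i => hσ0 _
        rw [h5]
      rw [h1, h] at h2
      have h6 : ¬ ((-1 : ℤˣ) = 1) := by decide
      tauto

end Pool.Agent.Helper31.NR
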