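import Pool.Agent.Helper31.NR.Typ

/-!
# Block NC-NON: three classes without amalgamation

PROOF.  For a function `β` of triples `a < b < c` let `I β` be the hypertournament with orientation `β a b c` on the increasing triple `a < b < c`:
`I β t` iff (`t 0 < t 1 < t 2` and `β (t 0) (t 1) (t 2)`) or the same for the cyclic rotations of `t`, or (`t 1 < t 0 < t 2` and not `β (t 1) (t 0) (t 2)`) or the same for the
cyclic rotations.  On an increasing quadruple `u` the signs are `yb I u 0 = β(u1,u2,u3)`, `yb I u 1 = ¬ β(u0,u2,u3)`, `yb I u 2 = β(u0,u1,u3)`, `yb I u 3 = ¬ β(u0,u1,u2)`.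
Let `A = Fin n` and let `I, J` be members of the class on `Fin (n + 1)` with the same restriction to the first `n` points, `I ≠ J` (so in an amalgam `L` the two last points are different: `x = f' (last)`,
`y = g' (last)`, `f' (castSucc i) = g' (castSucc i) = w i`).  Put `z i = L () ![w i, x, y]`.  For `c < d < n` the quadruple `(w c, w d, x, y)` has the signs
`z d` (omit `c`), `¬ z c` (omit `d`), `J(c, d, last)` (omit `x`), `¬ I(c, d, last)` (omit `y`), so the number of true ones among these four conditions must be allowed: count in `{1, 3}` for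
`T = {1}`, count in `{0, 1, 3, 4}` for `T = {0, 1}`; no count is allowed for `T = ∅`.  In the following cases this is impossible for all `z` (finite check):
* `T = ∅`: `n = 2`, `I(0,1,x)` true, `J(0,1,y)` false.
* `T = {1}`: `n = 3`, `A(0,1,2)` true; `I`: `(0,1)` true, `(0,2)` true, `(1,2)` false; `J`: `(0,1)` true, `(0,2)` false, `(1,2)` true (here `(c,d)` stands for the increasing triple `c < d < last`).
* `T = {0, 1}`: `n = 4`, `A`: `(0,1,2)` true, `(0,1,3)` true, `(0,2,3)` true, `(1,2,3)` false; `I`: `(0,1)` true, `(0,2)` false, `(0,3)` true, `(1,2)` true, `(1,3)` false, `(2,3)` true;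
  `J`: the same as `I` except that `(2,3)` is false.
-/

set_option autoImplicit false

namespace Pool.Agent.Helper31.NR

/-- The hypertournament with a given orientation of the increasing triples. -/
private def mkH {n : ℕ} (β : Fin n → Fin n → Fin n → Bool) : Str (fun _ : Unit => 3) (Fin n) :=
  fun _ t => (t 0 < t 1 ∧ t 1 < t 2 ∧ β (t 0) (t 1) (t 2) = true) ∨
    (t 1 < t 2 ∧ t 2 < t 0 ∧ β (t 1) (t 2) (t 0) = true) ∨
    (t 2 < t 0 ∧ t 0 < t 1 ∧ β (t 2) (t 0) (t 1) = true) ∨
    (t 1 < t 0 ∧ t 0 < t 2 ∧ β (t 1) (t 0) (t 2) = false) ∨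
    (t 0 < t 2 ∧ t 2 < t 1 ∧ β (t 0) (t 2) (t 1) = false) ∨
    (t 2 < t 1 ∧ t 1 < t 0 ∧ β (t 2) (t 1) (t 0) = false)

private theorem perm3 (σ : Equiv.Perm (Fin 3)) :
    (σ 0 = 0 ∧ σ 1 = 1 ∧ σ 2 = 2 ∧ Equiv.Perm.sign σ = 1) ∨
    (σ 0 = 1 ∧ σ 1 = 2 ∧ σ 2 = 0 ∧ Equiv.Perm.sign σ = 1) ∨
    (σ 0 = 2 ∧ σ 1 = 0 ∧ σ 2 = 1 ∧ Equiv.Perm.sign σ = 1) ∨
    (σ 0 = 1 ∧ σ 1 = 0 ∧ σ 2 = 2 ∧ ¬ Equiv.Perm.sign σ = 1) ∨
    (σ 0 = 0 ∧ σ 1 = 2 ∧ σ 2 = 1 ∧ ¬ Equiv.Perm.sign σ = 1) ∨
    (σ 0 = 2 ∧ σ 1 = 1 ∧ σ 2 = 0 ∧ ¬ Equiv.Perm.sign σ = 1) := by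
  revert σ
  decide

private theorem mkH_ht {n : ℕ} (β : Fin n → Fin n → Fin n → Bool) : IsHT (mkH β) := by
  constructor
  · intro t ht
    have hne : t 0 ≠ t 1 ∧ t 0 ≠ t 2 ∧ t 1 ≠ t 2 := by
      rcases ht with h | h | h | h | h | h <;> obtain ⟨h1, h2, -⟩ := h
      · exact ⟨h1.ne, (h1.trans h2).ne, h2.ne⟩
      · exact ⟨(h1.trans h2).ne', h2.ne', h1.ne⟩
      · exact ⟨h2.ne, h1.ne', (h1.trans h2).ne'⟩
      · exact ⟨h1.ne', h2.ne, (h1.trans h2).ne⟩
      · exact ⟨(h1.trans h2).ne, h1.ne, h2.ne'⟩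
      · exact ⟨h2.ne', (h1.trans h2).ne', h1.ne'⟩
    obtain ⟨h01, h02, h12⟩ := hne
    intro i j hij
    fin_cases i <;> fin_cases j <;> simp_all
  · intro t ht σ
    have h01 : t 0 ≠ t 1 := fun h => absurd (ht h) (by decide)
    have h02 : t 0 ≠ t 2 := fun h => absurd (ht h) (by decide)
    have h12 : t 1 ≠ t 2 := fun h => absurd (ht h) (by decide)
    have key : ∀ a b c : Fin n, a ≠ b → a ≠ c → b ≠ c →
        (a < b ∧ b < c) ∨ (b < c ∧ c < a) ∨ (c < a ∧ a < b) ∨ (b < a ∧ a < c) ∨ (a < c ∧ c < b) ∨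
          (c < b ∧ b < a) := by
      intro a b c hab hac hbc
      omega
    rcases key _ _ _ h01 h02 h12 with h | h | h | h | h | h <;> obtain ⟨h1, h2⟩ := h <;>
      have h3 := h1.trans h2 <;>
      rcases perm3 σ with h | h | h | h | h | h <;> obtain ⟨s0, s1, s2, s3⟩ := h <;>
      simp [mkH, s0, s1, s2, s3, h1, h2, h3, h1.not_gt, h2.not_gt, h3.not_gt]

private theorem mkH_inc {n : ℕ} (β : Fin n → Fin n → Fin n → Bool) (t : Fin 3 → Fin n)
    (h1 : t 0 < t 1) (h2 : t 1 < t 2) : mkH β () t ↔ β (t 0) (t 1) (t 2) = true := by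
  have h3 := h1.trans h2
  simp [mkH, h1, h2, h3, h1.not_gt, h2.not_gt, h3.not_gt]

/-- The type as a function of the four signs. -/
private def tyb (a b c d : Bool) : ℕ :=
  min (a.toNat + b.toNat + c.toNat + d.toNat) ((!a).toNat + (!b).toNat + (!c).toNat + (!d).toNat)

private theorem ty_tyb {V : Type} (I : Str (fun _ : Unit => 3) V) (u : Fin 4 → V) (a b c d : Bool)
    (ha : yb I u 0 ↔ a = true) (hb : yb I u 1 ↔ b = true) (hc : yb I u 2 ↔ c = true)
    (hd : yb I u 3 ↔ d = true) : ty I u = tyb a b c d := by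
  classical
  unfold ty tyb
  rw [Finset.card_filter, Finset.card_filter, Fin.sum_univ_four, Fin.sum_univ_four]
  simp only [ha, hb, hc, hd]
  cases a <;> cases b <;> cases c <;> cases d <;> simp

private theorem ty_mkH {n : ℕ} (β : Fin n → Fin n → Fin n → Bool) (u : Fin 4 → Fin n) (hu : StrictMono u) :
    ty (mkH β) u = tyb (β (u 1) (u 2) (u 3)) (!β (u 0) (u 2) (u 3)) (β (u 0) (u 1) (u 3))
      (!β (u 0) (u 1) (u 2)) := by
  have h01 : u 0 < u 1 := hu (by decide)
  have h12 : u 1 < u 2 := hu (by decide)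
  have h23 : u 2 < u 3 := hu (by decide)
  apply ty_tyb
  · unfold yb
    rw [mkH_inc β _ h12 h23]
    simp only [Fin.val_zero, Even.zero, iff_true]
    rfl
  · unfold yb
    rw [mkH_inc β _ (show u 0 < u 2 from h01.trans h12) h23]
    have h : ¬ Even ((1 : Fin 4) : ℕ) := by decide
    simp only [h, iff_false, Bool.not_eq_true, Bool.not_eq_true']
    rfl
  · unfold yb
    rw [mkH_inc β _ h01 (show u 1 < u 3 from h12.trans h23)]
    have h : Even ((2 : Fin 4) : ℕ) := by decide
    simp only [h, iff_true]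
    rfl
  · unfold yb
    rw [mkH_inc β _ h01 h12]
    have h : ¬ Even ((3 : Fin 4) : ℕ) := by decide
    simp only [h, iff_false, Bool.not_eq_true, Bool.not_eq_true']
    rfl

private theorem mkH_KT {n : ℕ} (T : Set ℕ) (β : Fin n → Fin n → Fin n → Bool)
    (h : ∀ a b c d : Fin n, a < b → b < c → c < d →
      tyb (β b c d) (!β a c d) (β a b d) (!β a b c) ∈ T) : KT T n (mkH β) := by
  refine ⟨mkH_ht β, fun u hu => ?_⟩
  have hs : StrictMono (u ∘ Tuple.sort u) := by
    refine (Tuple.monotone_sort u).strictMono_of_injective ?_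
    exact hu.comp (Tuple.sort u).injective
  rw [← ty_perm (mkH β) (mkH_ht β) u hu (Tuple.sort u)]
  rw [ty_mkH β (fun i => u (Tuple.sort u i)) hs]
  exact h _ _ _ _ (hs (by decide)) (hs (by decide)) (hs (by decide))

private theorem pull_mkH {n : ℕ} (β γ : Fin (n + 1) → Fin (n + 1) → Fin (n + 1) → Bool)
    (h : ∀ a b c : Fin n, β a.castSucc b.castSucc c.castSucc = γ a.castSucc b.castSucc c.castSucc) :
    pull (Fin.castSucc : Fin n → Fin (n + 1)) (mkH β) = pull Fin.castSucc (mkH γ) := by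
  funext s t
  simp only [pull, mkH, h]

open Classical in
private theorem amal_count (T : Set ℕ) (hK : IsFraisse (KT T)) {n : ℕ}
    (I J : Str (fun _ : Unit => 3) (Fin (n + 1))) (hI : KT T (n + 1) I) (hJ : KT T (n + 1) J)
    (hA : pull (Fin.castSucc : Fin n → Fin (n + 1)) I = pull Fin.castSucc J) (c0 d0 : Fin n)
    (h1 : I () ![c0.castSucc, d0.castSucc, Fin.last n])
    (h2 : ¬ J () ![c0.castSucc, d0.castSucc, Fin.last n]) :
    ∃ z : Fin n → Bool, ∀ c d : Fin n, c ≠ d →
      tyb (z d) (!z c) (decide (J () ![c.castSucc, d.castSucc, Fin.last n]))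
        (!decide (I () ![c.castSucc, d.castSucc, Fin.last n])) ∈ T := by
  obtain ⟨p, L, f', g', hf, hg, hL, hLI, hLJ, hfg⟩ :=
    hK.amal n (n + 1) (n + 1) I J Fin.castSucc Fin.castSucc (Fin.castSucc_injective n)
      (Fin.castSucc_injective n) hI hJ hA
  have eI : ∀ c d : Fin n, (I () ![c.castSucc, d.castSucc, Fin.last n] ↔
      L () ![f' c.castSucc, f' d.castSucc, f' (Fin.last n)]) := by
    intro c d
    rw [← hLI]
    unfold pull
    have : (fun i => f' ((![c.castSucc, d.castSucc, Fin.last n] : Fin 3 → Fin (n + 1)) i)) =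
        ![f' c.castSucc, f' d.castSucc, f' (Fin.last n)] := by
      funext i
      fin_cases i <;> rfl
    rw [this]
  have eJ : ∀ c d : Fin n, (J () ![c.castSucc, d.castSucc, Fin.last n] ↔
      L () ![f' c.castSucc, f' d.castSucc, g' (Fin.last n)]) := by
    intro c d
    rw [← hLJ]
    unfold pull
    have : (fun i => g' ((![c.castSucc, d.castSucc, Fin.last n] : Fin 3 → Fin (n + 1)) i)) =
        ![f' c.castSucc, f' d.castSucc, g' (Fin.last n)] := by
      funext i
      fin_cases i
      · exact (hfg c).symm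
      · exact (hfg d).symm
      · rfl
    rw [this]
  have hxy : f' (Fin.last n) ≠ g' (Fin.last n) := by
    intro h
    rw [eI, h, ← eJ] at h1
    exact h2 h1
  refine ⟨fun i => decide (L () ![f' i.castSucc, f' (Fin.last n), g' (Fin.last n)]), fun c d hcd => ?_⟩
  have hu : Function.Injective (![f' c.castSucc, f' d.castSucc, f' (Fin.last n), g' (Fin.last n)] :
      Fin 4 → Fin p) := by
    have a1 : f' c.castSucc ≠ f' d.castSucc := fun h => hcd (Fin.castSucc_injective n (hf h))
    have a2 : ∀ c : Fin n, f' c.castSucc ≠ f' (Fin.last n) := fun c h =>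
      (Fin.castSucc_lt_last c).ne (hf h)
    have a3 : ∀ c : Fin n, f' c.castSucc ≠ g' (Fin.last n) := fun c h =>
      (Fin.castSucc_lt_last c).ne (hg ((hfg c).symm.trans h))
    intro i j hij
    fin_cases i <;> fin_cases j <;> first
      | rfl
      | exact absurd hij a1
      | exact absurd hij a1.symm
      | exact absurd hij (a2 _)
      | exact absurd hij (a2 _).symm
      | exact absurd hij (a3 _)
      | exact absurd hij (a3 _).symm
      | exact absurd hij hxy
      | exact absurd hij hxy.symm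
  have h := hL.2 _ hu
  rw [ty_tyb L _ (decide (L () ![f' d.castSucc, f' (Fin.last n), g' (Fin.last n)]))
    (!decide (L () ![f' c.castSucc, f' (Fin.last n), g' (Fin.last n)]))
    (decide (J () ![c.castSucc, d.castSucc, Fin.last n]))
    (!decide (I () ![c.castSucc, d.castSucc, Fin.last n]))] at h
  · exact h
  · unfold yb
    have e : (fun j : Fin 3 => (![f' c.castSucc, f' d.castSucc, f' (Fin.last n), g' (Fin.last n)] :
        Fin 4 → Fin p) ((0 : Fin 4).succAbove j)) = ![f' d.castSucc, f' (Fin.last n), g' (Fin.last n)] := by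
      funext j
      fin_cases j <;> rfl
    rw [e]
    simp
  · unfold yb
    have e : (fun j : Fin 3 => (![f' c.castSucc, f' d.castSucc, f' (Fin.last n), g' (Fin.last n)] :
        Fin 4 → Fin p) ((1 : Fin 4).succAbove j)) = ![f' c.castSucc, f' (Fin.last n), g' (Fin.last n)] := by
      funext j
      fin_cases j <;> rfl
    rw [e]
    simp
  · unfold yb
    have e : (fun j : Fin 3 => (![f' c.castSucc, f' d.castSucc, f' (Fin.last n), g' (Fin.last n)] :
        Fin 4 → Fin p) ((2 : Fin 4).succAbove j)) = ![f' c.castSucc, f' d.castSucc, g' (Fin.last n)] := by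
      funext j
      fin_cases j <;> rfl
    rw [e, ← eJ]
    simp
  · unfold yb
    have e : (fun j : Fin 3 => (![f' c.castSucc, f' d.castSucc, f' (Fin.last n), g' (Fin.last n)] :
        Fin 4 → Fin p) ((3 : Fin 4).succAbove j)) = ![f' c.castSucc, f' d.castSucc, f' (Fin.last n)] := by
      funext j
      fin_cases j <;> rfl
    have h : ¬ Even ((3 : Fin 4) : ℕ) := by decide
    rw [e, ← eI, iff_false_right h]
    simp

private theorem dec_mkH {n : ℕ} (β : Fin (n + 1) → Fin (n + 1) → Fin (n + 1) → Bool) (c d : Fin n)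
    (h : c < d) [Decidable (mkH β () ![c.castSucc, d.castSucc, Fin.last n])] :
    decide (mkH β () ![c.castSucc, d.castSucc, Fin.last n]) = β c.castSucc d.castSucc (Fin.last n) := by
  rw [Bool.eq_iff_iff, decide_eq_true_iff]
  exact mkH_inc β _ (Fin.castSucc_lt_castSucc_iff.2 h) (Fin.castSucc_lt_last d)

theorem not_fraisse_0 : ¬ IsFraisse (KT ∅) := by
  intro hK
  have hI : KT ∅ (2 + 1) (mkH (fun _ _ _ => true)) := mkH_KT _ _ (by
    intro a b c d h1 h2 h3
    exfalso
    omega)
  have hJ : KT ∅ (2 + 1) (mkH (fun _ _ _ => false)) := mkH_KT _ _ (by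
    intro a b c d h1 h2 h3
    exfalso
    omega)
  have hA : pull (Fin.castSucc : Fin 2 → Fin (2 + 1)) (mkH (fun _ _ _ => true)) =
      pull Fin.castSucc (mkH (fun _ _ _ => false)) := by
    funext s t
    refine propext ⟨fun h => ?_, fun h => ?_⟩ <;>
    · exfalso
      have := (mkH_ht _).1 _ h
      have h2 : Function.Injective t := fun i j hij => this (congrArg Fin.castSucc hij)
      have := Fintype.card_le_of_injective t h2
      simp at this
  obtain ⟨z, hz⟩ := amal_count ∅ hK _ _ hI hJ hA 0 1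
    ((mkH_inc _ _ (by decide) (by decide)).2 rfl)
    (by
      intro h
      have := (mkH_inc _ _ (by decide) (by decide)).1 h
      exact absurd this (by decide))
  exact hz 0 1 (by decide)

theorem not_fraisse_1 : ¬ IsFraisse (KT {1}) := by
  classical
  intro hK
  have hI : KT {1} (3 + 1) (mkH (fun a b c => !decide ((a, b, c) = ((1, 2, 3) : Fin 4 × Fin 4 × Fin 4)))) :=
    mkH_KT _ _ (by
      simp only [Set.mem_singleton_iff]
      decide)
  have hJ : KT {1} (3 + 1) (mkH (fun a b c => !decide ((a, b, c) = ((0, 2, 3) : Fin 4 × Fin 4 × Fin 4)))) :=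
    mkH_KT _ _ (by
      simp only [Set.mem_singleton_iff]
      decide)
  obtain ⟨z, hz⟩ := amal_count {1} hK _ _ hI hJ (pull_mkH _ _ (by decide)) 0 2
    ((mkH_inc _ _ (by decide) (by decide)).2 (by decide))
    (by
      intro h
      have := (mkH_inc _ _ (by decide) (by decide)).1 h
      exact absurd this (by decide))
  have h01 := hz 0 1 (by decide)
  have h02 := hz 0 2 (by decide)
  have h12 := hz 1 2 (by decide)
  rw [dec_mkH _ _ _ (by decide), dec_mkH _ _ _ (by decide), Set.mem_singleton_iff] at h01 h02 h12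
  generalize z 0 = z0 at *
  generalize z 1 = z1 at *
  generalize z 2 = z2 at *
  revert h01 h02 h12
  revert z0 z1 z2
  decide

theorem not_fraisse_01 : ¬ IsFraisse (KT {0, 1}) := by
  classical
  intro hK
  have hI : KT {0, 1} (4 + 1) (mkH (fun a b c => !decide ((a, b, c) ∈
      ([(1, 2, 3), (0, 2, 4), (1, 3, 4)] : List (Fin 5 × Fin 5 × Fin 5))))) :=
    mkH_KT _ _ (by
      simp only [Set.mem_insert_iff, Set.mem_singleton_iff]
      decide)
  have hJ : KT {0, 1} (4 + 1) (mkH (fun a b c => !decide ((a, b, c) ∈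
      ([(1, 2, 3), (0, 2, 4), (1, 3, 4), (2, 3, 4)] : List (Fin 5 × Fin 5 × Fin 5))))) :=
    mkH_KT _ _ (by
      simp only [Set.mem_insert_iff, Set.mem_singleton_iff]
      decide)
  obtain ⟨z, hz⟩ := amal_count {0, 1} hK _ _ hI hJ (pull_mkH _ _ (by decide)) 2 3
    ((mkH_inc _ _ (by decide) (by decide)).2 (by decide))
    (by
      intro h
      have := (mkH_inc _ _ (by decide) (by decide)).1 h
      exact absurd this (by decide))
  have h01 := hz 0 1 (by decide)
  have h02 := hz 0 2 (by decide)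
  have h12 := hz 1 2 (by decide)
  rw [dec_mkH _ _ _ (by decide), dec_mkH _ _ _ (by decide), Set.mem_insert_iff, Set.mem_singleton_iff]
    at h01 h02 h12
  generalize z 0 = z0 at *
  generalize z 1 = z1 at *
  generalize z 2 = z2 at *
  revert h01 h02 h12
  revert z0 z1 z2
  decide

end Pool.Agent.Helper31.NR
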