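import Pool.Agent.Helper31.NR.Typ

/-!
# Block NC-TYPB: omitting hypertournaments on four points

PROOF.
`omit_eq`: `T = {τ ≤ 2 | no Q ∈ P is a hypertournament with ty Q id = τ}`.  If `I` omits all `Q ∈ P` and `u` is an injective quadruple with `ty I u = τ ∉ T` then there is a
hypertournament `Q ∈ P` with `ty Q id = τ = ty (pull u I) id`, so `pull σ (pull u I) = Q` for some `σ` (`iso_of_ty`), a contradiction.  Conversely, if all types are in `T` and `Q ∈ P` embeds by `u` then `Q = pull u I` is a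
hypertournament and `ty Q id = ty I u ∈ T`, a contradiction.
`KT_12`: `ty I u = 0` iff all `y_i` are equal iff `pull u I` is invariant under even permutations (if all `y_i` are equal use `yb_perm` and the fact that the `y_i` determine the
hypertournament; conversely even permutations act transitively on the four points).  `KT_012`: `ty ≤ 2`.
-/

set_option autoImplicit false

namespace Pool.Agent.Helper31.NR

private theorem isHT_pull {n : ℕ} {I : Str (fun _ : Unit => 3) (Fin n)} (hI : IsHT I) {u : Fin 4 → Fin n}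
    (hu : Function.Injective u) : IsHT (pull u I) := by
  refine ⟨fun t ht => ?_, fun t ht σ => ?_⟩
  · have h3 : Function.Injective (fun i => u (t i)) := hI.1 _ ht
    exact fun a b hab => h3 (congrArg u hab)
  · exact hI.2 (fun i => u (t i)) (hu.comp ht) σ

private theorem ty_pull {n : ℕ} (I : Str (fun _ : Unit => 3) (Fin n)) (u : Fin 4 → Fin n) :
    ty (pull u I) id = ty I u := rfl

private theorem chk1 : ∀ (σ : Equiv.Perm (Fin 4)) (i : Fin 4), ∃ π : Equiv.Perm (Fin 3),
    (∀ k, σ (i.succAbove k) = (σ i).succAbove (π k)) ∧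
      (Equiv.Perm.sign π = 1 ↔ ((Even (i : ℕ) ↔ Even ((σ i : Fin 4) : ℕ)) ↔ Equiv.Perm.sign σ = 1)) := by
  decide +kernel

private theorem chk2 : ∀ i j : Fin 4, ∃ σ : Equiv.Perm (Fin 4), Equiv.Perm.sign σ = 1 ∧ σ i = j := by
  decide +kernel

private theorem chk3 : ∀ t : Fin 3 → Fin 4, Function.Injective t →
    ∃ (i : Fin 4) (π : Equiv.Perm (Fin 3)), t = fun k => i.succAbove (π k) := by
  decide +kernel

private theorem ext4 {P Q : Str (fun _ : Unit => 3) (Fin 4)} (hP : IsHT P) (hQ : IsHT Q)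
    (h : ∀ i : Fin 4, P () (fun k => i.succAbove k) ↔ Q () (fun k => i.succAbove k)) : P = Q := by
  funext s t
  apply propext
  by_cases ht : Function.Injective t
  · obtain ⟨i, π, rfl⟩ := chk3 t ht
    have hi : Function.Injective (fun k => i.succAbove k) := Fin.succAbove_right_injective
    have h1 := hP.2 _ hi π
    have h2 := hQ.2 _ hi π
    have h3 := h i
    exact h1.trans (Iff.trans (iff_congr h3 Iff.rfl) h2.symm)
  · exact ⟨fun h1 => absurd (hP.1 t h1) ht, fun h1 => absurd (hQ.1 t h1) ht⟩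

private theorem key4 {P : Str (fun _ : Unit => 3) (Fin 4)} (hP : IsHT P) {σ : Equiv.Perm (Fin 4)}
    (hσ : Equiv.Perm.sign σ = 1) (i : Fin 4) :
    (P () (fun k => σ (i.succAbove k)) ↔ Even (i : ℕ)) ↔ yb P id (σ i) := by
  obtain ⟨π, h1, h2⟩ := chk1 σ i
  have h3 : (fun k => σ (i.succAbove k)) = fun k => (σ i).succAbove (π k) := funext h1
  have hi : Function.Injective (fun k => (σ i).succAbove k) := Fin.succAbove_right_injective
  have h4 := hP.2 _ hi π
  rw [h3]
  have h5 : yb P id (σ i) ↔ (P () (fun k => (σ i).succAbove k) ↔ Even ((σ i : Fin 4) : ℕ)) := Iff.rfl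
  rw [h5]
  simp only [hσ, iff_true] at h2
  rw [h2] at h4
  tauto

private theorem evenSym_iff {P : Str (fun _ : Unit => 3) (Fin 4)} (hP : IsHT P) :
    EvenSym P ↔ ∀ i j, yb P id i ↔ yb P id j := by
  constructor
  · intro h i j
    obtain ⟨σ, h1, h2⟩ := chk2 i j
    have h3 := key4 hP h1 i
    rw [h2] at h3
    rw [← h3]
    have h4 : pull σ P () (fun k => i.succAbove k) ↔ P () (fun k => i.succAbove k) := by
      rw [h σ h1]
    have h5 : yb P id i ↔ (P () (fun k => i.succAbove k) ↔ Even (i : ℕ)) := Iff.rfl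
    rw [h5]
    exact iff_congr h4.symm Iff.rfl
  · intro h σ hσ
    have hQ : IsHT (pull σ P) := isHT_pull hP σ.injective
    apply ext4 hQ hP
    intro i
    have h3 := key4 hP hσ i
    rw [← h i (σ i)] at h3
    have h5 : yb P id i ↔ (P () (fun k => i.succAbove k) ↔ Even (i : ℕ)) := Iff.rfl
    rw [h5] at h3
    have h6 : pull σ P () (fun k => i.succAbove k) ↔ P () (fun k => σ (i.succAbove k)) := Iff.rfl
    rw [h6]
    tauto

private theorem ty_zero_iff {P : Str (fun _ : Unit => 3) (Fin 4)} :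
    ty P id = 0 ↔ ∀ i j, yb P id i ↔ yb P id j := by
  classical
  unfold ty
  constructor
  · intro h i j
    rcases Nat.min_eq_zero_iff.1 h with h1 | h1
    · rw [Finset.card_eq_zero, Finset.filter_eq_empty_iff] at h1
      exact iff_of_false (h1 (Finset.mem_univ i)) (h1 (Finset.mem_univ j))
    · rw [Finset.card_eq_zero, Finset.filter_eq_empty_iff] at h1
      exact iff_of_true (not_not.1 (h1 (Finset.mem_univ i))) (not_not.1 (h1 (Finset.mem_univ j)))
  · intro h
    apply Nat.min_eq_zero_iff.2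
    by_cases h0 : yb P id 0
    · right
      rw [Finset.card_eq_zero, Finset.filter_eq_empty_iff]
      intro i _
      exact not_not.2 ((h 0 i).1 h0)
    · left
      rw [Finset.card_eq_zero, Finset.filter_eq_empty_iff]
      intro i _ hi
      exact h0 ((h 0 i).2 hi)

theorem omit_eq (P : Set (Str (fun _ : Unit => 3) (Fin 4))) :
    ∃ T : Set ℕ, T ⊆ {0, 1, 2} ∧
      HTF 3 {p : Σ n : ℕ, Str (fun _ : Unit => 3) (Fin n) | ∃ Q ∈ P, p = ⟨4, Q⟩} = KT T := by
  refine ⟨{τ | τ ≤ 2 ∧ ∀ Q ∈ P, IsHT Q → ty Q id ≠ τ}, ?_, ?_⟩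
  · rintro τ ⟨h1, _⟩
    have h2 : τ = 0 ∨ τ = 1 ∨ τ = 2 := by
      omega
    exact h2
  · funext n I
    apply propext
    constructor
    · rintro ⟨hI, h1⟩
      refine ⟨hI, fun u hu => ⟨ty_le I u, fun Q hQ hQ1 hQ2 => ?_⟩⟩
      obtain ⟨σ, hσ⟩ := iso_of_ty (pull u I) Q (isHT_pull hI hu) hQ1 hQ2.symm
      exact h1 ⟨4, Q⟩ ⟨Q, hQ, rfl⟩ ⟨fun i => u (σ i), hu.comp σ.injective, hσ⟩
    · rintro ⟨hI, h1⟩
      refine ⟨hI, ?_⟩
      rintro p ⟨Q, hQ, rfl⟩ ⟨f, hf, hfQ⟩
      change pull f I = Q at hfQ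
      have h2 := (h1 f hf).2 Q hQ (by rw [← hfQ]; exact isHT_pull hI hf)
      apply h2
      rw [← hfQ]
      rfl

theorem KT_12 : KT {1, 2} = HFree 3 := by
  funext n I
  apply propext
  constructor
  · rintro ⟨hI, h1⟩
    refine ⟨hI, fun u hu hE => ?_⟩
    have h2 : ty (pull u I) id = 0 := ty_zero_iff.2 ((evenSym_iff (isHT_pull hI hu)).1 hE)
    have h3 := h1 u hu
    rw [← ty_pull, h2] at h3
    simp at h3
  · rintro ⟨hI, h1⟩
    refine ⟨hI, fun u hu => ?_⟩
    have h2 : ty I u ≠ 0 := by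
      intro h3
      rw [← ty_pull, ty_zero_iff] at h3
      exact h1 u hu ((evenSym_iff (isHT_pull hI hu)).2 h3)
    have h4 := ty_le I u
    have h5 : ty I u = 1 ∨ ty I u = 2 := by
      omega
    exact h5

theorem KT_012 : KT {0, 1, 2} = HTF 3 ∅ := by
  funext n I
  apply propext
  constructor
  · rintro ⟨hI, _⟩
    exact ⟨hI, fun p hp => absurd hp (Set.notMem_empty p)⟩
  · rintro ⟨hI, _⟩
    refine ⟨hI, fun u _ => ?_⟩
    have h4 := ty_le I u
    have h5 : ty I u = 0 ∨ ty I u = 1 ∨ ty I u = 2 := by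
      omega
    exact h5

end Pool.Agent.Helper31.NR
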