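import Pool.Agent.Helper31.NR.Good
import Pool.Agent.Helper31.NR.TypB
import Pool.Agent.Helper31.NR.NonF
import Pool.Agent.Helper31.NR.DefE
import Pool.Agent.Helper31.NR.CycL
import Pool.Agent.Helper31.NR.EvenL
import Pool.Agent.Helper31.NR.Fin4
import Pool.Agent.Helper31.NR.H4L

/-!
# Assembly: the 3-hypertournament classes given by forbidden structures on four points
-/

set_option autoImplicit false

namespace Pool.Agent.Helper31.NR

theorem positive_of_orderExpansion {S : Type} {ar : S → ℕ} (K : Cls ar) (h : OrderExpansion K) : Positive K :=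
  ⟨Unit, inferInstance, fun _ => 2, ordC K, h.2.1, h.2.2.1, h.2.2.2.1, h.2.2.2.2⟩

theorem positive_of_ord_def {S S' : Type} [Finite S] [Finite S'] {ar : S → ℕ} {ar' : S' → ℕ} (K : Cls ar) (K1 : Cls ar')
    (h1 : OrderExpansion K1) (Φ : ∀ V : Type, Str (arO ar') V → Str ar V) (hΦ : Natural Φ)
    (hl : ∀ (M : Type) (I : Str (arO ar') M), IsLimit (ordC K1) M I → IsLimit K M (Φ M I)) : Positive K := by
  obtain ⟨M, I, hI, _⟩ := h1.2.2.1
  exact positive_of_def K (ordC K1) Φ hΦ h1.2.1 h1.2.2.2.2 h1.2.2.2.1 ⟨M, I, hI, hl M I hI⟩

theorem orderExpansion_E0 : OrderExpansion E0 :=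
  orderExpansion_of_completable Empty arE (fun s => s.elim) E0 (fun _ _ _ _ _ _ => trivial)
    ⟨0, fun s => s.elim, trivial⟩ ⟨∅, Set.finite_empty, fun _ _ => ⟨fun _ p hp => absurd hp (Set.notMem_empty p), fun _ => trivial⟩⟩
    (fun _ _ I _ _ => ⟨I, trivial, fun _ _ _ _ => rfl⟩)

theorem her_Gr : Hereditary Gr := by
  intro m n f I _ hI
  have e : ∀ a b : Fin m, (fun i => f ((![a, b] : Fin 2 → Fin m) i)) = ![f a, f b] := by
    intro a b
    funext i
    fin_cases i <;> rfl
  constructor
  · intro x h
    have h' : I () (fun i => f ((![x, x] : Fin 2 → Fin m) i)) := h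
    rw [e] at h'
    exact hI.1 (f x) h'
  · intro x y h
    have h' : I () (fun i => f ((![x, y] : Fin 2 → Fin m) i)) := h
    rw [e] at h'
    have h2 : I () (fun i => f ((![y, x] : Fin 2 → Fin m) i)) := by
      rw [e]
      exact hI.2 _ _ h'
    exact h2

theorem bdd_Gr : FinBounded Gr := by
  refine (finBounded_iff Gr her_Gr).2 ⟨2, fun n I h => ⟨fun x hx => ?_, fun x y hxy => ?_⟩⟩
  · have h1 := (h 1 (by norm_num) (fun _ => x) (Function.injective_of_subsingleton _)).1 0
    apply h1
    have e : (fun i => (fun _ : Fin 1 => x) ((![0, 0] : Fin 2 → Fin 1) i)) = ![x, x] := by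
      funext i
      fin_cases i <;> rfl
    change I () (fun i => (fun _ : Fin 1 => x) ((![0, 0] : Fin 2 → Fin 1) i))
    rw [e]
    exact hx
  · by_cases hne : x = y
    · subst hne
      exact hxy
    · have hinj : Function.Injective (![x, y] : Fin 2 → Fin n) := by
        intro a b hab
        fin_cases a <;> fin_cases b <;> simp_all
      have h1 := (h 2 le_rfl ![x, y] hinj).2 0 1
      have e1 : (fun i => (![x, y] : Fin 2 → Fin n) ((![0, 1] : Fin 2 → Fin 2) i)) = ![x, y] := by
        funext i
        fin_cases i <;> rfl
      have e2 : (fun i => (![x, y] : Fin 2 → Fin n) ((![1, 0] : Fin 2 → Fin 2) i)) = ![y, x] := by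
        funext i
        fin_cases i <;> rfl
      have h3 : I () (fun i => (![x, y] : Fin 2 → Fin n) ((![1, 0] : Fin 2 → Fin 2) i)) := by
        apply h1
        change I () (fun i => (![x, y] : Fin 2 → Fin n) ((![0, 1] : Fin 2 → Fin 2) i))
        rw [e1]
        exact hxy
      rw [e2] at h3
      exact h3

theorem comp_Gr : Completable Gr := by
  classical
  intro n E I hs h
  refine ⟨fun s t => I s t ∧ (E (t 0) (t 1)) ∧ t 0 ≠ t 1, ?_, ?_⟩
  · constructor
    · intro x hx
      exact hx.2.2 rfl
    · rintro x y ⟨h1, h2, h3⟩
      have h2' : E x y := h2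
      have h3' : x ≠ y := h3
      refine ⟨?_, hs _ _ h2', h3'.symm⟩
      rcases lt_or_gt_of_ne h3' with hlt | hlt
      · have hm : StrictMono (![x, y] : Fin 2 → Fin n) := by
          intro a b hab
          fin_cases a <;> fin_cases b <;> simp_all
        have hc : Clq E (![x, y] : Fin 2 → Fin n) := by
          intro a b hab
          fin_cases a <;> fin_cases b
          · exact absurd rfl hab
          · exact h2'
          · exact hs _ _ h2'
          · exact absurd rfl hab
        have h4 := (h 2 _ hm hc).2 0 1
        have e1 : (fun i => (![x, y] : Fin 2 → Fin n) ((![0, 1] : Fin 2 → Fin 2) i)) = ![x, y] := by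
          funext i
          fin_cases i <;> rfl
        have e2 : (fun i => (![x, y] : Fin 2 → Fin n) ((![1, 0] : Fin 2 → Fin 2) i)) = ![y, x] := by
          funext i
          fin_cases i <;> rfl
        have h5 : I () (fun i => (![x, y] : Fin 2 → Fin n) ((![1, 0] : Fin 2 → Fin 2) i)) := by
          apply h4
          change I () (fun i => (![x, y] : Fin 2 → Fin n) ((![0, 1] : Fin 2 → Fin 2) i))
          rw [e1]
          exact h1
        rw [e2] at h5
        exact h5
      · have hm : StrictMono (![y, x] : Fin 2 → Fin n) := by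
          intro a b hab
          fin_cases a <;> fin_cases b <;> simp_all
        have hc : Clq E (![y, x] : Fin 2 → Fin n) := by
          intro a b hab
          fin_cases a <;> fin_cases b
          · exact absurd rfl hab
          · exact hs _ _ h2'
          · exact h2'
          · exact absurd rfl hab
        have h4 := (h 2 _ hm hc).2 1 0
        have e1 : (fun i => (![y, x] : Fin 2 → Fin n) ((![1, 0] : Fin 2 → Fin 2) i)) = ![x, y] := by
          funext i
          fin_cases i <;> rfl
        have e2 : (fun i => (![y, x] : Fin 2 → Fin n) ((![0, 1] : Fin 2 → Fin 2) i)) = ![y, x] := by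
          funext i
          fin_cases i <;> rfl
        have h5 : I () (fun i => (![y, x] : Fin 2 → Fin n) ((![0, 1] : Fin 2 → Fin 2) i)) := by
          apply h4
          change I () (fun i => (![y, x] : Fin 2 → Fin n) ((![1, 0] : Fin 2 → Fin 2) i))
          rw [e1]
          exact h1
        rw [e2] at h5
        exact h5
  · intro m f hf hc
    funext s t
    apply propext
    constructor
    · intro h1
      exact h1.1
    · intro h1
      have h2 : t 0 ≠ t 1 := by
        intro h3
        have h4 := (h m f hf hc).1 (t 0)
        apply h4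
        have e : (![t 0, t 0] : Fin 2 → Fin m) = t := by
          funext i
          fin_cases i
          · rfl
          · exact h3
        rw [e]
        exact h1
      exact ⟨h1, hc _ _ h2, fun h3 => h2 (hf.injective h3)⟩

theorem orderExpansion_Gr : OrderExpansion Gr :=
  orderExpansion_of_completable Unit (fun _ => 2) (fun _ => by norm_num) Gr her_Gr
    ⟨0, fun _ _ => False, fun _ h => h, fun _ _ h => h⟩ bdd_Gr comp_Gr

theorem pull2 {S : Type} {ar : S → ℕ} {V W : Type} (f : W → V) (I : Str (arO ar) V) (x y : W) :
    lt' (pull f I) x y ↔ lt' I (f x) (f y) := by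
  have e : (fun i => f ((![x, y] : Fin 2 → W) i)) = ![f x, f y] := by
    funext i
    fin_cases i <;> rfl
  exact iff_of_eq (congrArg (I (Sum.inr ())) e)

theorem cyc_pull {S : Type} {ar : S → ℕ} {V W : Type} (f : W → V) (I : Str (arO ar) V) (a b c : W) :
    Cyc (pull f I) a b c ↔ Cyc I (f a) (f b) (f c) := by
  unfold Cyc
  simp only [pull2]

theorem natural_PhiC : Natural PhiC := by
  intro V W f I hf
  funext s t
  apply propext
  exact (cyc_pull f I (t 0) (t 1) (t 2)).symm

theorem natural_PhiG : Natural PhiG := by
  intro V W f I hf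
  funext s t
  apply propext
  have hr : ∀ x y : W, red (pull f I) () ![x, y] ↔ red I () ![f x, f y] := by
    intro x y
    have e : (fun i => f ((![x, y] : Fin 2 → W) i)) = ![f x, f y] := by
      funext i
      fin_cases i <;> rfl
    exact iff_of_eq (congrArg (I (Sum.inl ())) e)
  have hinj : Function.Injective (fun i => f (t i)) ↔ Function.Injective t :=
    ⟨fun h => Function.Injective.of_comp (f := f) h, fun h => hf.comp h⟩
  unfold PhiG pull
  change (Function.Injective (fun i => f (t i)) ∧ _) ↔ (Function.Injective t ∧ _)
  rw [hinj]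
  refine and_congr Iff.rfl ?_
  have h1 := cyc_pull f I (t 0) (t 1) (t 2)
  have h2 := hr (t 0) (t 1)
  have h3 := hr (t 0) (t 2)
  have h4 := hr (t 1) (t 2)
  unfold pull at h1 h2 h3 h4
  rw [h1, h2, h3, h4]

theorem natural_PhiN : Natural PhiN := by
  intro V W f I hf
  rfl

theorem positive_four (P : Set (Str (fun _ : Unit => 3) (Fin 4)))
    (hF : IsFraisse (HTF 3 {p : Σ n : ℕ, Str (fun _ : Unit => 3) (Fin n) | ∃ Q ∈ P, p = ⟨4, Q⟩})) :
    Positive (HTF 3 {p : Σ n : ℕ, Str (fun _ : Unit => 3) (Fin n) | ∃ Q ∈ P, p = ⟨4, Q⟩}) := by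
  obtain ⟨T, hT, hTe⟩ := omit_eq P
  rw [hTe] at hF ⊢
  clear hTe
  have p012 : Positive (KT {0, 1, 2}) := by
    rw [KT_012]
    exact positive_of_orderExpansion _ (orderExpansion_HTF 3 (by norm_num) ∅ Set.finite_empty
      (fun p hp => absurd hp (Set.notMem_empty p)))
  have p12 : Positive (KT {1, 2}) := by
    rw [KT_12, hF_eq]
    exact positive_of_orderExpansion _ (orderExpansion_HTF 3 (by norm_num) (FH 3) (hF_fin 3)
      (hF_irred (le_refl 3)))
  have p2 : Positive (KT {2}) :=
    positive_of_ord_def _ E0 orderExpansion_E0 PhiC natural_PhiC (fun M I h => cyc_limit h)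
  have p02 : Positive (KT {0, 2}) :=
    positive_of_ord_def _ Gr orderExpansion_Gr PhiG natural_PhiG (fun M I h => even_limit h)
  have p0 : Positive (KT {0}) :=
    positive_of_def _ KN PhiN natural_PhiN kn_fraisse kn_ramsey kn_bdd ⟨Fin 4, MN, kn_limit, h4_limit⟩
  by_cases h0 : 0 ∈ T <;> by_cases h1 : 1 ∈ T <;> by_cases h2 : 2 ∈ T
  · have e : T = {0, 1, 2} := by
      apply Set.Subset.antisymm hT
      rintro x (rfl | rfl | rfl) <;> assumption
    rw [e]
    exact p012
  · have e : T = {0, 1} := by
      apply Set.Subset.antisymm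
      · intro x hx
        rcases hT hx with rfl | rfl | rfl
        · exact Or.inl rfl
        · exact Or.inr rfl
        · exact absurd hx h2
      · rintro x (rfl | rfl) <;> assumption
    rw [e] at hF
    exact absurd hF not_fraisse_01
  · have e : T = {0, 2} := by
      apply Set.Subset.antisymm
      · intro x hx
        rcases hT hx with rfl | rfl | rfl
        · exact Or.inl rfl
        · exact absurd hx h1
        · exact Or.inr rfl
      · rintro x (rfl | rfl) <;> assumption
    rw [e]
    exact p02
  · have e : T = {0} := by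
      apply Set.Subset.antisymm
      · intro x hx
        rcases hT hx with rfl | rfl | rfl
        · exact rfl
        · exact absurd hx h1
        · exact absurd hx h2
      · rintro x rfl
        assumption
    rw [e]
    exact p0
  · have e : T = {1, 2} := by
      apply Set.Subset.antisymm
      · intro x hx
        rcases hT hx with rfl | rfl | rfl
        · exact absurd hx h0
        · exact Or.inl rfl
        · exact Or.inr rfl
      · rintro x (rfl | rfl) <;> assumption
    rw [e]
    exact p12
  · have e : T = {1} := by
      apply Set.Subset.antisymm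
      · intro x hx
        rcases hT hx with rfl | rfl | rfl
        · exact absurd hx h0
        · exact rfl
        · exact absurd hx h2
      · rintro x rfl
        assumption
    rw [e] at hF
    exact absurd hF not_fraisse_1
  · have e : T = {2} := by
      apply Set.Subset.antisymm
      · intro x hx
        rcases hT hx with rfl | rfl | rfl
        · exact absurd hx h0
        · exact absurd hx h1
        · exact rfl
      · rintro x rfl
        assumption
    rw [e]
    exact p2
  · have e : T = ∅ := by
      apply Set.eq_empty_of_forall_notMem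
      intro x hx
      rcases hT hx with rfl | rfl | rfl
      · exact absurd hx h0
      · exact absurd hx h1
      · exact absurd hx h2
    rw [e] at hF
    exact absurd hF not_fraisse_0

end Pool.Agent.Helper31.NR
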