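import Pool.Agent.Helper31.NR.Defs

/-!
# Block NR-FRS: ordered amalgamation

PROOF.  `f : Fin a → Fin m`, `g : Fin a → Fin n` strictly monotone, `pull f I = pull g J`.
Let `V = Fin m ⊕ {j : Fin n // j ∉ Set.range g}` and `jn : Fin n → V`, `jn (g i) = inl (f i)`, `jn j = inr j` for the other `j`; `inl` and `jn` are injective, cover
`V` and agree on `Fin a`.  Order `V` lexicographically by the key `(c, side, index)` where for `i : Fin m`,
`c (inl i) = 2 * #{k | f k < i} + (if i ∈ range f then 1 else 0)`, side `0`, and for `j ∉ range g`, `c (inr j) = 2 * #{k | g k < j}`, side `1` (index = the number `i` or `j`).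
Then `inl` and `jn` are strictly monotone (an element of the common part has key `2 k + 1` where `k` is its number, the other elements have the even key of
their gap).  Transport to `Fin p`: strictly monotone maps `f' : Fin m → Fin p`, `g' : Fin n → Fin p` with `f' ∘ f = g' ∘ g`, which cover `Fin p` and have
`f' i = g' j` only for `i = f k`, `j = g k`.  (Any other proof of this amalgamation of finite linear orders is as good.)
Let `E x y` iff both are in the range of `f'` or both in the range of `g'`, and let `L0 s t` iff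
`∃ w, t = f' ∘ w ∧ I s w` or `∃ w, t = g' ∘ w ∧ J s w` (for a tuple in both ranges the two agree, because it comes from `Fin a`).  A clique of `E` is contained
in one of the two ranges (a point only in the first and a point only in the second range are not related), so the substructures on cliques are in `K` by `OHered`.
`Completable` gives `L ∈ K` with `pull f' L = pull f' L0 = I` and `pull g' L = pull g' L0 = J`.
-/

set_option autoImplicit false

namespace Pool.Agent.Helper31.NR

section h42

private noncomputable def h42c {a m : ℕ} (f : Fin a → Fin m) (i : Fin m) : ℕ := by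
  classical exact (Finset.univ.filter fun k => f k < i).card

private lemma h42c_mono {a m : ℕ} (f : Fin a → Fin m) {i i' : Fin m} (h : i ≤ i') :
    h42c f i ≤ h42c f i' := by
  classical
  unfold h42c
  refine Finset.card_le_card fun k hk => ?_
  simp only [Finset.mem_filter, Finset.mem_univ, true_and] at hk ⊢
  exact lt_of_lt_of_le hk h

private lemma h42c_lt {a m : ℕ} (f : Fin a → Fin m) {i i' : Fin m} (h : i < i')
    (hi : i ∈ Set.range f) : h42c f i + 1 ≤ h42c f i' := by
  classical
  unfold h42c
  obtain ⟨k, rfl⟩ := hi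
  refine Finset.card_lt_card ?_
  rw [Finset.ssubset_iff_of_subset]
  · exact ⟨k, by simpa using h, by simp⟩
  · intro k' hk
    simp only [Finset.mem_filter, Finset.mem_univ, true_and] at hk ⊢
    exact hk.trans h

private lemma h42c_range {a m : ℕ} (f : Fin a → Fin m) (hf : StrictMono f) (k : Fin a) :
    h42c f (f k) = k := by
  classical
  unfold h42c
  have h1 : (Finset.univ.filter fun k' => f k' < f k) = Finset.Iio k := by
    ext k'
    simp [hf.lt_iff_lt]
  rw [h1, Fin.card_Iio]

/-- the key -/
private noncomputable def h42F {a m : ℕ} (f : Fin a → Fin m) (N r : ℕ) (i : Fin m) : ℕ := by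
  classical exact if i ∈ Set.range f then (2 * h42c f i + 1) * N else 2 * h42c f i * N + (r + 1 + i)

private lemma h42F_pos {a m : ℕ} (f : Fin a → Fin m) (N r : ℕ) {i : Fin m} (h : i ∈ Set.range f) :
    h42F f N r i = (2 * h42c f i + 1) * N := by
  classical
  unfold h42F
  exact if_pos h

private lemma h42F_neg {a m : ℕ} (f : Fin a → Fin m) (N r : ℕ) {i : Fin m} (h : i ∉ Set.range f) :
    h42F f N r i = 2 * h42c f i * N + (r + 1 + i) := by
  classical
  unfold h42F
  exact if_neg h

private lemma h42F_mono {a m : ℕ} (f : Fin a → Fin m) (N r : ℕ) (hN : r + 1 + m ≤ N) :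
    StrictMono (h42F f N r) := by
  intro i i' h
  have hi := i.isLt
  have hi' := i'.isLt
  have hlt : (i : ℕ) < i' := h
  have h0 := h42c_mono f h.le
  by_cases h1 : i ∈ Set.range f
  · have h2 := h42c_lt f h h1
    rw [h42F_pos f N r h1]
    by_cases h3 : i' ∈ Set.range f
    · rw [h42F_pos f N r h3]
      have h4 : (2 * h42c f i + 1) * N + 2 * N ≤ (2 * h42c f i' + 1) * N := by nlinarith
      omega
    · rw [h42F_neg f N r h3]
      have h4 : (2 * h42c f i + 1) * N + N ≤ 2 * h42c f i' * N := by nlinarith
      omega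
  · rw [h42F_neg f N r h1]
    by_cases h3 : i' ∈ Set.range f
    · rw [h42F_pos f N r h3]
      have h4 : 2 * h42c f i * N + N ≤ (2 * h42c f i' + 1) * N := by nlinarith
      omega
    · rw [h42F_neg f N r h3]
      rcases h0.eq_or_lt with h5 | h5
      · rw [h5]
        omega
      · have h4 : 2 * h42c f i * N + 2 * N ≤ 2 * h42c f i' * N := by nlinarith
        omega

end h42

/-- amalgamation of finite linear orders -/
theorem amal_lin {a m n : ℕ} (f : Fin a → Fin m) (g : Fin a → Fin n) (hf : StrictMono f) (hg : StrictMono g) :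
    ∃ (p : ℕ) (f' : Fin m → Fin p) (g' : Fin n → Fin p), StrictMono f' ∧ StrictMono g' ∧
      (∀ i, f' (f i) = g' (g i)) ∧ (∀ x, x ∈ Set.range f' ∨ x ∈ Set.range g') ∧
      ∀ i j, f' i = g' j → ∃ k, i = f k ∧ j = g k := by
  classical
  set N : ℕ := m + 1 + n with hN
  set F : Fin m → ℕ := h42F f N 0 with hF
  set H : Fin n → ℕ := h42F g N m with hH
  have hFm : StrictMono F := h42F_mono f N 0 (by omega)
  have hHm : StrictMono H := h42F_mono g N m (by omega)
  have hcom : ∀ k, F (f k) = H (g k) := by
    intro k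
    rw [hF, hH, h42F_pos f N 0 ⟨k, rfl⟩, h42F_pos g N m ⟨k, rfl⟩, h42c_range f hf, h42c_range g hg]
  have hsep : ∀ i j, F i = H j → ∃ k, i = f k ∧ j = g k := by
    intro i j h
    have hi := i.isLt
    have hj := j.isLt
    by_cases h1 : i ∈ Set.range f
    · by_cases h2 : j ∈ Set.range g
      · obtain ⟨k, rfl⟩ := h1
        obtain ⟨k', rfl⟩ := h2
        rw [hcom k] at h
        have h3 := hHm.injective h
        exact ⟨k, rfl, h3.symm⟩
      · exfalso
        rw [hF, hH, h42F_pos f N 0 h1, h42F_neg g N m h2] at h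
        have h3 : (2 * h42c g j * N + (m + 1 + j)) % N = m + 1 + j := by
          rw [Nat.mul_add_mod_of_lt (by omega)]
        rw [← h, Nat.mul_mod_left] at h3
        omega
    · by_cases h2 : j ∈ Set.range g
      · exfalso
        rw [hF, hH, h42F_neg f N 0 h1, h42F_pos g N m h2] at h
        have h3 : (2 * h42c f i * N + (0 + 1 + i)) % N = 0 + 1 + i := by
          rw [Nat.mul_add_mod_of_lt (by omega)]
        rw [h, Nat.mul_mod_left] at h3
        omega
      · exfalso
        rw [hF, hH, h42F_neg f N 0 h1, h42F_neg g N m h2] at h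
        have h3 : (2 * h42c g j * N + (m + 1 + j)) % N = m + 1 + j := by
          rw [Nat.mul_add_mod_of_lt (by omega)]
        have h4 : (2 * h42c f i * N + (0 + 1 + i)) % N = 0 + 1 + i := by
          rw [Nat.mul_add_mod_of_lt (by omega)]
        rw [← h, h4] at h3
        omega
  set T : Finset ℕ := Finset.univ.image F ∪ Finset.univ.image H with hT
  have hFT : ∀ i, F i ∈ T := fun i =>
    Finset.mem_union_left _ (Finset.mem_image_of_mem _ (Finset.mem_univ i))
  have hHT : ∀ j, H j ∈ T := fun j =>
    Finset.mem_union_right _ (Finset.mem_image_of_mem _ (Finset.mem_univ j))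
  let e : Fin T.card ≃o T := T.orderIsoOfFin rfl
  refine ⟨T.card, fun i => e.symm ⟨F i, hFT i⟩, fun j => e.symm ⟨H j, hHT j⟩, ?_, ?_, ?_, ?_, ?_⟩
  · intro i i' h
    exact e.symm.strictMono (Subtype.mk_lt_mk.2 (hFm h))
  · intro i i' h
    exact e.symm.strictMono (Subtype.mk_lt_mk.2 (hHm h))
  · intro i
    simp only [hcom]
  · intro x
    rcases Finset.mem_union.1 (e x).2 with h | h
    · obtain ⟨i, -, hi⟩ := Finset.mem_image.1 h
      left
      refine ⟨i, ?_⟩
      have h1 : (⟨F i, hFT i⟩ : T) = e x := Subtype.ext hi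
      simp only [h1, OrderIso.symm_apply_apply]
    · obtain ⟨i, -, hi⟩ := Finset.mem_image.1 h
      right
      refine ⟨i, ?_⟩
      have h1 : (⟨H i, hHT i⟩ : T) = e x := Subtype.ext hi
      simp only [h1, OrderIso.symm_apply_apply]
  · intro i j h
    exact hsep i j (congrArg Subtype.val (e.symm.injective h))

private lemma h42_pull_pull {S : Type} {ar : S → ℕ} {V W U : Type} (e : W → V) (e' : U → W)
    (I : Str ar V) : pull e' (pull e I) = pull (e ∘ e') I := rfl

theorem amalO {S : Type} {ar : S → ℕ} (K : Cls ar) (hK : OHered K) (hC : Completable K) {a m n : ℕ} (I : Str ar (Fin m))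
    (J : Str ar (Fin n)) (f : Fin a → Fin m) (g : Fin a → Fin n) (hf : StrictMono f) (hg : StrictMono g)
    (hI : K m I) (hJ : K n J) (h : pull f I = pull g J) :
    ∃ (p : ℕ) (L : Str ar (Fin p)) (f' : Fin m → Fin p) (g' : Fin n → Fin p),
      StrictMono f' ∧ StrictMono g' ∧ K p L ∧ pull f' L = I ∧ pull g' L = J ∧ ∀ i, f' (f i) = g' (g i) := by
  classical
  obtain ⟨p, f', g', hf', hg', hcom, hcov, hsep⟩ := amal_lin f g hf hg
  let E : Fin p → Fin p → Prop := fun x y =>
    (x ∈ Set.range f' ∧ y ∈ Set.range f') ∨ (x ∈ Set.range g' ∧ y ∈ Set.range g')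
  let L0 : Str ar (Fin p) := fun s t => (∃ w, t = f' ∘ w ∧ I s w) ∨ ∃ w, t = g' ∘ w ∧ J s w
  have hLI : pull f' L0 = I := by
    funext s w
    apply propext
    constructor
    · rintro (⟨w', h1, h2⟩ | ⟨w', h1, h2⟩)
      · have h3 : w = w' := funext fun i => hf'.injective (congrFun h1 i)
        rw [h3]
        exact h2
      · have h3 : ∀ i, ∃ k, w i = f k ∧ w' i = g k := fun i => hsep _ _ (congrFun h1 i)
        choose k hk1 hk2 using h3
        have h4 : w = fun i => f (k i) := funext hk1
        have h5 : w' = fun i => g (k i) := funext hk2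
        rw [h4]
        rw [h5] at h2
        have h6 : pull g J s k := h2
        rw [← h] at h6
        exact h6
    · intro h1
      exact Or.inl ⟨w, rfl, h1⟩
  have hLJ : pull g' L0 = J := by
    funext s w
    apply propext
    constructor
    · rintro (⟨w', h1, h2⟩ | ⟨w', h1, h2⟩)
      · have h3 : ∀ i, ∃ k, w' i = f k ∧ w i = g k := fun i => hsep _ _ (congrFun h1 i).symm
        choose k hk1 hk2 using h3
        have h4 : w' = fun i => f (k i) := funext hk1
        have h5 : w = fun i => g (k i) := funext hk2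
        rw [h5]
        rw [h4] at h2
        have h6 : pull f I s k := h2
        rw [h] at h6
        exact h6
      · have h3 : w = w' := funext fun i => hg'.injective (congrFun h1 i)
        rw [h3]
        exact h2
    · intro h1
      exact Or.inr ⟨w, rfl, h1⟩
  have hlift : ∀ {l q : ℕ} (φ : Fin l → Fin p) (e : Fin q → Fin p), StrictMono φ → StrictMono e →
      (∀ i, φ i ∈ Set.range e) → ∃ ψ : Fin l → Fin q, StrictMono ψ ∧ φ = e ∘ ψ := by
    intro l q φ e hφ he h1
    choose ψ hψ using h1
    refine ⟨ψ, fun i i' hii => ?_, funext fun i => (hψ i).symm⟩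
    rw [← he.lt_iff_lt, hψ, hψ]
    exact hφ hii
  obtain ⟨L, hL, hLc⟩ := hC p E L0 (fun x y hxy => by
      rcases hxy with ⟨h1, h2⟩ | ⟨h1, h2⟩
      · exact Or.inl ⟨h2, h1⟩
      · exact Or.inr ⟨h2, h1⟩) (by
      intro l φ hφ hcl
      by_cases h1 : ∀ i, φ i ∈ Set.range f'
      · obtain ⟨ψ, hψ, rfl⟩ := hlift φ f' hφ hf' h1
        rw [← h42_pull_pull, hLI]
        exact hK _ _ ψ I hψ hI
      · have h2 : ∀ i, φ i ∈ Set.range g' := by
          by_contra h2
          push Not at h1 h2
          obtain ⟨i, hi⟩ := h1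
          obtain ⟨j, hj⟩ := h2
          have hij : i ≠ j := by
            rintro rfl
            rcases hcov (φ i) with h3 | h3
            · exact hi h3
            · exact hj h3
          rcases hcl i j hij with h3 | h3
          · exact hi h3.1
          · exact hj h3.2
        obtain ⟨ψ, hψ, rfl⟩ := hlift φ g' hφ hg' h2
        rw [← h42_pull_pull, hLJ]
        exact hK _ _ ψ J hψ hJ)
  refine ⟨p, L, f', g', hf', hg', hL, ?_, ?_, hcom⟩
  · rw [hLc m f' hf' (fun i j _ => Or.inl ⟨⟨i, rfl⟩, ⟨j, rfl⟩⟩), hLI]
  · rw [hLc n g' hg' (fun i j _ => Or.inr ⟨⟨i, rfl⟩, ⟨j, rfl⟩⟩), hLJ]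

end Pool.Agent.Helper31.NR
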