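import Pool.Agent.Helper31.NR.Frs
import Pool.Agent.Helper31.NR.OrdC

/-!
# Block NR-FRSO: `ordC K` and a hereditary completable `K` are Fraisse classes

PROOF.  `fraisse_ordC`.  `her`: `her_ordC`.  `amal`: given `I, J ∈ ordC K` with increasing enumerations `e, e'`, and `f, g` injective with `pull f I = pull g J`.  Let `u` be a
bijection of `Fin a` such that `e.symm ∘ f ∘ u` is strictly monotone (`u` = increasing enumeration of `Fin a` for the order `lt' (pull f I)`, `exists_enum`); since
`pull f I = pull g J` also `e'.symm ∘ g ∘ u` is strictly monotone.  Apply `amalO` to `pull e (red I)`, `pull e' (red J)` and these maps: `p, L0, f0, g0`.  Let `L` be `L0` with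
the natural order on `Fin p` (`L (Sum.inl s) t = L0 s t`, `L (Sum.inr ()) t = (t 0 < t 1)`); `L ∈ ordC K` by `ordC_nat`; `f' = f0 ∘ e.symm`, `g' = g0 ∘ e'.symm`.
`pull f' L = I`: for the symbols `Sum.inl s` this is `pull f0 L0 = pull e (red I)`; for `Sum.inr ()`: `t = ![t 0, t 1]` and `lt' I (e x) (e y) ↔ x < y`.
`jep`: the case `a = 0` (with positive arities all structures on `Fin 0` are equal).
`fraisse_of_completable`: a hereditary `K` is `OHered`.  For `f, g` injective and `pull f I = pull g J` choose bijections `e` of `Fin m` and `e'` of `Fin n` such that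
`e.symm ∘ f` and `e'.symm ∘ g` are strictly monotone (for example send `f i` to `i`, and the points outside the range of `f` to the remaining places), and apply
`amalO` to `pull e I` and `pull e' J`, which are in `K` by `Hereditary`.
-/

set_option autoImplicit false

namespace Pool.Agent.Helper31.NR

variable {S : Type} {ar : S → ℕ}

/-- a structure with the natural order -/
private def mk56 {p : ℕ} (L0 : Str ar (Fin p)) : Str (arO ar) (Fin p)
  | Sum.inl s, t => L0 s t
  | Sum.inr _, t => t (0 : Fin 2) < t (1 : Fin 2)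

private lemma vec56 {V : Type} (t : Fin 2 → V) : (![t 0, t 1] : Fin 2 → V) = t := by
  funext i
  fin_cases i <;> rfl

private lemma lt'_pull56 {V W : Type} (f : W → V) (I : Str (arO ar) V) (x y : W) :
    lt' (pull f I) x y ↔ lt' I (f x) (f y) := by
  have h : (fun i => f ((![x, y] : Fin 2 → W) i)) = (![f x, f y] : Fin 2 → V) := by
    funext i
    fin_cases i <;> rfl
  exact iff_of_eq (congrArg (fun t : Fin 2 → V => I (Sum.inr ()) t) h)

private lemma enum_lt56 {n : ℕ} {I : Str (arO ar) (Fin n)} {e : Fin n ≃ Fin n}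
    (he : ∀ x y, lt' I (e x) (e y) ↔ x < y) (a b : Fin n) : lt' I a b ↔ e.symm a < e.symm b := by
  have := he (e.symm a) (e.symm b)
  rwa [Equiv.apply_symm_apply, Equiv.apply_symm_apply] at this

private lemma amal_ordC56 (K : Cls ar) (hK : OHered K) (hC : Completable K) (a m n : ℕ)
    (I : Str (arO ar) (Fin m)) (J : Str (arO ar) (Fin n)) (f : Fin a → Fin m) (g : Fin a → Fin n)
    (hf : Function.Injective f) (_hg : Function.Injective g) (hI : ordC K m I) (hJ : ordC K n J)
    (h : pull f I = pull g J) :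
    ∃ (p : ℕ) (L : Str (arO ar) (Fin p)) (f' : Fin m → Fin p) (g' : Fin n → Fin p),
      Function.Injective f' ∧ Function.Injective g' ∧ ordC K p L ∧ pull f' L = I ∧ pull g' L = J ∧
      ∀ i, f' (f i) = g' (g i) := by
  obtain ⟨e, he, hKI⟩ := hI
  obtain ⟨e', he', hKJ⟩ := hJ
  have hI' := enum_lt56 he
  have hJ' := enum_lt56 he'
  obtain ⟨u, hu⟩ := exists_enum (fun x y => lt' I (f x) (f y))
    (fun x hx => lt_irrefl _ ((hI' _ _).1 hx))
    (fun x y hxy => by
      rw [hI', hI']
      have h1 : e.symm (f x) ≠ e.symm (f y) := fun h => hxy (hf (e.symm.injective h))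
      exact lt_or_gt_of_ne h1)
    (fun x y z h1 h2 => by
      rw [hI'] at h1 h2 ⊢
      exact h1.trans h2)
  have hfu : StrictMono fun x => e.symm (f (u x)) := fun x y hxy => (hI' _ _).1 ((hu x y).2 hxy)
  have hgu : StrictMono fun x => e'.symm (g (u x)) := fun x y hxy => by
    refine (hJ' _ _).1 ?_
    rw [← lt'_pull56, ← h, lt'_pull56]
    exact (hu x y).2 hxy
  have hp : pull (fun x => e.symm (f (u x))) (pull e (red I)) =
      pull (fun x => e'.symm (g (u x))) (pull e' (red J)) := by
    funext s t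
    change I (Sum.inl s) (fun i => e (e.symm (f (u (t i))))) =
      J (Sum.inl s) (fun i => e' (e'.symm (g (u (t i)))))
    simp only [Equiv.apply_symm_apply]
    exact congrFun (congrFun h (Sum.inl s)) (fun i => u (t i))
  obtain ⟨p, L0, f0, g0, hf0, hg0, hKL, e1, e2, e3⟩ :=
    amalO K hK hC (pull e (red I)) (pull e' (red J)) _ _ hfu hgu hKI hKJ hp
  have key : ∀ (l : ℕ) (J0 : Str (arO ar) (Fin l)) (ε : Fin l ≃ Fin l) (h0 : Fin l → Fin p),
      (∀ a b, lt' J0 a b ↔ ε.symm a < ε.symm b) → StrictMono h0 → pull h0 L0 = pull ε (red J0) →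
      pull (fun x => h0 (ε.symm x)) (mk56 L0) = J0 := by
    intro l J0 ε h0 hlt hh0 hpull
    funext s
    rcases s with s | s
    · funext t
      change L0 s (fun i => h0 (ε.symm (t i))) = J0 (Sum.inl s) t
      have h1 : L0 s (fun i => h0 (ε.symm (t i))) = J0 (Sum.inl s) (fun i => ε (ε.symm (t i))) :=
        congrFun (congrFun hpull s) (fun i => ε.symm (t i))
      simp only [Equiv.apply_symm_apply] at h1
      exact h1
    · funext (t : Fin 2 → Fin l)
      change (h0 (ε.symm (t 0)) < h0 (ε.symm (t 1))) = J0 (Sum.inr s) t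
      apply propext
      rw [hh0.lt_iff_lt, ← hlt]
      exact iff_of_eq (congrArg (fun t : Fin 2 → Fin l => J0 (Sum.inr ()) t) (vec56 t))
  refine ⟨p, mk56 L0, fun x => f0 (e.symm x), fun x => g0 (e'.symm x),
    hf0.injective.comp e.symm.injective, hg0.injective.comp e'.symm.injective,
    (ordC_nat K (mk56 L0) fun x y => Iff.rfl).2 hKL, key m I e f0 hI' hf0 e1,
    key n J e' g0 hJ' hg0 e2, fun i => ?_⟩
  have h1 := e3 (u.symm i)
  simp only [Equiv.apply_symm_apply] at h1
  exact h1

private lemma pull_zero56 {S : Type} {ar : S → ℕ} (har : ∀ s, 0 < ar s) {m n : ℕ}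
    (I : Str ar (Fin m)) (J : Str ar (Fin n)) (f : Fin 0 → Fin m) (g : Fin 0 → Fin n) :
    pull f I = pull g J := by
  funext s t
  exact (t ⟨0, har s⟩).elim0

theorem fraisse_ordC (har : ∀ s, 0 < ar s) (K : Cls ar) (hK : OHered K) (hC : Completable K) :
    IsFraisse (ordC K) := by
  have har' : ∀ s, 0 < arO ar s := by
    rintro (s | s)
    · exact har s
    · exact Nat.zero_lt_two
  refine ⟨her_ordC K hK, fun m n I J hI hJ => ?_, amal_ordC56 K hK hC⟩
  obtain ⟨p, L, f, g, hf, hg, hL, e1, e2, -⟩ := amal_ordC56 K hK hC 0 m n I J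
    (fun i => i.elim0) (fun i => i.elim0) (fun i => i.elim0) (fun i => i.elim0) hI hJ
    (pull_zero56 har' I J _ _)
  exact ⟨p, L, f, g, hf, hg, hL, e1, e2⟩

private lemma sort56 {a m : ℕ} (f : Fin a → Fin m) (hf : Function.Injective f) :
    ∃ e : Fin m ≃ Fin m, StrictMono fun i => e.symm (f i) := by
  classical
  let key : Fin m → ℕ := fun x => if h : ∃ i, f i = x then (h.choose : ℕ) else a + x
  have hkey : ∀ i, key (f i) = i := by
    intro i
    have h : ∃ j, f j = f i := ⟨i, rfl⟩
    change (if h : ∃ j, f j = f i then (h.choose : ℕ) else a + (f i : ℕ)) = i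
    rw [dif_pos h]
    exact congrArg Fin.val (hf h.choose_spec)
  have hkey' : ∀ x, (¬ ∃ i, f i = x) → key x = a + x := fun x h => dif_neg h
  have hinj : ∀ x y, key x = key y → x = y := by
    intro x y hxy
    by_cases hx : ∃ i, f i = x
    · obtain ⟨i, rfl⟩ := hx
      by_cases hy : ∃ j, f j = y
      · obtain ⟨j, rfl⟩ := hy
        rw [hkey, hkey] at hxy
        rw [Fin.ext hxy]
      · rw [hkey, hkey' y hy] at hxy
        have := i.isLt
        omega
    · by_cases hy : ∃ j, f j = y
      · obtain ⟨j, rfl⟩ := hy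
        rw [hkey, hkey' x hx] at hxy
        have := j.isLt
        omega
      · rw [hkey' x hx, hkey' y hy] at hxy
        exact Fin.ext (by omega)
  obtain ⟨e, he⟩ := exists_enum (fun x y => key x < key y) (fun x => lt_irrefl _)
    (fun x y hxy => lt_or_gt_of_ne fun h => hxy (hinj x y h)) (fun x y z h1 h2 => h1.trans h2)
  refine ⟨e, fun i j hij => ?_⟩
  have h1 := he (e.symm (f i)) (e.symm (f j))
  simp only [Equiv.apply_symm_apply, hkey] at h1
  exact h1.1 hij

private lemma amal56 (K : Cls ar) (hK : Hereditary K) (hC : Completable K) (a m n : ℕ)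
    (I : Str ar (Fin m)) (J : Str ar (Fin n)) (f : Fin a → Fin m) (g : Fin a → Fin n)
    (hf : Function.Injective f) (hg : Function.Injective g) (hI : K m I) (hJ : K n J)
    (h : pull f I = pull g J) :
    ∃ (p : ℕ) (L : Str ar (Fin p)) (f' : Fin m → Fin p) (g' : Fin n → Fin p),
      Function.Injective f' ∧ Function.Injective g' ∧ K p L ∧ pull f' L = I ∧ pull g' L = J ∧
      ∀ i, f' (f i) = g' (g i) := by
  obtain ⟨e, he⟩ := sort56 f hf
  obtain ⟨e', he'⟩ := sort56 g hg
  have hp : pull (fun i => e.symm (f i)) (pull e I) = pull (fun i => e'.symm (g i)) (pull e' J) := by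
    funext s t
    change I s (fun i => e (e.symm (f (t i)))) = J s (fun i => e' (e'.symm (g (t i))))
    simp only [Equiv.apply_symm_apply]
    exact congrFun (congrFun h s) t
  obtain ⟨p, L, f0, g0, hf0, hg0, hL, e1, e2, e3⟩ := amalO K
    (fun m n f I hf hI => hK m n f I hf.injective hI) hC (pull e I) (pull e' J) _ _ he he'
    (hK _ _ e I e.injective hI) (hK _ _ e' J e'.injective hJ) hp
  have key : ∀ (l : ℕ) (J0 : Str ar (Fin l)) (ε : Fin l ≃ Fin l) (h0 : Fin l → Fin p),
      pull h0 L = pull ε J0 → pull (fun x => h0 (ε.symm x)) L = J0 := by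
    intro l J0 ε h0 hpull
    funext s t
    have h1 : L s (fun i => h0 (ε.symm (t i))) = J0 s (fun i => ε (ε.symm (t i))) :=
      congrFun (congrFun hpull s) (fun i => ε.symm (t i))
    simp only [Equiv.apply_symm_apply] at h1
    exact h1
  exact ⟨p, L, fun x => f0 (e.symm x), fun x => g0 (e'.symm x),
    hf0.injective.comp e.symm.injective, hg0.injective.comp e'.symm.injective, hL,
    key m I e f0 e1, key n J e' g0 e2, e3⟩

theorem fraisse_of_completable (har : ∀ s, 0 < ar s) (K : Cls ar) (hK : Hereditary K) (hC : Completable K) :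
    IsFraisse K := by
  refine ⟨hK, fun m n I J hI hJ => ?_, amal56 K hK hC⟩
  obtain ⟨p, L, f, g, hf, hg, hL, e1, e2, -⟩ := amal56 K hK hC 0 m n I J
    (fun i => i.elim0) (fun i => i.elim0) (fun i => i.elim0) (fun i => i.elim0) hI hJ
    (pull_zero56 har I J _ _)
  exact ⟨p, L, f, g, hf, hg, hL, e1, e2⟩

end Pool.Agent.Helper31.NR
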