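import Pool.Agent.Helper31.NR.HypDefs

/-!
# Block NR-HYP: the natural one-point amalgamation of hypertournaments

PROOF.  `rho` is a natural one-point amalgamation of `HTF r F`:
* `keep`: by definition.
* `nat`: for a strictly monotone `f` and `x < y`, `ky (f x) (f y) (f z) < ky (f x) (f y) (f z') ↔ ky x y z < ky x y z'`, so `vd_sign` applies;
  `f x ∈ range (f ∘ t) ↔ x ∈ range t`; `f ∘ t` is injective iff `t` is.
* `mem`, hypertournament: a tuple and its permutations have the same range; if it contains `x` and `y` use `vd_perm` (the product is not zero for an injective tuple, `vd_ne`);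
  otherwise the range of the tuple is contained in the range of the increasing enumeration `f` of a set which does not contain both, and
  `pull f I` is a hypertournament.
* `mem`, no `p ∈ F` embeds: let `u : Fin k → Fin n` be injective with `pull u (rho I) = p.2`.  If `x` or `y` is not in the range of `u` then `pull u (rho I) = pull u I`
  and `p` embeds into `pull f I ∈ HTF`, `f` the increasing enumeration of the range of `u`.  Otherwise let `w : Fin k ≃ Fin k` be such that `ky x y ∘ u ∘ w` is strictly increasing
  (sort); its last two values are those of `x` and `y`, so `u (w (k - 2)) = x`, `u (w (k - 1)) = y`.  For a strictly increasing `t : Fin r → Fin k` with `k - 2, k - 1` in its range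
  the tuple `u ∘ w ∘ t` contains `x, y` and is increasing for `ky x y`, so it is in the relation of `rho I` (`vd_pos`); this contradicts `Irred p.2`.
-/

set_option autoImplicit false

namespace Pool.Agent.Helper31.NR

private theorem ky_lt {m n : ℕ} (f : Fin m → Fin n) (hf : StrictMono f) (x y z z' : Fin m) :
    ky (f x) (f y) (f z) < ky (f x) (f y) (f z') ↔ ky x y z < ky x y z' := by
  unfold ky
  have e : ∀ a b : Fin m, f a = f b ↔ a = b := fun a b => hf.injective.eq_iff
  have hlt : ((f z : ℕ) < (f z' : ℕ)) ↔ ((z : ℕ) < (z' : ℕ)) := by
    rw [← Fin.lt_def, ← Fin.lt_def]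
    exact hf.lt_iff_lt
  have h1 := z.isLt
  have h2 := z'.isLt
  have h3 := (f z).isLt
  have h4 := (f z').isLt
  simp only [e]
  split_ifs <;> omega

private theorem ky_inj {n : ℕ} (x y : Fin n) (hxy : x < y) : Function.Injective (ky x y) := by
  intro a b h
  unfold ky at h
  have h1 := a.isLt
  have h2 := b.isLt
  split_ifs at h with c1 c2 c3 c4 c5 c6 c7 c8
  all_goals first
    | (subst c1; subst c2; rfl)
    | omega

private theorem lift_tuple {k n : ℕ} (z : Fin (n + 1)) (t : Fin k → Fin (n + 1)) (hz : z ∉ Set.range t) :
    ∃ t' : Fin k → Fin n, ∀ i, z.succAbove (t' i) = t i := by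
  have : ∀ i, ∃ a : Fin n, z.succAbove a = t i := by
    intro i
    apply Fin.exists_succAbove_eq
    intro h
    exact hz ⟨i, h⟩
  choose t' ht' using this
  exact ⟨t', ht'⟩

theorem natAmalg_rho {r : ℕ} (hr : 2 ≤ r) (F : Set (Σ n : ℕ, Str (fun _ : Unit => r) (Fin n)))
    (hF : ∀ p ∈ F, Irred p.2) : NatAmalg (HTF r F) (fun n x y I => rho n x y I) := by
  refine ⟨?_, ?_, ?_⟩
  · intro n x y I s t hxy hnot
    have hn : ¬ (x ∈ Set.range t ∧ y ∈ Set.range t) := by
      rintro ⟨h1, h2⟩
      rcases hnot with h | h
      · exact h h1
      · exact h h2
    simp only [rho]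
    constructor
    · rintro (⟨h, _⟩ | ⟨_, h⟩)
      · exact absurd h hn
      · exact h
    · intro h
      exact Or.inr ⟨hn, h⟩
  · intro m n f x y I hf hxy
    funext s t
    have hr1 : ∀ z : Fin m, f z ∈ Set.range (fun i => f (t i)) ↔ z ∈ Set.range t := by
      intro z
      constructor
      · rintro ⟨i, hi⟩
        exact ⟨i, hf.injective hi⟩
      · rintro ⟨i, hi⟩
        exact ⟨i, by simp only [hi]⟩
    have hinj : Function.Injective (fun i => f (t i)) ↔ Function.Injective t := by
      constructor
      · intro h a b hab
        exact h (by simp only [hab])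
      · intro h
        exact hf.injective.comp h
    have hs : 0 < vd (fun i => ky (f x) (f y) (f (t i))) ↔ 0 < vd (fun i => ky x y (t i)) :=
      vd_sign _ _ (fun i j => ky_lt f hf x y (t i) (t j))
    apply propext
    simp only [pull, rho, hr1, hinj, hs]
  · intro n x y I hxy hK
    have key : ∀ (z : Fin n), (z = x ∨ z = y) → ∀ (k : ℕ) (t : Fin k → Fin n), z ∉ Set.range t →
        ∃ (m : ℕ) (f : Fin m → Fin n) (t' : Fin k → Fin m), StrictMono f ∧ (∀ i, f (t' i) = t i) ∧
          HTF r F m (pull f I) := by
      intro z hz k t hzt
      obtain ⟨n', rfl⟩ : ∃ n', n = n' + 1 := ⟨n - 1, by have := x.isLt; omega⟩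
      obtain ⟨t', ht'⟩ := lift_tuple z t hzt
      refine ⟨n', z.succAbove, t', Fin.strictMono_succAbove z, ht', ?_⟩
      apply hK _ _ (Fin.strictMono_succAbove z)
      rcases hz with rfl | rfl
      · left
        rw [Fin.range_succAbove]
        simp
      · right
        rw [Fin.range_succAbove]
        simp
    have key2 : ∀ (k : ℕ) (t : Fin k → Fin n), ¬ (x ∈ Set.range t ∧ y ∈ Set.range t) →
        ∃ (m : ℕ) (f : Fin m → Fin n) (t' : Fin k → Fin m), StrictMono f ∧ (∀ i, f (t' i) = t i) ∧
          HTF r F m (pull f I) := by
      intro k t h
      by_cases hx : x ∈ Set.range t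
      · exact key y (Or.inr rfl) k t (fun hy => h ⟨hx, hy⟩)
      · exact key x (Or.inl rfl) k t hx
    refine ⟨⟨?_, ?_⟩, ?_⟩
    · intro t ht
      rcases ht with ⟨_, h, _⟩ | ⟨hn, h⟩
      · exact h
      · obtain ⟨m, f, t', hf, hft, hm⟩ := key2 _ t hn
        have hI : pull f I () t' := by
          show I () (fun i => f (t' i))
          have : (fun i => f (t' i)) = t := funext hft
          rw [this]
          exact h
        have h2 := hm.1.1 t' hI
        have : t = fun i => f (t' i) := (funext hft).symm
        rw [this]
        exact hf.injective.comp h2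
    · intro t ht σ
      have hrange : Set.range (fun i => t (σ i)) = Set.range t := by
        ext z
        constructor
        · rintro ⟨i, hi⟩
          exact ⟨σ i, hi⟩
        · rintro ⟨i, hi⟩
          exact ⟨σ.symm i, by simpa using hi⟩
      have hinj : Function.Injective (fun i => t (σ i)) := ht.comp σ.injective
      by_cases hb : x ∈ Set.range t ∧ y ∈ Set.range t
      · have hne : vd (fun i => ky x y (t i)) ≠ 0 := vd_ne _ ((ky_inj x y hxy).comp ht)
        have hp := vd_perm (fun i => ky x y (t i)) σ
        have e1 : rho n x y I () (fun i => t (σ i)) ↔ 0 < vd (fun i => ky x y (t (σ i))) := by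
          unfold rho
          rw [hrange]
          constructor
          · rintro (⟨_, _, h⟩ | ⟨h, _⟩)
            · exact h
            · exact absurd hb h
          · intro h
            exact Or.inl ⟨hb, hinj, h⟩
        have e2 : rho n x y I () t ↔ 0 < vd (fun i => ky x y (t i)) := by
          unfold rho
          constructor
          · rintro (⟨_, _, h⟩ | ⟨h, _⟩)
            · exact h
            · exact absurd hb h
          · intro h
            exact Or.inl ⟨hb, ht, h⟩
        rw [e1, e2, hp]
        rcases Int.units_eq_one_or (Equiv.Perm.sign σ) with hs | hs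
        · rw [hs]
          simp
        · rw [hs]
          have hne1 : ¬ ((-1 : ℤˣ) = 1) := by decide
          simp only [Units.val_neg, Units.val_one, neg_mul, one_mul, hne1, iff_false, not_lt]
          constructor
          · intro h
            omega
          · intro h
            omega
      · obtain ⟨m, f, t', hf, hft, hm⟩ := key2 _ t hb
        have hft' : t = fun i => f (t' i) := (funext hft).symm
        have ht' : Function.Injective t' := by
          intro a b hab
          apply ht
          rw [hft']
          simp only [hab]
        have h2 := hm.1.2 t' ht' σ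
        have e1 : rho n x y I () (fun i => t (σ i)) ↔ I () (fun i => t (σ i)) := by
          unfold rho
          rw [hrange]
          constructor
          · rintro (⟨h, _⟩ | ⟨_, h⟩)
            · exact absurd h hb
            · exact h
          · intro h
            exact Or.inr ⟨hb, h⟩
        have e2 : rho n x y I () t ↔ I () t := by
          unfold rho
          constructor
          · rintro (⟨h, _⟩ | ⟨_, h⟩)
            · exact absurd h hb
            · exact h
          · intro h
            exact Or.inr ⟨hb, h⟩
        rw [e1, e2]
        have e3 : (fun i => t (σ i)) = fun i => f (t' (σ i)) := by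
          funext i
          exact (hft (σ i)).symm
        rw [e3, hft']
        exact h2
    · intro p hp hE
      obtain ⟨k, P⟩ := p
      obtain ⟨u, hu, hpull⟩ := hE
      change Fin k → Fin n at u
      change pull u (rho n x y I) = P at hpull
      by_cases hb : x ∈ Set.range u ∧ y ∈ Set.range u
      · set w : Equiv.Perm (Fin k) := Tuple.sort (fun i => ky x y (u i)) with hw
        have hmono : Monotone (fun i => ky x y (u (w i))) := by
          have := Tuple.monotone_sort (fun i => ky x y (u i))
          exact this
        have hginj : Function.Injective (fun i => ky x y (u (w i))) :=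
          (ky_inj x y hxy).comp (hu.comp w.injective)
        have hg : StrictMono (fun i => ky x y (u (w i))) := hmono.strictMono_of_injective hginj
        obtain ⟨⟨a, ha⟩, ⟨b, hb'⟩⟩ := hb
        have hxy' : x ≠ y := ne_of_lt hxy
        have kx : ky x y x = n := by simp [ky]
        have kyy : ky x y y = n + 1 := by simp [ky, hxy'.symm]
        have kle : ∀ z, z ≠ x → z ≠ y → ky x y z < n := by
          intro z h1 h2
          simp only [ky, h1, h2, if_false]
          have := z.isLt
          omega
        have kle1 : ∀ z, ky x y z ≤ n + 1 := by
          intro z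
          unfold ky
          have := z.isLt
          split_ifs <;> omega
        have gb : ky x y (u (w (w.symm b))) = n + 1 := by
          rw [Equiv.apply_symm_apply, hb', kyy]
        have ga : ky x y (u (w (w.symm a))) = n := by
          rw [Equiv.apply_symm_apply, ha, kx]
        have hbk : ((w.symm b : Fin k) : ℕ) + 1 = k := by
          have h1 := (w.symm b).isLt
          by_contra hne
          have h2 : ((w.symm b : Fin k) : ℕ) + 1 < k := by omega
          have h3 : w.symm b < (⟨(w.symm b : ℕ) + 1, h2⟩ : Fin k) := by
            rw [Fin.lt_def]
            simp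
          have h4 := hg h3
          simp only [gb] at h4
          have h5 := kle1 (u (w (⟨(w.symm b : ℕ) + 1, h2⟩ : Fin k)))
          omega
        have hab : w.symm a < w.symm b := by
          rw [← hg.lt_iff_lt]
          simp only [gb, ga]
          omega
        have hak : ((w.symm a : Fin k) : ℕ) + 2 = k := by
          rw [Fin.lt_def] at hab
          by_contra hne
          have h2 : ((w.symm a : Fin k) : ℕ) + 1 < k := by omega
          have h3 : w.symm a < (⟨(w.symm a : ℕ) + 1, h2⟩ : Fin k) := by
            rw [Fin.lt_def]
            simp
          have h3' : (⟨(w.symm a : ℕ) + 1, h2⟩ : Fin k) < w.symm b := by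
            rw [Fin.lt_def]
            simp only
            omega
          have h4 := hg h3
          have h5 := hg h3'
          simp only [gb, ga] at h4 h5
          omega
        obtain ⟨t, ht, ⟨i, hi⟩, ⟨j, hj⟩, hnot⟩ := hF ⟨k, P⟩ hp w
        apply hnot
        change (t i : ℕ) + 2 = k at hi
        change (t j : ℕ) + 1 = k at hj
        show P () (fun i => w (t i))
        rw [← hpull]
        have hti : t i = w.symm a := Fin.ext (by omega)
        have htj : t j = w.symm b := Fin.ext (by omega)
        refine Or.inl ⟨⟨⟨i, ?_⟩, ⟨j, ?_⟩⟩, ?_, ?_⟩
        · show u (w (t i)) = x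
          rw [hti, Equiv.apply_symm_apply, ha]
        · show u (w (t j)) = y
          rw [htj, Equiv.apply_symm_apply, hb']
        · exact hu.comp (w.injective.comp ht.injective)
        · apply vd_pos
          exact hg.comp ht
      · obtain ⟨m, f, t', hf, hft, hm⟩ := key2 _ u hb
        apply hm.2 ⟨k, P⟩ hp
        refine ⟨t', ?_, ?_⟩
        · intro a b hab
          apply hu
          rw [← hft a, ← hft b, hab]
        · rw [← hpull]
          funext s v
          apply propext
          simp only [pull, hft, rho]
          have hnr : ¬ (x ∈ Set.range (fun i => u (v i)) ∧ y ∈ Set.range (fun i => u (v i))) := by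
            rintro ⟨⟨i, hi⟩, ⟨j, hj⟩⟩
            exact hb ⟨⟨v i, hi⟩, ⟨v j, hj⟩⟩
          constructor
          · intro h
            exact Or.inr ⟨hnr, h⟩
          · rintro (⟨h, _⟩ | ⟨_, h⟩)
            · exact absurd h hnr
            · exact h

end Pool.Agent.Helper31.NR
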