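import Pool.Agent.Helper31.NR.HypDefs
import Pool.Agent.Helper31.NR.Bdd

/-!
# Block NR-HYPB: the classes of hypertournaments are hereditary and finitely bounded

PROOF.  `her_HTF`: `pull f I` is a hypertournament if `f` is injective (`f ∘ t` injective iff `t` injective); an embedding of `p` into `pull f I` composed with `f` is an
embedding into `I`.  `zero_HTF`: with `2 ≤ r` there are no tuples in `Fin 0`; a `p ∈ F` with `Irred p.2` has at least two points, so it does not embed.
`bdd_HTF`: take `N = max r (sup of the sizes of the elements of F)`: a structure `I` all of whose substructures of size `≤ N` are in the class is a hypertournament (the range of a tuple has at most `r`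
elements; look at the substructure on the range of the tuple), and no `p ∈ F` embeds (`p.2 = pull f I` would be a substructure of size `≤ N`, and `p.2` embeds into itself).
-/

set_option autoImplicit false

namespace Pool.Agent.Helper31.NR

theorem her_HTF (r : ℕ) (F : Set (Σ n : ℕ, Str (fun _ : Unit => r) (Fin n))) : Hereditary (HTF r F) := by
  rintro m n f I hf ⟨⟨h1, h2⟩, h3⟩
  refine ⟨⟨?_, ?_⟩, ?_⟩
  · intro t ht
    have h4 : Function.Injective (f ∘ t) := h1 (fun i => f (t i)) ht
    exact h4.of_comp
  · intro t ht σ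
    exact h2 (fun i => f (t i)) (hf.comp ht) σ
  · rintro p hp ⟨g, hg, hg2⟩
    exact h3 p hp ⟨f ∘ g, hf.comp hg, hg2⟩

theorem zero_HTF {r : ℕ} (hr : 2 ≤ r) (F : Set (Σ n : ℕ, Str (fun _ : Unit => r) (Fin n)))
    (hF : ∀ p ∈ F, Irred p.2) : HTF r F 0 (fun _ _ => False) := by
  refine ⟨⟨?_, ?_⟩, ?_⟩
  · intro t ht
    exact ht.elim
  · intro t _ _
    exact (t ⟨0, by omega⟩).elim0
  · rintro p hp ⟨f, _, _⟩
    obtain ⟨t, _, ⟨i, _⟩, _⟩ := hF p hp (Equiv.refl _)
    exact (f (t i)).elim0

theorem bdd_HTF (r : ℕ) (F : Set (Σ n : ℕ, Str (fun _ : Unit => r) (Fin n))) (hF : F.Finite) :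
    FinBounded (HTF r F) := by
  classical
  refine (finBounded_iff _ (her_HTF r F)).2 ⟨max r (hF.toFinset.sup fun p => p.1), ?_⟩
  intro n I hI
  have key : ∀ t : Fin r → Fin n, ∃ m, m ≤ r ∧ ∃ (f : Fin m → Fin n) (t' : Fin r → Fin m),
      Function.Injective f ∧ ∀ i, f (t' i) = t i := by
    intro t
    refine ⟨(Finset.univ.image t).card, ?_, fun j => ((Finset.univ.image t).equivFin.symm j : Fin n),
      fun i => (Finset.univ.image t).equivFin ⟨t i, Finset.mem_image_of_mem t (Finset.mem_univ i)⟩, ?_, ?_⟩
    · exact Finset.card_image_le.trans (by simp)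
    · intro a b hab
      exact (Finset.univ.image t).equivFin.symm.injective (Subtype.ext hab)
    · intro i
      simp
  refine ⟨⟨?_, ?_⟩, ?_⟩
  · intro t ht
    obtain ⟨m, hm, f, t', hf, hft⟩ := key t
    have h1 := (hI m (hm.trans (le_max_left _ _)) f hf).1.1 t' (by
      change I () (fun i => f (t' i))
      rwa [funext hft])
    intro i j hij
    rw [← hft i, ← hft j] at hij
    exact h1 (hf hij)
  · intro t ht σ
    obtain ⟨m, hm, f, t', hf, hft⟩ := key t
    have ht' : Function.Injective t' := by
      intro i j hij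
      apply ht
      rw [← hft i, ← hft j, hij]
    have h1 := (hI m (hm.trans (le_max_left _ _)) f hf).1.2 t' ht' σ
    change (I () (fun i => f (t' (σ i))) ↔ (I () (fun i => f (t' i)) ↔ Equiv.Perm.sign σ = 1)) at h1
    rw [funext hft, show (fun i => f (t' (σ i))) = fun i => t (σ i) from funext fun i => hft (σ i)] at h1
    exact h1
  · rintro p hp ⟨f, hf, hfp⟩
    have hle : p.1 ≤ max r (hF.toFinset.sup fun p => p.1) :=
      (Finset.le_sup (f := fun p : (Σ n : ℕ, Str (fun _ : Unit => r) (Fin n)) => p.1)
        (hF.mem_toFinset.2 hp)).trans (le_max_right _ _)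
    refine (hI p.1 hle f hf).2 p hp ⟨id, Function.injective_id, ?_⟩
    rw [hfp]
    rfl

end Pool.Agent.Helper31.NR
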