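import Pool.Agent.Helper31.NR.HypDefs

/-!
# Block NR-HYPH: the hypertournament on `r + 1` points with all even symmetries

PROOF.  `hsym_irred` (`3 ≤ r`).  Let `P` be a hypertournament on `Fin (r + 1)` which is invariant under all even permutations.  Let `w` be an enumeration; suppose that all tuples `w ∘ t`, `t : Fin r → Fin (r + 1)`
strictly increasing with `r - 1, r` in its range, are in the relation.  Apply this to `t0 = (1, 2, 3, ..., r)` and `t1 = (0, 2, 3, ..., r)`.  Let `σ` be the even permutation `(0 1)(2 3)` of the indices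
(`3 ≤ r`).  `σ ∘ t0 = (0, 3, 2, 4, ..., r)` is an odd permutation of `t1`, so `w ∘ σ ∘ t0` is not in the relation.  But `w ∘ σ ∘ w.symm` is an even permutation, so it is an automorphism of `P`, which carries the
tuple `w ∘ t0` to `w ∘ σ ∘ t0`: contradiction.
`hF_eq`: a hypertournament `I` on `Fin n` has `r + 1` points such that all even permutations are automorphisms iff some hypertournament `P` on `Fin (r + 1)` invariant
under even permutations embeds into `I` (`P = pull u I`, which is a hypertournament).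
`hF_fin`: there are finitely many structures on `Fin (r + 1)`.
-/

set_option autoImplicit false

namespace Pool.Agent.Helper31.NR

/-- All even permutations are automorphisms of `P`. -/
def EvenSym {r k : ℕ} (P : Str (fun _ : Unit => r) (Fin k)) : Prop :=
  ∀ σ : Equiv.Perm (Fin k), Equiv.Perm.sign σ = 1 → pull σ P = P

/-- The class of `r`-hypertournaments which have no `r + 1` points such that all even permutations of these points are automorphisms of
the induced hypertournament (the `H_(r+1)`-free hypertournaments). -/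
def HFree (r : ℕ) : Cls (fun _ : Unit => r) :=
  fun n I => IsHT I ∧ ∀ u : Fin (r + 1) → Fin n, Function.Injective u → ¬ EvenSym (pull u I)

/-- The forbidden hypertournaments. -/
def FH (r : ℕ) : Set (Σ n : ℕ, Str (fun _ : Unit => r) (Fin n)) :=
  {p | ∃ P : Str (fun _ : Unit => r) (Fin (r + 1)), p = ⟨r + 1, P⟩ ∧ IsHT P ∧ EvenSym P}

theorem hF_irred {r : ℕ} (hr : 3 ≤ r) : ∀ p ∈ FH r, Irred p.2 := by
  rintro p ⟨P, rfl, hP, hE⟩ w
  by_contra hcon
  push Not at hcon
  let t0 : Fin r → Fin (r + 1) := fun i => ⟨(i : ℕ) + 1, by have := i.2; omega⟩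
  let t1 : Fin r → Fin (r + 1) := fun i => ⟨if (i : ℕ) = 0 then 0 else (i : ℕ) + 1, by
    have := i.2
    split_ifs <;> omega⟩
  have h0m : StrictMono t0 := fun i j hij => by
    have h : (i : ℕ) < j := hij
    change (i : ℕ) + 1 < (j : ℕ) + 1
    omega
  have h1m : StrictMono t1 := fun i j hij => by
    have h : (i : ℕ) < j := hij
    change (if (i : ℕ) = 0 then 0 else (i : ℕ) + 1) < (if (j : ℕ) = 0 then 0 else (j : ℕ) + 1)
    split_ifs <;> omega
  have h0 : P () (fun i => w (t0 i)) := by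
    refine hcon t0 h0m ⟨⟨r - 2, by omega⟩, ?_⟩ ⟨⟨r - 1, by omega⟩, ?_⟩
    · change (r - 2 + 1) + 2 = r + 1
      omega
    · change (r - 1 + 1) + 1 = r + 1
      omega
  have h1 : P () (fun i => w (t1 i)) := by
    refine hcon t1 h1m ⟨⟨r - 2, by omega⟩, ?_⟩ ⟨⟨r - 1, by omega⟩, ?_⟩
    · change (if r - 2 = 0 then 0 else r - 2 + 1) + 2 = r + 1
      split_ifs <;> omega
    · change (if r - 1 = 0 then 0 else r - 1 + 1) + 1 = r + 1
      split_ifs <;> omega
  let σ : Equiv.Perm (Fin (r + 1)) :=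
    Equiv.swap ⟨0, by omega⟩ ⟨1, by omega⟩ * Equiv.swap ⟨2, by omega⟩ ⟨3, by omega⟩
  let τ : Equiv.Perm (Fin r) := Equiv.swap ⟨1, by omega⟩ ⟨2, by omega⟩
  have hσ : Equiv.Perm.sign σ = 1 := by
    rw [Equiv.Perm.sign_mul, Equiv.Perm.sign_swap, Equiv.Perm.sign_swap]
    · rfl
    · simp
    · simp
  have hτ : Equiv.Perm.sign τ = -1 := by
    rw [Equiv.Perm.sign_swap]
    simp
  have key : ∀ i, σ (t0 i) = t1 (τ i) := by
    intro i
    have e1 : σ (t0 i) = Equiv.swap ⟨0, by omega⟩ ⟨1, by omega⟩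
      (Equiv.swap ⟨2, by omega⟩ ⟨3, by omega⟩ (t0 i)) := rfl
    rw [e1]
    obtain ⟨i, hi⟩ := i
    simp only [τ, t0, t1, Equiv.swap_apply_def, Fin.ext_iff]
    split_ifs <;> simp_all
  have hinj : Function.Injective (fun i => w (t1 i)) := w.injective.comp h1m.injective
  have h2 := hP.2 _ hinj τ
  have h3 : ¬ P () (fun i => w (t1 (τ i))) := by
    intro h
    have h4 := (h2.mp h).mp h1
    rw [hτ] at h4
    exact absurd h4 (by decide)
  have h5 := hE (w * σ * w⁻¹) (by
    rw [Equiv.Perm.sign_mul, Equiv.Perm.sign_mul, hσ, mul_one, Equiv.Perm.sign_inv,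
      Int.units_mul_self])
  have h6 : pull (w * σ * w⁻¹ : Equiv.Perm (Fin (r + 1))) P () (fun i => w (t0 i)) := by
    rw [h5]
    exact h0
  apply h3
  have h7 : (fun i => w (t1 (τ i))) =
      fun i => (w * σ * w⁻¹ : Equiv.Perm (Fin (r + 1))) (w (t0 i)) := by
    funext i
    change w (t1 (τ i)) = w (σ (w.symm (w (t0 i))))
    rw [Equiv.symm_apply_apply, key i]
  rw [h7]
  exact h6

theorem hF_fin (r : ℕ) : (FH r).Finite := by
  refine (Set.finite_range (fun P : Str (fun _ : Unit => r) (Fin (r + 1)) =>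
    (⟨r + 1, P⟩ : Σ n : ℕ, Str (fun _ : Unit => r) (Fin n)))).subset ?_
  rintro p ⟨P, rfl, _, _⟩
  exact ⟨P, rfl⟩

theorem hF_eq (r : ℕ) : HFree r = HTF r (FH r) := by
  funext n I
  apply propext
  constructor
  · rintro ⟨h1, h2⟩
    refine ⟨h1, ?_⟩
    rintro p ⟨P, rfl, _, hE⟩ ⟨f, hf, hfP⟩
    apply h2 f hf
    change pull f I = P at hfP
    rw [hfP]
    exact hE
  · rintro ⟨h1, h2⟩
    refine ⟨h1, fun u hu hE => ?_⟩
    refine h2 ⟨r + 1, pull u I⟩ ⟨pull u I, rfl, ⟨fun t ht => ?_, fun t ht σ => ?_⟩, hE⟩ ⟨u, hu, rfl⟩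
    · have h3 : Function.Injective (fun i => u (t i)) := h1.1 _ ht
      exact fun a b hab => h3 (congrArg u hab)
    · exact h1.2 (fun i => u (t i)) (hu.comp ht) σ

end Pool.Agent.Helper31.NR
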