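import Pool.Agent.Helper31.NR.Ord
import Pool.Agent.Helper31.NR.OrdC

/-!
# Block NR-WRAP: `ordC K` is Ramsey

PROOF.  Let `A, B ∈ ordC K` with increasing enumerations `eA, eB`; `A0 = pull eA (red A)`, `B0 = pull eB (red B)` are in `K`.  `k = 0`: take
`C = B` (there is no `χ`, since `Set (Fin c)` is not empty).  `k ≥ 1`: let `C0 ∈ K` be given by `ramsey_ordered K hK hC A0 B0` with `κ = Fin k`, and let `C` be `C0` with the
natural order: `C (Sum.inl s) t = C0 s t`, `C (Sum.inr ()) t = (t 0 < t 1)`; `C ∈ ordC K` (`ordC_nat`).  Given `χ`, apply the conclusion to `e ↦ χ (Set.range e)`: `f`.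
`Z = Set.range f` is a copy of `B` (by the map `f ∘ eB.symm`).  Let `Y ⊆ Z` be a copy of `A` in `C` by the map `u`; then `u ∘ eA` is strictly monotone (it carries the order
of `A` to the order of `C`), with range `Y ⊆ range f`, so `u ∘ eA = f ∘ h` with `h` strictly monotone and
`pull h B0 = pull h (pull f C0) = pull (u ∘ eA) C0 = pull eA (red (pull u C)) = A0`.  So the colours of `Y` and `Y'` are `χ (range (f ∘ h)) = χ (range (f ∘ h'))`.
-/

set_option autoImplicit false

namespace Pool.Agent.Helper31.NR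

/-- The structure `C0` together with the natural order. -/
private def wr {S : Type} {ar : S → ℕ} {c : ℕ} (C0 : Str ar (Fin c)) : Str (arO ar) (Fin c) :=
  fun s => match s with
    | Sum.inl s => C0 s
    | Sum.inr _ => fun t : Fin 2 → Fin c => t 0 < t 1

private theorem wr_lt {S : Type} {ar : S → ℕ} {c m : ℕ} (C0 : Str ar (Fin c)) (u : Fin m → Fin c)
    (x y : Fin m) : lt' (pull u (wr C0)) x y ↔ u x < u y := Iff.rfl

private theorem wr_red {S : Type} {ar : S → ℕ} {c m : ℕ} (C0 : Str ar (Fin c)) (u : Fin m → Fin c) :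
    red (pull u (wr C0)) = pull u C0 := rfl

private theorem str_ext {S : Type} {ar : S → ℕ} {m : ℕ} {I J : Str (arO ar) (Fin m)}
    (h1 : red I = red J) (h2 : ∀ x y, lt' I x y ↔ lt' J x y) : I = J := by
  funext s t
  rcases s with s | s
  · exact congrFun (congrFun h1 s) t
  · have h3 : ∀ t : Fin 2 → Fin m, t = ![t 0, t 1] := fun t => by
      funext i
      fin_cases i <;> rfl
    have h4 := h2 ((show Fin 2 → Fin m from t) 0) ((show Fin 2 → Fin m from t) 1)
    unfold lt' red' at h4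
    rw [← h3 t] at h4
    exact propext h4

/-- A copy of `A` inside the range of `f`. -/
private theorem wr_copy {S : Type} {ar : S → ℕ} {a b c : ℕ} {A : Str (arO ar) (Fin a)}
    {eA : Fin a ≃ Fin a} (hA : ∀ x y, lt' A (eA x) (eA y) ↔ x < y) {C0 : Str ar (Fin c)}
    {f : Fin b → Fin c} (hf : StrictMono f) {Y : Set (Fin c)} (hY : IsCopy A (wr C0) Y)
    (hYf : Y ⊆ Set.range f) :
    ∃ h : Fin a → Fin b, StrictMono h ∧ pull h (pull f C0) = pull eA (red A) ∧
      Y = Set.range (f ∘ h) := by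
  obtain ⟨u, -, hu, rfl⟩ := hY
  have h1 : ∀ x, ∃ z, f z = u (eA x) := fun x => hYf ⟨eA x, rfl⟩
  choose h hh using h1
  refine ⟨h, fun x y hxy => ?_, ?_, ?_⟩
  · rw [← hf.lt_iff_lt, hh, hh]
    have h2 := (hA x y).2 hxy
    rw [← hu, wr_lt] at h2
    exact h2
  · have h2 : pull h (pull f C0) = pull eA (red (pull u (wr C0))) := by
      rw [wr_red]
      funext s t
      show C0 s (fun i => f (h (t i))) = C0 s (fun i => u (eA (t i)))
      simp only [hh]
    rw [h2, hu]
  · have h2 : f ∘ h = u ∘ eA := funext hh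
    rw [h2, eA.surjective.range_comp]

theorem ramsey_ordC {S : Type} {ar : S → ℕ} (K : Cls ar) (hK : OHered K) (hC : Completable K) :
    IsRamsey (ordC K) := by
  intro a A b B hA hB k
  rcases Nat.eq_zero_or_pos k with hk | hk
  · subst hk
    exact ⟨b, B, hB, fun χ => (χ ∅).elim0⟩
  obtain ⟨eA, hA1, hA2⟩ := hA
  obtain ⟨eB, hB1, hB2⟩ := hB
  have : Nonempty (Fin k) := ⟨⟨0, hk⟩⟩
  obtain ⟨c, C0, hC0, hr⟩ := ramsey_ordered K hK hC _ _ hA2 hB2 (Fin k)
  refine ⟨c, wr C0, (ordC_nat K _ fun x y => Iff.rfl).2 hC0, fun χ => ?_⟩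
  obtain ⟨f, hf, hfB, hinv⟩ := hr fun e => χ (Set.range e)
  refine ⟨Set.range f, ⟨f ∘ eB.symm, hf.injective.comp eB.symm.injective, str_ext ?_ ?_, ?_⟩, ?_⟩
  · rw [wr_red]
    funext s t
    have h1 := congrFun (congrFun hfB s) (fun i => eB.symm (t i))
    have h2 : pull eB (red B) s (fun i => eB.symm (t i)) = red B s t := by
      show red B s (fun i => eB (eB.symm (t i))) = red B s t
      simp only [Equiv.apply_symm_apply]
    rw [h2] at h1
    exact h1
  · intro x y
    rw [wr_lt, Function.comp_apply, Function.comp_apply, hf.lt_iff_lt, ← hB1,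
      Equiv.apply_symm_apply, Equiv.apply_symm_apply]
  · rw [eB.symm.surjective.range_comp]
  · intro Y Y' hY hY' hs hs'
    obtain ⟨h, h1, h2, rfl⟩ := wr_copy hA1 hf hY hs
    obtain ⟨h', h1', h2', rfl⟩ := wr_copy hA1 hf hY' hs'
    rw [hfB] at h2 h2'
    exact hinv h h' h1 h1' h2 h2'

end Pool.Agent.Helper31.NR
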