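import Pool.Agent.Helper31.NR.Fill
import Pool.Agent.Helper31.NR.BddO
import Pool.Agent.Helper31.NR.FrsO
import Pool.Agent.Helper31.NR.Wrap
import Pool.Agent.Helper31.NR.Ext
import Pool.Agent.Helper31.NR.Hyp
import Pool.Agent.Helper31.NR.HypH
import Pool.Agent.Helper31.NR.HypB

/-!
# Assembly: completable finitely bounded classes
-/

set_option autoImplicit false

namespace Pool.Agent.Helper31.NR

/-- `K` is a finitely bounded Fraisse class, and the class `ordC K` of all its expansions by a linear order is a Fraisse class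
which extends `K`, is finitely bounded and Ramsey. -/
def OrderExpansion {S : Type} {ar : S → ℕ} (K : Cls ar) : Prop :=
  (IsFraisse K ∧ FinBounded K) ∧ IsFraisse (ordC K) ∧ Extends K (ordC K) ∧ FinBounded (ordC K) ∧ IsRamsey (ordC K)

theorem orderExpansion_of_completable (S : Type) [Finite S] (ar : S → ℕ) (har : ∀ s, 0 < ar s) (K : Cls ar)
    (hK : Hereditary K) (h0 : ∃ (n : ℕ) (I : Str ar (Fin n)), K n I) (hb : FinBounded K) (hC : Completable K) :
    OrderExpansion K := by
  have hO : OHered K := fun m n f I hf hI => hK m n f I hf.injective hI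
  have hN : ∃ N : ℕ, ∀ (n : ℕ) (I : Str ar (Fin n)),
      (∀ m ≤ N, ∀ f : Fin m → Fin n, StrictMono f → K m (pull f I)) → K n I := by
    obtain ⟨N, hN⟩ := (finBounded_iff K hK).1 hb
    refine ⟨N, fun n I h => hN n I fun m hm f hf => ?_⟩
    let σ : Equiv.Perm (Fin m) := Tuple.sort f
    have hmono : StrictMono (f ∘ σ) :=
      (Tuple.monotone_sort f).strictMono_of_injective (hf.comp σ.injective)
    have h1 := h m hm (f ∘ σ) hmono
    have h2 := hK m m σ.symm (pull (f ∘ σ) I) σ.symm.injective h1
    have h3 : pull σ.symm (pull (f ∘ σ) I) = pull f I := by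
      funext s t
      unfold pull
      simp
    rwa [h3] at h2
  have hF := fraisse_ordC har K hO hC
  exact ⟨⟨fraisse_of_completable har K hK hC, hb⟩, hF, extends_ordC har K hK h0 hF,
    finBounded_ordC K hO hN, ramsey_ordC K hO hC⟩

theorem orderExpansion_HTF (r : ℕ) (hr : 2 ≤ r) (F : Set (Σ n : ℕ, Str (fun _ : Unit => r) (Fin n)))
    (hF : F.Finite) (hI : ∀ p ∈ F, Irred p.2) : OrderExpansion (HTF r F) :=
  orderExpansion_of_completable Unit (fun _ => r) (fun _ => by omega) (HTF r F) (her_HTF r F)
    ⟨0, _, zero_HTF hr F hI⟩ (bdd_HTF r F hF) (completable_of_nat _ _ (natAmalg_rho hr F hI))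

end Pool.Agent.Helper31.NR
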