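import Pool.Agent.Helper31.NR.Defs

/-!
# Hypertournaments: definitions, and block NR-VD

An `r`-hypertournament is an alternating orientation of all `r`-subsets.  `ky x y z` is the key of `z` in the linear order in which `x, y` are the last two points
(`x` before `y`) and the other points have their natural order; `vd` is the Vandermonde product, whose sign is the sign of the permutation which sorts the tuple.

PROOF of block NR-VD.  `vd v = Matrix.det (Matrix.vandermonde v)` (`Matrix.det_vandermonde`) and `Matrix.det_permute`; or directly.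
`vd_ne`: no factor is zero (`Finset.prod_ne_zero_iff`).  `vd_pos`: all factors are positive.  `vd_sign`: the signs of the corresponding factors agree.
-/

set_option autoImplicit false

namespace Pool.Agent.Helper31.NR

/-- `I` is an `r`-hypertournament: it holds only for injective tuples, and for an injective tuple `t` and a permutation `σ` of its
entries, `I (t ∘ σ)` is equivalent to `I t` if `σ` is even and to its negation if `σ` is odd. -/
def IsHT {r n : ℕ} (I : Str (fun _ : Unit => r) (Fin n)) : Prop :=
  (∀ t : Fin r → Fin n, I () t → Function.Injective t) ∧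
    ∀ t : Fin r → Fin n, Function.Injective t → ∀ σ : Equiv.Perm (Fin r),
      (I () (fun i => t (σ i)) ↔ (I () t ↔ Equiv.Perm.sign σ = 1))

/-- The condition on the forbidden hypertournaments: for every enumeration `w` of the points there is an increasing sequence of
`r` indices, the last two of which are the last two indices `k - 2, k - 1`, such that the corresponding tuple is not in the relation. -/
def Irred {r k : ℕ} (P : Str (fun _ : Unit => r) (Fin k)) : Prop :=
  ∀ w : Fin k ≃ Fin k, ∃ t : Fin r → Fin k, StrictMono t ∧ (∃ i, (t i : ℕ) + 2 = k) ∧ (∃ i, (t i : ℕ) + 1 = k) ∧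
    ¬ P () (fun i => w (t i))

/-- The class of all `r`-hypertournaments into which no member of `F` embeds. -/
def HTF (r : ℕ) (F : Set (Σ n : ℕ, Str (fun _ : Unit => r) (Fin n))) : Cls (fun _ : Unit => r) :=
  fun _ I => IsHT I ∧ ∀ p ∈ F, ¬ Emb p.2 I

/-- The key. -/
def ky {n : ℕ} (x y z : Fin n) : ℤ := if z = x then n else if z = y then n + 1 else (z : ℕ)

/-- The Vandermonde product. -/
def vd {r : ℕ} (v : Fin r → ℤ) : ℤ := ∏ i : Fin r, ∏ j ∈ Finset.Ioi i, (v j - v i)

/-- The amalgamation rule: a tuple which contains `x` and `y` is in the relation iff it is injective and an even permutation of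
the tuple in which the other points come first in their natural order, and then `x`, `y`. -/
def rho {r : ℕ} (n : ℕ) (x y : Fin n) (I : Str (fun _ : Unit => r) (Fin n)) : Str (fun _ : Unit => r) (Fin n) :=
  fun _ t => ((x ∈ Set.range t ∧ y ∈ Set.range t) ∧ Function.Injective t ∧ 0 < vd (fun i => ky x y (t i))) ∨
    (¬ (x ∈ Set.range t ∧ y ∈ Set.range t) ∧ I () t)

theorem vd_perm {r : ℕ} (v : Fin r → ℤ) (σ : Equiv.Perm (Fin r)) :
    vd (fun i => v (σ i)) = (Equiv.Perm.sign σ : ℤ) * vd v := by
  have h1 : ∀ u : Fin r → ℤ, vd u = (Matrix.vandermonde u).det := fun u =>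
    (Matrix.det_vandermonde u).symm
  rw [h1, h1]
  exact Matrix.det_permute σ (Matrix.vandermonde v)

theorem vd_ne {r : ℕ} (v : Fin r → ℤ) (hv : Function.Injective v) : vd v ≠ 0 := by
  refine Finset.prod_ne_zero_iff.2 fun i _ => Finset.prod_ne_zero_iff.2 fun j hj => ?_
  intro h
  exact (Finset.mem_Ioi.1 hj).ne' (hv (sub_eq_zero.1 h))

theorem vd_pos {r : ℕ} (v : Fin r → ℤ) (hv : StrictMono v) : 0 < vd v := by
  exact Finset.prod_pos fun i _ => Finset.prod_pos fun j hj =>
    sub_pos.2 (hv (Finset.mem_Ioi.1 hj))

theorem vd_sign {r : ℕ} (v w : Fin r → ℤ) (h : ∀ i j, v i < v j ↔ w i < w j) : 0 < vd v ↔ 0 < vd w := by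
  have key : ∀ i j, SignType.sign (v j - v i) = SignType.sign (w j - w i) := by
    intro i j
    rcases lt_trichotomy (v i) (v j) with h1 | h1 | h1
    · rw [sign_pos (sub_pos.2 h1), sign_pos (sub_pos.2 ((h i j).1 h1))]
    · have h2 : w i = w j := by
        have h3 := (h i j).not.1 (by rw [h1]; exact lt_irrefl _)
        have h4 := (h j i).not.1 (by rw [h1]; exact lt_irrefl _)
        exact le_antisymm (not_lt.1 h4) (not_lt.1 h3)
      rw [h1, h2, sub_self, sub_self]
    · rw [sign_neg (sub_neg.2 h1), sign_neg (sub_neg.2 ((h j i).1 h1))]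
  have e : ∀ u : Fin r → ℤ, SignType.sign (vd u) =
      ∏ i : Fin r, ∏ j ∈ Finset.Ioi i, SignType.sign (u j - u i) := by
    intro u
    have h1 : SignType.sign (vd u) = signHom (vd u) := rfl
    rw [h1, vd, map_prod]
    refine Finset.prod_congr rfl fun i _ => ?_
    rw [map_prod]
    rfl
  have h2 : SignType.sign (vd v) = SignType.sign (vd w) := by
    rw [e, e]
    exact Finset.prod_congr rfl fun i _ => Finset.prod_congr rfl fun j _ => key i j
  rw [← sign_eq_one_iff, h2, sign_eq_one_iff]

end Pool.Agent.Helper31.NR
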