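import Pool.Agent.Helper31.NR.Emb

/-!
# Hypertournaments omitting an arbitrary set of irreducible structures
-/

set_option autoImplicit false

namespace Pool.Agent.Helper31.NR

/-- Let `F` be any set of finite structures each of which is `H_(r+1)` or satisfies `Irred`.  The class of `r`-hypertournaments omitting
`F` has a Fraisse limit, and every Fraisse limit of it has a Ramsey expansion by a linear order. -/
theorem hyp_ramsey (r : ℕ) (hr : 3 ≤ r) (F : Set (Σ n : ℕ, Str (fun _ : Unit => r) (Fin n)))
    (hF : ∀ p ∈ F, p ∈ FH r ∨ Irred p.2) :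
    (∃ (M : Type) (I : Str (fun _ : Unit => r) M), IsLimit (HTF r F) M I) ∧
    ∀ (M : Type) (I : Str (fun _ : Unit => r) M), IsLimit (HTF r F) M I →
      ∃ J : Str (Sum.elim (fun _ : Unit => r) (fun _ : Unit => 2)) M,
        red J = I ∧ Homog J ∧ IsRamseyEmb (ageOf J) ∧
        ∀ (n : ℕ) (A : Str (Sum.elim (fun _ : Unit => r) (fun _ : Unit => 2)) (Fin n)),
          ageOf J n A ↔ HTF r F n (red A) ∧ IsStrictTotalOrder (Fin n) (lt' A) := by
  have hI : ∀ p ∈ F, Irred p.2 := by
    intro p hp
    rcases hF p hp with h | h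
    · exact hF_irred hr p h
    · exact h
  have hC : Completable (HTF r F) := completable_of_nat _ _ (natAmalg_rho (by omega) F hI)
  have hK : Hereditary (HTF r F) := her_HTF r F
  have hfr := fraisse_of_completable (fun _ => by omega) (HTF r F) hK hC
  refine ⟨exists_limit (fun _ => by omega) (HTF r F) hfr ⟨0, _, zero_HTF (by omega) F hI⟩, fun M I hM => ?_⟩
  have := hM.ctb
  have h1 := hM.ageOf_eq
  obtain ⟨J, h2, h3, h4, h5⟩ := exists_ramsey_expansion (fun _ => by omega) M I hM.hom (by rw [h1]; exact hC)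
  rw [h1] at h5
  exact ⟨J, h2, h3, h4, h5⟩

end Pool.Agent.Helper31.NR
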