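import Pool.Agent.Helper31.NR.Emb
import Pool.Agent.Helper31.NR.ExtC

/-!
# Precompact expansions
-/

set_option autoImplicit false

namespace Pool.Agent.Helper31.NR

theorem exists_order_ctb {S : Type} {ar : S → ℕ} (har : ∀ s, 0 < ar s) (K : Cls ar) (hK : Hereditary K)
    (hc : ∀ n, {J : Str ar (Fin n) | K n J}.Countable) (hC : Completable K) {M : Type} {I : Str ar M} (h : IsLimit K M I) :
    ∃ J : Str (arO ar) M, red J = I ∧ IsLimit (ordC K) M J := by
  have hO : OHered K := fun m n f I hf hI => hK m n f I hf.injective hI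
  have hF := fraisse_ordC har K hO hC
  have h0 : ∃ (n : ℕ) (I : Str ar (Fin n)), K n I :=
    ⟨0, pull (Fin.elim0 : Fin 0 → M) I, (h.age 0 _).2 ⟨Fin.elim0, fun a => a.elim0, rfl⟩⟩
  obtain ⟨M0, I0, h1, h2⟩ := extends_ordC_ctb har K hK hc h0 hF
  obtain ⟨e, he⟩ := IsLimit.unique har h2 h
  exact ⟨pull e I0, he, h1.transport e⟩

theorem ageOf_ctb {S : Type} {ar : S → ℕ} {M : Type} [Countable M] (I : Str ar M) (n : ℕ) :
    {J : Str ar (Fin n) | ageOf I n J}.Countable := by
  have h1 : {J : Str ar (Fin n) | ageOf I n J} ⊆ Set.range (fun f : Fin n → M => pull f I) := by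
    rintro J ⟨f, -, hf⟩
    exact ⟨f, hf⟩
  exact (Set.countable_range _).mono h1

/-- If the homogeneous structure `I'` has a completable age and is a precompact expansion of its reduct, then it has an expansion
by a linear order which is a precompact Ramsey expansion of the reduct. -/
theorem precompact_expansion {S S' : Type} {ar : S → ℕ} {ar' : S' → ℕ} (har : ∀ s, 0 < ar s) (har' : ∀ s, 0 < ar' s)
    (M : Type) [Countable M] (I' : Str (Sum.elim ar ar') M) (hh : Homog I')
    (hp : ∀ (n : ℕ) (A : Str ar (Fin n)), {A' : Str (Sum.elim ar ar') (Fin n) | ageOf I' n A' ∧ red A' = A}.Finite)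
    (hC : Completable (ageOf I')) :
    ∃ J : Str (arO (Sum.elim ar ar')) M, red J = I' ∧ Homog J ∧ IsRamseyEmb (ageOf J) ∧
      ∀ (n : ℕ) (A : Str ar (Fin n)),
        {A' : Str (arO (Sum.elim ar ar')) (Fin n) | ageOf J n A' ∧ red (red A') = A}.Finite := by
  have hM : IsLimit (ageOf I') M I' := ⟨inferInstance, fun n J => Iff.rfl, hh⟩
  have hK : Hereditary (ageOf I') := by
    rintro m n f _ hf ⟨g, hg, rfl⟩
    exact ⟨fun i => g (f i), hg.comp hf, rfl⟩
  have hO : OHered (ageOf I') := fun m n f J hf hJ => hK m n f J hf.injective hJ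
  obtain ⟨J, h1, h2⟩ := exists_order_ctb (by
    rintro (s | s)
    · exact har s
    · exact har' s) _ hK (fun n => ageOf_ctb I' n) hC hM
  refine ⟨J, h1, h2.hom, ?_, fun n A => ?_⟩
  · rw [h2.ageOf_eq]
    exact ramseyEmb_of_ramsey (ramsey_ordC _ hO hC)
  · refine (fin_ordC _ (hp n A)).subset ?_
    rintro A' ⟨h3, h4⟩
    refine ⟨?_, h4⟩
    obtain ⟨f, hf, rfl⟩ := h3
    exact ⟨f, hf, by rw [← h1]; rfl⟩

end Pool.Agent.Helper31.NR
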