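import Pool.Agent.Helper31.NR.HypH

/-!
# The three 3-hypertournaments on four points (definitions), and block NC-TYP

Let `u` be an enumeration of four points and let `y_i` be the orientation of the triple obtained by omitting `u i`, multiplied by `(-1)^i`.  An even permutation of the four points
permutes the `y_i`, an odd one also changes all signs.  So the smaller one of the numbers of positive and of negative `y_i` is an invariant `ty` which classifies the hypertournaments
on four points: `ty = 0` is `H_4` (automorphism group `A_4`), `ty = 1` is `O_4`, `ty = 2` is `C_4` (cyclic order).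

PROOF of block NC-TYP.
`yb_perm`: the tuple `j ↦ u (σ (i.succAbove j))` omits `u (σ i)`; it is the tuple `j ↦ u ((σ i).succAbove j)` composed with a permutation of sign `sign σ * (-1) ^ (i + σ i)`
(a finite check for permutations of `Fin 4`, e.g. `decide`, or for the adjacent transpositions and then by composition).  `ty_perm` follows.
`iso_of_ty`: for two sign vectors `y, y' : Fin 4 → Bool` with the same `ty` there is a permutation `σ` with `y' = y ∘ σ` (`σ` even) or `y' = ! y ∘ σ` (`σ` odd) (finite check, or: by counting,
and a transposition of two equal entries corrects the parity).  A hypertournament on `Fin 4` is determined by its `y_i`: an injective tuple `Fin 3 → Fin 4` is a permutation of some `succAbove i`.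
-/

set_option autoImplicit false

namespace Pool.Agent.Helper31.NR

/-- The orientation of the triple obtained from `u` by omitting `u i`, multiplied by `(-1)^i`. -/
def yb {V : Type} (I : Str (fun _ : Unit => 3) V) (u : Fin 4 → V) (i : Fin 4) : Prop :=
  I () (fun j => u (i.succAbove j)) ↔ Even (i : ℕ)

open Classical in
/-- The isomorphism type of the hypertournament on the four points `u`. -/
noncomputable def ty {V : Type} (I : Str (fun _ : Unit => 3) V) (u : Fin 4 → V) : ℕ :=
  min (Finset.univ.filter (fun i => yb I u i)).card (Finset.univ.filter (fun i => ¬ yb I u i)).card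

/-- The class of 3-hypertournaments all of whose quadruples have a type in `T`. -/
def KT (T : Set ℕ) : Cls (fun _ : Unit => 3) :=
  fun n I => IsHT I ∧ ∀ u : Fin 4 → Fin n, Function.Injective u → ty I u ∈ T

private theorem tyaux1 : ∀ (σ : Equiv.Perm (Fin 4)) (i : Fin 4), ∃ τ : Equiv.Perm (Fin 3),
    (∀ j, σ (i.succAbove j) = (σ i).succAbove (τ j)) ∧
    (Equiv.Perm.sign τ = 1 ↔ (Even (i : ℕ) ↔ (Even ((σ i : Fin 4) : ℕ) ↔ Equiv.Perm.sign σ = 1))) := by
  decide +kernel

private theorem tyaux2 : ∀ (y z : Fin 4 → Bool),
    min (Finset.univ.filter (fun i => y i = true)).card (Finset.univ.filter (fun i => ¬ y i = true)).card =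
    min (Finset.univ.filter (fun i => z i = true)).card (Finset.univ.filter (fun i => ¬ z i = true)).card →
    ∃ σ : Equiv.Perm (Fin 4), ∀ i, (z i = true ↔ (y (σ i) = true ↔ Equiv.Perm.sign σ = 1)) := by
  decide +kernel

private theorem tyaux3 : ∀ t : Fin 3 → Fin 4, Function.Injective t →
    ∃ (i : Fin 4) (τ : Equiv.Perm (Fin 3)), ∀ j, t j = i.succAbove (τ j) := by
  decide +kernel

private theorem yb_perm {n : ℕ} (I : Str (fun _ : Unit => 3) (Fin n)) (hI : IsHT I) (u : Fin 4 → Fin n)
    (hu : Function.Injective u) (σ : Equiv.Perm (Fin 4)) (i : Fin 4) :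
    yb I (fun i => u (σ i)) i ↔ (yb I u (σ i) ↔ Equiv.Perm.sign σ = 1) := by
  obtain ⟨τ, h1, h2⟩ := tyaux1 σ i
  have h3 : (fun j => u (σ (i.succAbove j))) = fun j => u ((σ i).succAbove (τ j)) := by
    funext j
    rw [h1]
  have h4 := hI.2 (fun j => u ((σ i).succAbove j))
    (hu.comp Fin.succAbove_right_injective) τ
  unfold yb
  have h5 : I () (fun j => u (σ (i.succAbove j))) ↔
      (I () (fun j => u ((σ i).succAbove j)) ↔ Equiv.Perm.sign τ = 1) := by
    rw [h3]
    exact h4
  rw [h5, h2]
  by_cases a : I () (fun j => u ((σ i).succAbove j)) <;> by_cases b : Even (i : ℕ) <;>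
    by_cases c : Even ((σ i : Fin 4) : ℕ) <;> by_cases d : Equiv.Perm.sign σ = 1 <;> simp [a, b, c, d]

theorem ty_perm {n : ℕ} (I : Str (fun _ : Unit => 3) (Fin n)) (hI : IsHT I) (u : Fin 4 → Fin n)
    (hu : Function.Injective u) (σ : Equiv.Perm (Fin 4)) : ty I (fun i => u (σ i)) = ty I u := by
  classical
  have key := yb_perm I hI u hu σ
  have hc : ∀ p : Fin 4 → Prop, (Finset.univ.filter (fun i => p (σ i))).card =
      (Finset.univ.filter (fun i => p i)).card := by
    intro p
    refine Finset.card_bij (fun i _ => σ i) ?_ ?_ ?_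
    · intro i hi
      simpa using hi
    · intro a _ b _ hab
      exact σ.injective hab
    · intro b hb
      refine ⟨σ.symm b, ?_, by simp⟩
      simpa using hb
  have c1 : (Finset.univ.filter (fun i => yb I u (σ i))).card =
      (Finset.univ.filter (fun i => yb I u i)).card := hc (fun i => yb I u i)
  have c2 : (Finset.univ.filter (fun i => ¬ yb I u (σ i))).card =
      (Finset.univ.filter (fun i => ¬ yb I u i)).card := by
    convert hc (fun i => ¬ yb I u i)
  unfold ty
  by_cases hs : Equiv.Perm.sign σ = 1
  · have e1 : (Finset.univ.filter (fun i => yb I (fun i => u (σ i)) i)) =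
        Finset.univ.filter (fun i => yb I u (σ i)) := by
      refine Finset.filter_congr fun i _ => ?_
      rw [key i]; simp [hs]
    have e2 : (Finset.univ.filter (fun i => ¬ yb I (fun i => u (σ i)) i)) =
        Finset.univ.filter (fun i => ¬ yb I u (σ i)) := by
      refine Finset.filter_congr fun i _ => ?_
      rw [key i]; simp [hs]
    rw [e1, e2, c1, c2]
  · have e1 : (Finset.univ.filter (fun i => yb I (fun i => u (σ i)) i)) =
        Finset.univ.filter (fun i => ¬ yb I u (σ i)) := by
      refine Finset.filter_congr fun i _ => ?_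
      rw [key i]; simp [hs]
    have e2 : (Finset.univ.filter (fun i => ¬ yb I (fun i => u (σ i)) i)) =
        Finset.univ.filter (fun i => yb I u (σ i)) := by
      refine Finset.filter_congr fun i _ => ?_
      rw [key i]; simp [hs]
    rw [e1, e2, c1, c2, min_comm]

theorem ty_le {V : Type} (I : Str (fun _ : Unit => 3) V) (u : Fin 4 → V) : ty I u ≤ 2 := by
  classical
  unfold ty
  have h := Finset.card_filter_add_card_filter_not (s := (Finset.univ : Finset (Fin 4))) (fun i => yb I u i)
  rw [Finset.card_univ, Fintype.card_fin] at h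
  omega

theorem iso_of_ty (P Q : Str (fun _ : Unit => 3) (Fin 4)) (hP : IsHT P) (hQ : IsHT Q) (h : ty P id = ty Q id) :
    ∃ σ : Equiv.Perm (Fin 4), pull σ P = Q := by
  classical
  obtain ⟨σ, hσ⟩ := tyaux2 (fun i => decide (yb P id i)) (fun i => decide (yb Q id i)) (by
    simp only [decide_eq_true_eq]
    unfold ty at h
    convert h)
  simp only [decide_eq_true_eq] at hσ
  refine ⟨σ, ?_⟩
  have hA : ∀ i : Fin 4, (P () (fun j => σ (i.succAbove j)) ↔ Q () (fun j => i.succAbove j)) := by
    intro i
    have h1 := yb_perm P hP id Function.injective_id σ i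
    have h2 := hσ i
    have h3 : yb P (fun i => id (σ i)) i ↔ yb Q id i := by rw [h1, h2]
    unfold yb at h3
    simp only [id] at h3
    by_cases b : Even (i : ℕ)
    · simpa [b] using h3
    · have h4 : (¬ P () (fun j => σ (i.succAbove j))) ↔ ¬ Q () (fun j => i.succAbove j) := by
        simpa [b] using h3
      exact not_iff_not.1 h4
  funext s t
  cases s
  apply propext
  show P () (fun j => σ (t j)) ↔ Q () t
  by_cases ht : Function.Injective t
  · obtain ⟨i, τ, hτ⟩ := tyaux3 t ht
    have e1 : t = fun j => i.succAbove (τ j) := funext hτ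
    have h1 := hP.2 (fun j => σ (i.succAbove j)) (σ.injective.comp Fin.succAbove_right_injective) τ
    have h2 := hQ.2 (fun j => i.succAbove j) Fin.succAbove_right_injective τ
    rw [e1]
    exact h1.trans ((iff_congr (hA i) Iff.rfl).trans h2.symm)
  · constructor
    · intro h1
      exact absurd (fun a b hab => hP.1 _ h1 (by simp only [hab])) ht
    · intro h1
      exact absurd (hQ.1 _ h1) ht

end Pool.Agent.Helper31.NR
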