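import Pool.Agent.Helper31.NR.Lim

/-!
# Uniqueness of Fraisse limits
-/

set_option autoImplicit false

namespace Pool.Agent.Helper31.NR

variable {S : Type} {ar : S → ℕ}

private theorem snoc_inj' {M : Type} {n : ℕ} {f : Fin n → M} (hf : Function.Injective f) {x : M}
    (hx : x ∉ Set.range f) : Function.Injective (Fin.snoc f x : Fin (n + 1) → M) := by
  intro a b
  refine Fin.lastCases ?_ (fun i => ?_) a
  · refine Fin.lastCases ?_ (fun j => ?_) b
    · intro _; rfl
    · intro h
      rw [Fin.snoc_last, Fin.snoc_castSucc] at h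
      exact (hx ⟨j, h.symm⟩).elim
  · refine Fin.lastCases ?_ (fun j => ?_) b
    · intro h
      rw [Fin.snoc_last, Fin.snoc_castSucc] at h
      exact (hx ⟨i, h⟩).elim
    · intro h
      rw [Fin.snoc_castSucc, Fin.snoc_castSucc] at h
      rw [hf h]

/-- A set of pairs which is a partial isomorphism. -/
private def PJ {M M' : Type} (I : Str ar M) (I' : Str ar M') (R : Set (M × M')) : Prop :=
  (∀ a ∈ R, ∀ b ∈ R, (a.1 = b.1 ↔ a.2 = b.2)) ∧
  ∀ (s : S) (t : Fin (ar s) → M × M'), (∀ i, t i ∈ R) → (I s (fun i => (t i).1) ↔ I' s (fun i => (t i).2))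

private theorem PJ_swap {M M' : Type} {I : Str ar M} {I' : Str ar M'} {R : Set (M × M')} (h : PJ I I' R) :
    PJ I' I (Prod.swap ⁻¹' R) := by
  refine ⟨fun a ha b hb => (h.1 _ ha _ hb).symm, fun s t ht => ?_⟩
  exact (h.2 s (fun i => (t i).swap) ht).symm

private theorem extend_fst' {K : Cls ar} {M M' : Type} {I : Str ar M} {I' : Str ar M'}
    (hage : ∀ (n : ℕ) (f : Fin n → M), Function.Injective f → K n (pull f I))
    (hext : ∀ (n : ℕ) (f : Fin n → M') (J : Str ar (Fin (n + 1))), Function.Injective f → K (n + 1) J →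
      pull Fin.castSucc J = pull f I' → ∃ x : M', x ∉ Set.range f ∧ pull (Fin.snoc f x : Fin (n + 1) → M') I' = J)
    (R : Finset (M × M')) (hR : PJ I I' (↑R : Set (M × M'))) (m : M) :
    ∃ R' : Finset (M × M'), R ⊆ R' ∧ PJ I I' (↑R' : Set (M × M')) ∧ ∃ b, (m, b) ∈ R' := by
  classical
  by_cases h : ∃ b, (m, b) ∈ R
  · exact ⟨R, Finset.Subset.refl _, hR, h⟩
  · let e : Fin R.card ≃ R := R.equivFin.symm
    let f : Fin R.card → M := fun i => (e i).1.1
    let g : Fin R.card → M' := fun i => (e i).1.2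
    have hf : Function.Injective f := by
      intro a b hab
      have h1 := (hR.1 _ (e a).2 _ (e b).2).1 hab
      apply e.injective
      exact Subtype.ext (Prod.ext hab h1)
    have hg : Function.Injective g := by
      intro a b hab
      have h1 := (hR.1 _ (e a).2 _ (e b).2).2 hab
      apply e.injective
      exact Subtype.ext (Prod.ext h1 hab)
    have hm : m ∉ Set.range f := by
      rintro ⟨i, hi⟩
      apply h
      refine ⟨(e i).1.2, ?_⟩
      have := (e i).2
      rw [← hi]
      exact this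
    have hfg : pull f I = pull g I' := by
      funext s t
      exact propext (hR.2 s (fun i => (e (t i)).1) (fun i => (e (t i)).2))
    obtain ⟨x, hx, hxJ⟩ := hext R.card g (pull (Fin.snoc f m : Fin (R.card + 1) → M) I) hg
      (hage _ _ (snoc_inj' hf hm)) (by
        rw [← hfg]
        have h2 : (fun i : Fin R.card => (Fin.snoc f m : Fin (R.card + 1) → M) (Fin.castSucc i)) = f := by
          funext i
          rw [Fin.snoc_castSucc]
        calc pull Fin.castSucc (pull (Fin.snoc f m : Fin (R.card + 1) → M) I)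
            = pull (fun i : Fin R.card => (Fin.snoc f m : Fin (R.card + 1) → M) (Fin.castSucc i)) I := rfl
          _ = pull f I := by rw [h2])
    refine ⟨insert (m, x) R, Finset.subset_insert _ _, ?_, x, Finset.mem_insert_self _ _⟩
    have key : ∀ a ∈ insert (m, x) R, ∃ u : Fin (R.card + 1), (Fin.snoc f m : Fin (R.card + 1) → M) u = a.1 ∧
        (Fin.snoc g x : Fin (R.card + 1) → M') u = a.2 := by
      intro a ha
      rw [Finset.mem_insert] at ha
      rcases ha with ha | ha
      · refine ⟨Fin.last _, ?_, ?_⟩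
        · rw [Fin.snoc_last, ha]
        · rw [Fin.snoc_last, ha]
      · refine ⟨Fin.castSucc (e.symm ⟨a, ha⟩), ?_, ?_⟩
        · rw [Fin.snoc_castSucc]
          show (e (e.symm ⟨a, ha⟩)).1.1 = a.1
          rw [Equiv.apply_symm_apply]
        · rw [Fin.snoc_castSucc]
          show (e (e.symm ⟨a, ha⟩)).1.2 = a.2
          rw [Equiv.apply_symm_apply]
    constructor
    · intro a ha b hb
      obtain ⟨u, hu1, hu2⟩ := key a (by exact_mod_cast ha)
      obtain ⟨v, hv1, hv2⟩ := key b (by exact_mod_cast hb)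
      rw [← hu1, ← hu2, ← hv1, ← hv2, (snoc_inj' hf hm).eq_iff, (snoc_inj' hg hx).eq_iff]
    · intro s t ht
      choose u hu1 hu2 using fun i => key (t i) (by exact_mod_cast ht i)
      have h1 : (fun i => (t i).1) = fun i => (Fin.snoc f m : Fin (R.card + 1) → M) (u i) := by
        funext i; rw [hu1]
      have h2 : (fun i => (t i).2) = fun i => (Fin.snoc g x : Fin (R.card + 1) → M') (u i) := by
        funext i; rw [hu2]
      rw [h1, h2]
      have h3 := congrFun (congrFun hxJ s) u
      exact (iff_of_eq h3).symm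

/-- Two Fraisse limits of a class are isomorphic. -/
theorem IsLimit.unique (har : ∀ s, 0 < ar s) {K : Cls ar} {M M' : Type} {I : Str ar M} {I' : Str ar M'}
    (h : IsLimit K M I) (h' : IsLimit K M' I') : ∃ e : M' ≃ M, pull e I = I' := by
  classical
  have := h.ctb
  have := h'.ctb
  have hage : ∀ (n : ℕ) (f : Fin n → M), Function.Injective f → K n (pull f I) :=
    fun n f hf => (h.age n _).2 ⟨f, hf, rfl⟩
  have hage' : ∀ (n : ℕ) (f : Fin n → M'), Function.Injective f → K n (pull f I') :=
    fun n f hf => (h'.age n _).2 ⟨f, hf, rfl⟩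
  have hext : ∀ (n : ℕ) (f : Fin n → M) (J : Str ar (Fin (n + 1))), Function.Injective f → K (n + 1) J →
      pull Fin.castSucc J = pull f I → ∃ x : M, x ∉ Set.range f ∧ pull (Fin.snoc f x : Fin (n + 1) → M) I = J :=
    fun n f J hf hJ hfJ => h.ext f hf J hJ hfJ
  have hext' : ∀ (n : ℕ) (f : Fin n → M') (J : Str ar (Fin (n + 1))), Function.Injective f → K (n + 1) J →
      pull Fin.castSucc J = pull f I' → ∃ x : M', x ∉ Set.range f ∧ pull (Fin.snoc f x : Fin (n + 1) → M') I' = J :=
    fun n f J hf hJ hfJ => h'.ext f hf J hJ hfJ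
  let P := {R : Finset (M' × M) // PJ I' I (↑R : Set (M' × M))}
  have hp0 : PJ I' I (↑(∅ : Finset (M' × M)) : Set (M' × M)) := by
    constructor
    · intro a ha
      exact absurd ha (by simp)
    · intro s t ht
      exact absurd (ht ⟨0, har s⟩) (by simp)
  let p0 : P := ⟨∅, hp0⟩
  have : Encodable M := Encodable.ofCountable M
  have : Encodable M' := Encodable.ofCountable M'
  let D : M' ⊕ M → Order.Cofinal P := fun z => match z with
    | Sum.inl m => ⟨{R : P | ∃ b, (m, b) ∈ R.1}, fun R => by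
        obtain ⟨R', h1, h2, h3⟩ := extend_fst' hage' hext R.1 R.2 m
        exact ⟨⟨R', h2⟩, h3, h1⟩⟩
    | Sum.inr m => ⟨{R : P | ∃ a, (a, m) ∈ R.1}, fun R => by
        have hs : PJ I I' (↑(R.1.image Prod.swap) : Set (M × M')) := by
          have h0 := PJ_swap R.2
          have h1 : (↑(R.1.image Prod.swap) : Set (M × M')) = Prod.swap ⁻¹' (↑R.1 : Set (M' × M)) := by
            rw [Finset.coe_image, Set.image_swap_eq_preimage_swap]
          rw [h1]
          exact h0
        obtain ⟨R', h1, h2, b, h3⟩ := extend_fst' hage hext' (R.1.image Prod.swap) hs m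
        have hs' : PJ I' I (↑(R'.image Prod.swap) : Set (M' × M)) := by
          have h0 := PJ_swap h2
          have h1 : (↑(R'.image Prod.swap) : Set (M' × M)) = Prod.swap ⁻¹' (↑R' : Set (M × M')) := by
            rw [Finset.coe_image, Set.image_swap_eq_preimage_swap]
          rw [h1]
          exact h0
        refine ⟨⟨R'.image Prod.swap, hs'⟩, ⟨b, ?_⟩, ?_⟩
        · exact Finset.mem_image.2 ⟨(m, b), h3, rfl⟩
        · show R.1 ⊆ R'.image Prod.swap
          intro a ha
          refine Finset.mem_image.2 ⟨a.swap, h1 (Finset.mem_image.2 ⟨a, ha, rfl⟩), ?_⟩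
          exact Prod.swap_swap a⟩
  let J := Order.idealOfCofinals p0 D
  have hp0J : p0 ∈ J := Order.mem_idealOfCofinals p0 D
  let U : Set (M' × M) := {a | ∃ R ∈ J, a ∈ R.1}
  have hcom : ∀ (k : ℕ) (T : Fin k → P), (∀ i, T i ∈ J) → ∃ R ∈ J, ∀ i, T i ≤ R := by
    intro k
    induction k with
    | zero => intro T _; exact ⟨p0, hp0J, fun i => i.elim0⟩
    | succ k ih =>
      intro T hT
      obtain ⟨R, hR, hRT⟩ := ih (fun i => T (Fin.castSucc i)) (fun i => hT _)
      obtain ⟨R', hR', h1, h2⟩ := J.directed R hR (T (Fin.last k)) (hT _)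
      refine ⟨R', hR', fun i => ?_⟩
      refine Fin.lastCases ?_ (fun i => ?_) i
      · exact h2
      · exact le_trans (hRT i) h1
  have hU : PJ I' I U := by
    constructor
    · rintro a ⟨Ra, hRa, ha⟩ b ⟨Rb, hRb, hb⟩
      obtain ⟨R, hR, h1, h2⟩ := J.directed Ra hRa Rb hRb
      exact R.2.1 a (h1 ha) b (h2 hb)
    · intro s t ht
      choose T hT htT using ht
      obtain ⟨R, hR, hRT⟩ := hcom _ T hT
      exact R.2.2 s t (fun i => hRT i (htT i))
  have hdom : ∀ m : M', ∃ b, (m, b) ∈ U := by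
    intro m
    obtain ⟨R, hR1, hR2⟩ := Order.cofinal_meets_idealOfCofinals p0 D (Sum.inl m)
    obtain ⟨b, hb⟩ := hR1
    exact ⟨b, R, hR2, hb⟩
  have hran : ∀ m : M, ∃ a, (a, m) ∈ U := by
    intro m
    obtain ⟨R, hR1, hR2⟩ := Order.cofinal_meets_idealOfCofinals p0 D (Sum.inr m)
    obtain ⟨b, hb⟩ := hR1
    exact ⟨b, R, hR2, hb⟩
  choose F hF using hdom
  choose G hG using hran
  refine ⟨⟨F, G, fun m => ?_, fun m => ?_⟩, ?_⟩
  · exact (hU.1 _ (hG (F m)) _ (hF m)).2 rfl
  · exact (hU.1 _ (hF (G m)) _ (hG m)).1 rfl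
  · funext s t
    exact propext (hU.2 s (fun i => (t i, F (t i))) (fun i => hF (t i))).symm

end Pool.Agent.Helper31.NR
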