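import Pool.Agent.Helper31.NR.Four
import Pool.Agent.Helper31.NR.Uniq

/-!
# The generic `H_4`-free 3-hypertournament
-/

set_option autoImplicit false

namespace Pool.Agent.Helper31.NR

section general

variable {S : Type} {ar : S → ℕ}

/-- `I` is homogeneous: every isomorphism between finite substructures extends to an automorphism. -/
def Homog {M : Type} (I : Str ar M) : Prop :=
  ∀ (n : ℕ) (f g : Fin n → M), Function.Injective f → Function.Injective g → pull f I = pull g I →
    ∃ σ : M ≃ M, pull σ I = I ∧ ∀ i, σ (f i) = g i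

/-- The age of `I`: the finite structures which embed into `I`. -/
def ageOf {M : Type} (I : Str ar M) : Cls ar :=
  fun n J => ∃ f : Fin n → M, Function.Injective f ∧ pull f I = J

theorem IsLimit.transport {K : Cls ar} {M M' : Type} {I : Str ar M} (h : IsLimit K M I) (e : M' ≃ M) :
    IsLimit K M' (pull e I) := by
  have hc := h.ctb
  refine ⟨Countable.of_equiv M e.symm, fun n J => ?_, fun n f g hf hg hfg => ?_⟩
  · rw [h.age]
    constructor
    · rintro ⟨f, hf, rfl⟩
      refine ⟨fun i => e.symm (f i), e.symm.injective.comp hf, ?_⟩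
      funext s t
      show I s (fun i => e (e.symm (f (t i)))) = I s (fun i => f (t i))
      simp
    · rintro ⟨f, hf, rfl⟩
      exact ⟨fun i => e (f i), e.injective.comp hf, rfl⟩
  · obtain ⟨σ, hσ, hσf⟩ := h.hom n (fun i => e (f i)) (fun i => e (g i)) (e.injective.comp hf)
      (e.injective.comp hg) hfg
    refine ⟨(e.trans σ).trans e.symm, ?_, fun i => ?_⟩
    · funext s t
      show I s (fun i => e (e.symm (σ (e (t i))))) = I s (fun i => e (t i))
      simp only [Equiv.apply_symm_apply]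
      exact congrFun (congrFun hσ s) (fun i => e (t i))
    · show e.symm (σ (e (f i))) = g i
      rw [hσf i, Equiv.symm_apply_apply]

theorem IsLimit.ageOf_eq {K : Cls ar} {M : Type} {I : Str ar M} (h : IsLimit K M I) : ageOf I = K := by
  funext n J
  exact propext (h.age n J).symm

/-- Every limit of `K` has an expansion by one relation which is a limit of `ordC K`. -/
theorem exists_order {S : Type} [Finite S] {ar : S → ℕ} (har : ∀ s, 0 < ar s) (K : Cls ar) (hK : Hereditary K)
    (hC : Completable K) {M : Type} {I : Str ar M} (h : IsLimit K M I) :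
    ∃ J : Str (arO ar) M, red J = I ∧ IsLimit (ordC K) M J := by
  have hO : OHered K := fun m n f I hf hI => hK m n f I hf.injective hI
  have hF := fraisse_ordC har K hO hC
  have h0 : ∃ (n : ℕ) (I : Str ar (Fin n)), K n I :=
    ⟨0, pull (Fin.elim0 : Fin 0 → M) I, (h.age 0 _).2 ⟨Fin.elim0, fun a => a.elim0, rfl⟩⟩
  obtain ⟨M0, I0, h1, h2⟩ := extends_ordC har K hK h0 hF
  obtain ⟨e, he⟩ := IsLimit.unique har h2 h
  exact ⟨pull e I0, he, h1.transport e⟩

theorem ordC_iff {K : Cls ar} (hK : Hereditary K) {n : ℕ} (I : Str (arO ar) (Fin n)) :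
    ordC K n I ↔ K n (red I) ∧ IsStrictTotalOrder (Fin n) (lt' I) := by
  constructor
  · rintro ⟨e, h1, h2⟩
    have h3 := hK n n e.symm _ e.symm.injective h2
    have h4 : pull e.symm (pull e (red I)) = red I := by
      funext s t
      show red I s (fun i => e (e.symm (t i))) = red I s t
      simp
    rw [h4] at h3
    have h5 : ∀ x y, lt' I x y ↔ e.symm x < e.symm y := by
      intro x y
      rw [← h1, Equiv.apply_symm_apply, Equiv.apply_symm_apply]
    refine ⟨h3, { trichotomous := fun x y hxy hyx => ?_, irrefl := fun x => ?_, trans := fun x y z => ?_ }⟩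
    · rw [h5, not_lt] at hxy hyx
      exact e.symm.injective (le_antisymm hyx hxy)
    · rw [h5]
      exact lt_irrefl _
    · rw [h5, h5, h5]
      exact lt_trans
  · rintro ⟨h1, h2⟩
    obtain ⟨e, he⟩ := exists_enum (lt' I) (fun x => h2.irrefl x)
      (fun x y hxy => by
        by_contra hcon
        push Not at hcon
        exact hxy (h2.trichotomous x y hcon.1 hcon.2)) (fun x y z => h2.trans x y z)
    exact ⟨e, he, hK n n e _ e.injective h1⟩

end general

/-- `I` is a 3-hypertournament: the relation holds only on triples of distinct points, and on three distinct points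
it holds exactly on the cyclic shifts of one of the two cyclic orderings. -/
def HT3 {V : Type} (I : Str (fun _ : Unit => 3) V) : Prop :=
  (∀ x y z : V, I () ![x, y, z] → x ≠ y ∧ y ≠ z ∧ z ≠ x) ∧
  ∀ x y z : V, x ≠ y → y ≠ z → z ≠ x →
    (I () ![x, y, z] ↔ I () ![y, z, x]) ∧ (I () ![x, y, z] ↔ ¬ I () ![y, x, z])

/-- The 3-hypertournament `H_4` on `{0, 1, 2, 3}`: the triples `(0,1,3)`, `(1,2,3)`, `(2,0,3)`, `(0,2,1)` and their cyclic shifts. -/
def H4s : Str (fun _ : Unit => 3) (Fin 4) := fun _ t =>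
  (t 0, t 1, t 2) ∈ ({(0, 1, 3), (1, 3, 0), (3, 0, 1), (1, 2, 3), (2, 3, 1), (3, 1, 2), (2, 0, 3), (0, 3, 2), (3, 2, 0),
    (0, 2, 1), (2, 1, 0), (1, 0, 2)} : Finset (Fin 4 × Fin 4 × Fin 4))

/-- `H4s` as a Boolean function. -/
private def h4b (x y z : Fin 4) : Bool := decide ((x, y, z) ∈ ({(0, 1, 3), (1, 3, 0), (3, 0, 1), (1, 2, 3), (2, 3, 1),
  (3, 1, 2), (2, 0, 3), (0, 3, 2), (3, 2, 0), (0, 2, 1), (2, 1, 0), (1, 0, 2)} : Finset (Fin 4 × Fin 4 × Fin 4)))

private theorem h4b_iff (t : Fin 3 → Fin 4) : H4s () t ↔ h4b (t 0) (t 1) (t 2) = true := by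
  unfold H4s h4b
  rw [decide_eq_true_iff]

/-- The class of finite `H_4`-free 3-hypertournaments. -/
def W4 : Cls (fun _ : Unit => 3) := fun _ I => HT3 I ∧ ¬ Emb H4s I

private theorem perm3 : ∀ σ : Equiv.Perm (Fin 3),
    (Equiv.Perm.sign σ = 1 ∧ (![σ 0, σ 1, σ 2] = ![0, 1, 2] ∨ ![σ 0, σ 1, σ 2] = ![1, 2, 0] ∨
      ![σ 0, σ 1, σ 2] = ![2, 0, 1])) ∨
    (Equiv.Perm.sign σ ≠ 1 ∧ (![σ 0, σ 1, σ 2] = ![1, 0, 2] ∨ ![σ 0, σ 1, σ 2] = ![0, 2, 1] ∨
      ![σ 0, σ 1, σ 2] = ![2, 1, 0])) := by
  decide +kernel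

private theorem vec3 {V : Type} (t : Fin 3 → V) : t = ![t 0, t 1, t 2] := by
  funext i
  fin_cases i <;> rfl

theorem ht3_iff {n : ℕ} (I : Str (fun _ : Unit => 3) (Fin n)) : HT3 I ↔ IsHT I := by
  constructor
  · rintro ⟨h1, h2⟩
    refine ⟨fun t ht => ?_, fun t ht σ => ?_⟩
    · have h3 := h1 (t 0) (t 1) (t 2) (by rw [← vec3]; exact ht)
      intro i j hij
      fin_cases i <;> fin_cases j <;> simp_all
    · have a01 : t 0 ≠ t 1 := fun h => absurd (ht h) (by decide)
      have a12 : t 1 ≠ t 2 := fun h => absurd (ht h) (by decide)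
      have a20 : t 2 ≠ t 0 := fun h => absurd (ht h) (by decide)
      have e1 : (fun i => t (σ i)) = ![t (σ 0), t (σ 1), t (σ 2)] := vec3 _
      have e2 : I () t ↔ I () ![t 0, t 1, t 2] := by
        rw [← vec3]
      rw [e1, e2]
      have b1 := h2 (t 0) (t 1) (t 2) a01 a12 a20
      have b2 := h2 (t 1) (t 2) (t 0) a12 a20 a01
      have b3 := h2 (t 2) (t 0) (t 1) a20 a01 a12
      rcases perm3 σ with ⟨hs, h | h | h⟩ | ⟨hs, h | h | h⟩
      all_goals
        have c0 : σ 0 = _ := congrFun h 0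
        have c1 : σ 1 = _ := congrFun h 1
        have c2 : σ 2 = _ := congrFun h 2
        rw [c0, c1, c2]
        simp only [Matrix.cons_val_zero, Matrix.cons_val_one, Matrix.cons_val, hs]
        tauto
  · rintro ⟨h1, h2⟩
    refine ⟨fun x y z h => ?_, fun x y z hxy hyz hzx => ?_⟩
    · have h3 := h1 _ h
      refine ⟨fun h4 => ?_, fun h4 => ?_, fun h4 => ?_⟩
      · have : (0 : Fin 3) = 1 := h3 h4
        exact absurd this (by decide)
      · have : (1 : Fin 3) = 2 := h3 h4
        exact absurd this (by decide)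
      · have : (2 : Fin 3) = 0 := h3 h4
        exact absurd this (by decide)
    · have hinj : Function.Injective (![x, y, z] : Fin 3 → Fin n) := by
        intro i j hij
        fin_cases i <;> fin_cases j <;> simp_all
      have h3 := h2 _ hinj (finRotate 3)
      have h4 := h2 _ hinj (Equiv.swap 0 1)
      have e1 : (fun i => (![x, y, z] : Fin 3 → Fin n) (finRotate 3 i)) = ![y, z, x] := by
        funext i
        fin_cases i <;> rfl
      have e2 : (fun i => (![x, y, z] : Fin 3 → Fin n) (Equiv.swap 0 1 i)) = ![y, x, z] := by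
        funext i
        fin_cases i <;> rfl
      have s1 : Equiv.Perm.sign (finRotate 3) = 1 := by decide
      have s2 : Equiv.Perm.sign (Equiv.swap (0 : Fin 3) 1) ≠ 1 := by decide
      rw [e1] at h3
      rw [e2] at h4
      simp only [s1, s2] at h3 h4
      constructor <;> tauto

private theorem ht3_H4 : HT3 H4s := by
  have h1 : ∀ x y z : Fin 4, h4b x y z = true → x ≠ y ∧ y ≠ z ∧ z ≠ x := by decide +kernel
  have h2 : ∀ x y z : Fin 4, x ≠ y → y ≠ z → z ≠ x →
    (h4b x y z = true ↔ h4b y z x = true) ∧ (h4b x y z = true ↔ ¬ h4b y x z = true) := by decide +kernel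
  refine ⟨fun x y z h => ?_, fun x y z hxy hyz hzx => ?_⟩
  · rw [h4b_iff] at h
    exact h1 x y z h
  · rw [h4b_iff, h4b_iff, h4b_iff]
    exact h2 x y z hxy hyz hzx

private theorem ty_H4 : ty H4s id = 0 := by
  classical
  have h1 : ∀ i : Fin 4, h4b (i.succAbove 0) (i.succAbove 1) (i.succAbove 2) = true ↔ Even (i : ℕ) := by
    decide +kernel
  have h1 : ∀ i, yb H4s id i := by
    intro i
    unfold yb
    rw [h4b_iff]
    exact h1 i
  unfold ty
  apply Nat.min_eq_zero_iff.2
  right
  rw [Finset.card_eq_zero, Finset.filter_eq_empty_iff]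
  intro i _
  exact not_not.2 (h1 i)

theorem W4_eq : W4 = HTF 3 (FH 3) := by
  rw [← hF_eq, ← KT_12]
  funext n I
  apply propext
  constructor
  · rintro ⟨h1, h2⟩
    have hI := (ht3_iff I).1 h1
    refine ⟨hI, fun u hu => ?_⟩
    have h3 := ty_le I u
    have h4 : ty I u ≠ 0 := by
      intro h4
      apply h2
      have hp : IsHT (pull u I) := by
        refine ⟨fun t ht => ?_, fun t ht σ => ?_⟩
        · have h5 : Function.Injective (fun i => u (t i)) := hI.1 _ ht
          exact fun a b hab => h5 (congrArg u hab)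
        · exact hI.2 (fun i => u (t i)) (hu.comp ht) σ
      obtain ⟨σ, hσ⟩ := iso_of_ty (pull u I) H4s hp ((ht3_iff _).1 ht3_H4) (h4.trans ty_H4.symm)
      exact ⟨fun i => u (σ i), hu.comp σ.injective, hσ⟩
    have h5 : ty I u = 1 ∨ ty I u = 2 := by omega
    exact h5
  · rintro ⟨hI, h1⟩
    refine ⟨(ht3_iff I).2 hI, ?_⟩
    rintro ⟨f, hf, hfI⟩
    have h2 := h1 f hf
    have h3 : ty I f = ty (pull f I) id := rfl
    rw [h3, hfI, ty_H4] at h2
    simp at h2

/-- The `H_4`-free 3-hypertournaments form a Fraisse class, and the Fraisse limit has an expansion by a linear order which is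
homogeneous and whose age is the class of all linearly ordered `H_4`-free 3-hypertournaments, which is Ramsey. -/
theorem W4_main :
    IsFraisse W4 ∧ (∃ (M : Type) (I : Str (fun _ : Unit => 3) M), IsLimit W4 M I) ∧
    ∀ (M : Type) (I : Str (fun _ : Unit => 3) M), IsLimit W4 M I →
      ∃ J : Str (Sum.elim (fun _ : Unit => 3) (fun _ : Unit => 2)) M,
        red J = I ∧ Homog J ∧ IsRamsey (ageOf J) ∧
        ∀ (n : ℕ) (A : Str (Sum.elim (fun _ : Unit => 3) (fun _ : Unit => 2)) (Fin n)),
          ageOf J n A ↔ W4 n (red A) ∧ IsStrictTotalOrder (Fin n) (lt' A) := by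
  rw [W4_eq]
  have hI := hF_irred (le_refl 3)
  have h := orderExpansion_HTF 3 (by norm_num) (FH 3) (hF_fin 3) hI
  have hC := completable_of_nat _ _ (natAmalg_rho (r := 3) (by norm_num) (FH 3) hI)
  have hK : Hereditary (HTF 3 (FH 3)) := her_HTF 3 (FH 3)
  refine ⟨h.1.1, ?_, fun M I hM => ?_⟩
  · obtain ⟨M, I, -, h2⟩ := h.2.2.1
    exact ⟨M, _, h2⟩
  · obtain ⟨J, h1, h2⟩ := exists_order (fun _ => by norm_num) _ hK hC hM
    refine ⟨J, h1, h2.hom, ?_, ?_⟩
    · rw [h2.ageOf_eq]
      exact h.2.2.2.2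
    · rw [h2.ageOf_eq]
      intro n A
      exact ordC_iff hK A

end Pool.Agent.Helper31.NR
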